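import Pool.Agent.P.MP_cc10d1_gt.T.Basic

/-! The statements of all steps. -/

set_option autoImplicit false

namespace Pool.Agent.P.MP_cc10d1_gt.T

open Quandles

/-! ### Braids and knots -/

-- deps:
def S_BR : Prop :=
  ∀ (n : ℕ) (u w : Word n), toBr u = toBr w → ∀ (hu : IsKnot u) (hw : IsKnot w),
    Knot.mk u hu = Knot.mk w hw

-- deps: BR
def S_ORD : Prop :=
  ∀ (d n : ℕ) (u w : Word n), (toBr u)⁻¹ * toBr w ∈ CC n d → ∀ hu : IsKnot u, ∃ hw : IsKnot w,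
    ∀ (A : Type) [AddCommGroup A] (v : Knot → A), HasOrder v d →
      v (Knot.mk w hw) = v (Knot.mk u hu)

-- deps:
def S_COX : Prop := ∀ (n : ℕ) (b : Br n), pm n b = 1 → b ∈ PN (sg : Fin n → Br n)

-- deps:
def S_UNK : Prop :=
  ∀ (X : Type) [Quandle X] (n : ℕ) (e : Fin n → Bool), Triv X (toBr (unk e))

-- deps:
-- imports: Pool.Agent.P.MP_cc10d1_gt.Stab
def S_STABW : Prop :=
  ∀ (n : ℕ) (w : Word n), IsKnot w → ∀ n0 : ℕ, ∃ (m : ℕ) (w1 : Word m) (e : Fin m → Bool),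
    n0 ≤ m ∧ Relation.ReflTransGen Stab ⟨n, w⟩ ⟨m, w1⟩ ∧ IsKnot w1 ∧
      ex m (toBr w1) = ex m (toBr (unk e))

-- deps:
-- imports: Pool.Agent.P.MP_cc10d1_gt.Stab
def S_STABK : Prop :=
  ∀ (a b : Σ n, Word n), Relation.ReflTransGen Stab a b → ∀ ha : IsKnot a.2,
    ∃ hb : IsKnot b.2, Knot.mk b.2 hb = Knot.mk a.2 ha

-- deps:
def S_FIXC : Prop :=
  ∀ (X : Type) [Quandle X] (n : ℕ) (b : Br n) (x : Fin (n + 1) → X),
    (∀ i j, (pm n b).SameCycle i j) → rho X n b x = x →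
      TConn x ∧ ((∀ i j, sy (x i) = sy (x j)) → ∀ i j, x i = x j)

-- deps:
def S_ABS : Prop :=
  ∀ (B I : Type) [Group B] (s : I → B) (s0 : B) (e : B →* Multiplicative ℤ)
    (K C L Lp : Subgroup B) [K.Normal] [C.Normal], Subgroup.closure (Set.range s) = ⊤ →
    (∀ i, IsConj s0 (s i)) → e s0 = Multiplicative.ofAdd 1 → Lp ≤ L → s0 ∈ L →
    (∀ l ∈ Lp, l * s0 * l⁻¹ * s0⁻¹ ∈ K) → Lp ⊔ C = ⊤ → L ⊔ K = ⊤ →
    (∀ b, ∃ c ∈ K ⊓ C, ∃ l ∈ L, b = c * l) ∧ ∀ b, e b = 1 → ∃ c ∈ C, ∃ k ∈ K, b = c * k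

/-! ### Hurwitz moves -/

-- deps:
def S_BRIDGE : Prop :=
  ∀ (Q : Type) [Quandle Q] (n : ℕ) (x y : Fin (n + 1) → Q),
    Orb x y ↔ Eqv (List.ofFn x) (List.ofFn y)

-- deps:
def S_BLK : Prop :=
  ∀ (Q : Type) [Quandle Q] (W : List Q), pr sy W = 1 → ∀ l : List Q,
    Eqv (l ++ W) (W ++ l) ∧ ∀ g ∈ gp l, pr sy (W.map g) = 1 ∧ Eqv (l ++ W) (l ++ W.map g)

-- deps:
def S_EXT : Prop :=
  ∀ (Q : Type) [Quandle Q] (p : Q → Bool) (l : List Q), ∃ l0 : List Q, Eqv l (l0 ++ l.filter p)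

-- deps: EXT
def S_PIG : Prop :=
  ∀ (Q : Type) [Quandle Q] [Finite Q] (k : ℕ) (l : List Q), Nat.card Q * k < l.length →
    ∃ (l0 : List Q) (y : Q), y ∈ l0 ∧ Eqv l (l0 ++ List.replicate k y) ∧ gp l0 = gp l ∧
      (Conn l → Conn l0)

-- deps: BLK PIG
def S_INJ : Prop :=
  ∀ (Q : Type) [Quandle Q] [Finite Q], ∃ m : ℕ, ∀ (y : Q) (l l' : List Q), Full l → Full l' →
    m ≤ l.length → Eqv (y :: l) (y :: l') → Eqv l l'

-- deps: BLK INJ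
def S_CP : Prop :=
  ∀ (Q : Type) [Quandle Q] [Finite Q], ∃ m : ℕ, ∀ l l' : List Q, Full l → Full l' →
    m ≤ l.length → l.length = l'.length →
    (∀ (G : Type) [Group G] (e : Q → G), CHom e → pr e l = pr e l') → Eqv l l'

-- deps:
def S_DZ : Prop :=
  ∀ (Q : Type) [Quandle Q], Cn Q → ∀ a b : Q,
    ∃ φ ∈ dis (FreeGroup.of : Q → FreeGroup Q), hol (id : Q → Q) φ a = b

-- deps: DZ
def S_COMM : Prop :=
  ∀ (Z A G : Type) [Quandle Z] [Quandle A] [Group G] (e : Z × A → G), Cn Z → Cn A → Perf Z →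
    CHom e → ∀ (a0 : Z) (b0 : A),
    (∀ g ∈ dis (fun a => e (a, b0)), ∀ h ∈ dis (fun b => e (a0, b)), g * h = h * g) ∧
      ∀ a b, e (a, b) = e (a, b0) * (e (a0, b0))⁻¹ * e (a0, b)

-- deps: COMM
def S_PROD : Prop :=
  ∀ (Z A G : Type) [Quandle Z] [Quandle A] [Group G] (e : Z × A → G), Cn Z → Cn A → Perf Z →
    CHom e → ∀ l l' : List (Z × A), Eqv (l.map Prod.fst) (l'.map Prod.fst) →
    Eqv (l.map Prod.snd) (l'.map Prod.snd) → pr e l = pr e l'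

-- deps: DZ
def S_PERF : Prop :=
  ∀ (Z E : Type) [Quandle Z] [Group E] (f : Z → E), Cn Z → CHom f → Function.Injective f →
    ⁅dis f, dis f⁆ = dis f → Perf Z

-- deps:
def S_SUB : Prop :=
  ∀ (Q : Type) [Quandle Q] (n : ℕ) (x : Fin (n + 1) → Q), TConn x →
    ∃ (O : {O : Set Q // Cl O}) (z : Fin (n + 1) → SubQ O), (∀ i, (z i).1 = x i) ∧ TFull z ∧
      ∀ a, a ∈ O.1 ↔ ∃ φ, hol x φ (x 0) = a

-- deps: BRIDGE CP PROD
def S_BIN : Prop :=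
  ∀ (Z A : Type) [Quandle Z] [Quandle A] [Finite Z] [Finite A], Perf Z → ∃ n0 : ℕ, ∀ n, n0 ≤ n →
    ∀ (x y : Fin (n + 1) → Z) (w w' : Fin (n + 1) → A), TFull (fun i => (x i, w i)) →
      TFull (fun i => (y i, w' i)) → Orb x y → Orb w w' →
      ∃ b, rho Z n b x = y ∧ rho A n b w = w'

/-! ### Tuples in groups -/

-- deps:
def S_HD : Prop :=
  ∀ (ι E : Type) [Group E] (x : ι → E), GConn x → ∀ (i : ι), ∀ h ∈ Hx x,
    (∃ d ∈ Dx x, ∃ k : ℤ, h = d * x i ^ k) ∧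
      ∀ g ∈ Hx x, ∃ d ∈ Dx x, h * x i * h⁻¹ = d * (g * x i * g⁻¹) * d⁻¹

-- deps:
def S_KER : Prop :=
  ∀ (E : Type) [Group E] (n : ℕ) (b : Br n) (x : Fin (n + 1) → E),
    Hx (rho (Quandle.Conj E) n b x) = Hx x ∧ (Om x → Om (rho (Quandle.Conj E) n b x)) ∧
      ∀ y : Fin (n + 1) → E, kr x = kr y →
        kr (rho (Quandle.Conj E) n b x) = kr (rho (Quandle.Conj E) n b y)

-- deps:
def S_CLS : Prop :=
  ∀ (E : Type) [Group E] [Finite E], ∃ c : ℕ, ∀ (ι : Type) [Finite ι] (x : ι → E),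
    Nat.card {y : ι → E // kr y = kr x} ≤ c

-- deps:
def S_GOUR : Prop :=
  ∀ (ι κ E A : Type) [Finite κ] [Group E] [Quandle A] (x : κ → ι → E) (w : ι → A),
    (∀ k, Om (x k)) → (∀ k l, k ≠ l → kr (x k) ≠ kr (x l)) →
    (∀ φ ∈ derivedSeries (FreeGroup ι) 2, hol w φ = 1) → Ind x w

-- deps: HD
def S_JCONN : Prop :=
  ∀ (ι κ E A : Type) [Finite κ] [Group E] [Quandle A] (x : κ → ι → E) (w : ι → A),
    (∀ k, GConn (x k)) → TConn w → Ind x w →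
    TConn (Q := Quandle.Conj (κ → E) × A) fun i => ((fun k => x k i), w i)

-- deps: SUB BIN PERF HD KER
def S_BINA : Prop :=
  ∀ (E A : Type) [Group E] [Finite E] [Quandle A] [Finite A], ∃ n0 : ℕ, ∀ n, n0 ≤ n →
    ∀ (x y : Fin (n + 1) → E) (w w' : Fin (n + 1) → A), Om x → TConn w →
      Orb (X := Quandle.Conj E) x y → Orb w w' →
      (∀ d ∈ Dx x, ∃ φ, FreeGroup.lift x φ = d ∧ hol w φ = 1) →
      (∀ d ∈ Dx y, ∃ φ, FreeGroup.lift y φ = d ∧ hol w' φ = 1) →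
      ∃ b, rho (Quandle.Conj E) n b x = y ∧ rho A n b w = w'

-- deps: BINA HD
def S_JT : Prop :=
  ∀ (E : Type) [Group E] [Finite E] (j : ℕ) (A : Type) [Quandle A] [Finite A],
    ∃ n0 : ℕ, ∀ n, n0 ≤ n → ∀ (x y : Fin j → Fin (n + 1) → E) (w w' : Fin (n + 1) → A),
      (∀ k, Om (x k)) → (∀ k, Orb (X := Quandle.Conj E) (x k) (y k)) → TConn w → Orb w w' →
      Ind x w → Ind y w' →
      ∃ b, (∀ k, rho (Quandle.Conj E) n b (x k) = y k) ∧ rho A n b w = w'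

/-! ### Stabilisers -/

-- deps: BLK EXT
def S_LAB : Prop :=
  ∀ (Q L : Type) [Quandle Q] [Finite Q] [Finite L] (l : List (Q × Lab L)),
    Conn (l.map Prod.fst) → Nat.card Q * Nat.card (Equiv.Perm Q) < l.length →
    (l.map Prod.snd).Nodup → (∀ a : Lab L, a ∈ l.map Prod.snd) →
    ∀ π : Equiv.Perm (Lab L), Eqv l (l.map fun p => (p.1, π p.2))

-- deps: BRIDGE LAB PIG
def S_STAB : Prop :=
  ∀ (Q : Type) [Quandle Q] [Finite Q], ∃ n0 : ℕ, ∀ n, n0 ≤ n → ∀ x : Fin (n + 1) → Q, TConn x →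
    (∀ π, ∃ b, rho Q n b x = x ∧ pm n b = π) ∧
      ∀ i : Fin n, ∃ b, rho Q n b x i.castSucc = rho Q n b x i.succ

-- deps: STAB COX
def S_LC : Prop :=
  ∀ (Q : Type) [Quandle Q] [Finite Q], ∃ n0 : ℕ, ∀ n, n0 ≤ n → ∀ x : Fin (n + 1) → Q, TConn x →
    ∀ (d : ℕ) (L : Subgroup (Br n)), (∀ b, rho Q n b x = x → b ∈ L) → L ⊔ CC n d = ⊤

-- deps: BRIDGE BLK PIG
def S_NF1 : Prop :=
  ∀ (Q : Type) [Quandle Q] [Finite Q], ∃ S : ℕ, ∀ n, ∃ F : Finset (Fin (n + 1) → Q),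
    F.card ≤ S ∧ ∀ x : Fin (n + 1) → Q, TConn x → ∃ y ∈ F, Orb x y

-- deps: BRIDGE BLK PIG
def S_NF2 : Prop :=
  ∀ (Q : Type) [Quandle Q] [Finite Q] (N : ℕ), ∃ n0 : ℕ, ∀ n, n0 ≤ n →
    ∀ x : Fin (n + 1) → Q, TConn x → (∃ i j, x i ≠ x j) →
      N ≤ Nat.card {y : Fin (n + 1) → Q // Orb x y}

/-! ### Affine quandles -/

-- deps:
def S_RING : Prop :=
  ∀ e : ℕ, 0 < e → ∃ (R : Type) (_ : CommRing R) (_ : Finite R) (t : Rˣ),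
    IsUnit (1 - (t : R)) ∧ Univ t e

-- deps: BRIDGE
def S_SQ : Prop :=
  ∀ (R : Type) [CommRing R] (t : Rˣ), IsUnit (1 - (t : R)) → ∀ (n : ℕ) (i : Fin n), i.1 = 0 →
    ∀ b c : Br n, rho _ n b (pv t n) = rho _ n c (pv t n) →
      rho (Aff (mu t)) n (b * sg i * b⁻¹) = rho (Aff (mu t)) n (c * sg i * c⁻¹)

-- deps:
def S_LAT : Prop :=
  ∀ (R : Type) [CommRing R] [Finite R] (t : Rˣ), IsUnit (1 - (t : R)) → ∀ (ι : Type)
    (w : ι → Aff (mu t) × Aff (mu t⁻¹)),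
    TConn w ∧ ∀ φ ∈ derivedSeries (FreeGroup ι) 2, hol w φ = 1

-- deps:
def S_KMOD : Prop :=
  ∀ (R : Type) [CommRing R] (t : Rˣ) (D : Type) [AddCommGroup D] (θ : D ≃+ D)
    (f : R →+* AddMonoid.End D), (∀ a, f t a = θ a) → ∀ (n : ℕ) (b : Br n),
    rho (Aff (mu t)) n b = 1 → rho (Aff θ) n b = 1

-- deps: HD KMOD
def S_AFF : Prop :=
  ∀ (E : Type) [Group E] [Finite E] (R : Type) [CommRing R] (t : Rˣ),
    Univ t (Nat.card E).factorial → ∀ (n : ℕ) (b : Br n), rho (Aff (mu t)) n b = 1 →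
    ∀ x : Fin (n + 1) → E, Oa x → rho (Quandle.Conj E) n b x = x

-- deps:
def S_JNA : Prop :=
  ∀ (G ι : Type) [Group G] [Finite G] (x : ι → G), GConn x → (∃ i j, x i ≠ x j) →
    ∃ (H : Subgroup G) (f : H →* Equiv.Perm G) (z : ι → H), (∀ i, (z i : G) = x i) ∧
      (Om (f ∘ z) ∨ Oa (f ∘ z))

/-! ### Derangements -/

-- deps:
def S_NUM : Prop :=
  ∀ S : ℕ, ∃ k : ℕ, Odd k ∧ ∀ s : ℕ, s ≤ S →
    0 < ∑ j ∈ Finset.range (k + 1), (-(s : ℝ)) ^ j / (j.factorial : ℝ)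

-- deps:
def S_MOM : Prop :=
  ∀ (Ω I : Type) [Fintype Ω] [Fintype I] [DecidableEq Ω] (τ : Ω → I)
    (H : Subgroup (Equiv.Perm Ω)) [Fintype H] (β : Equiv.Perm Ω) (j : ℕ),
    (∀ h ∈ H, ∀ x, τ (h x) = τ x) → (∀ x, τ (β x) = τ x) →
    (∀ i, j ≤ Nat.card {x // τ x = i}) →
    (∀ x y : Fin j → Ω, Function.Injective x → Function.Injective y → (∀ k, τ (x k) = τ (y k)) →
      ∃ h ∈ H, ∀ k, h (x k) = y k) →
    ∑ h : H, ((Finset.univ.filter fun x => β (h.1 x) = x).card).descFactorial j =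
      Fintype.card I ^ j * Fintype.card H

-- deps: MOM
def S_DER1 : Prop :=
  ∀ (Ω I : Type) [Finite Ω] [Finite I] (τ : Ω → I) (H : Subgroup (Equiv.Perm Ω))
    (β : Equiv.Perm Ω) (k : ℕ), (∀ h ∈ H, ∀ x, τ (h x) = τ x) → (∀ x, τ (β x) = τ x) →
    (∀ i, k ≤ Nat.card {x // τ x = i}) →
    (∀ j, j ≤ k → ∀ x y : Fin j → Ω, Function.Injective x → Function.Injective y →
      (∀ l, τ (x l) = τ (y l)) → ∃ h ∈ H, ∀ l, h (x l) = y l) →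
    Odd k → 0 < ∑ j ∈ Finset.range (k + 1), (-(Nat.card I : ℝ)) ^ j / (j.factorial : ℝ) →
    ∃ h ∈ H, ∀ x, β (h x) ≠ x

-- deps: DER1
def S_DER2 : Prop :=
  ∀ (B T K : Type) [Group B] [Finite T] (ρ : B →* Equiv.Perm T) (p : T → Prop) (κ : T → K)
    (R : Subgroup B) (β : B) (S k c : ℕ), (∀ b x, p x → p (ρ b x)) →
    (∀ b x y, κ x = κ y → κ (ρ b x) = κ (ρ b y)) →
    (∃ F : Finset T, F.card ≤ S ∧ ∀ x, p x → ∃ y ∈ F, ∃ b, ρ b x = y) →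
    (∀ x, Nat.card {y // κ y = κ x} ≤ c) →
    (∀ x, p x → k * c ≤ Nat.card {y // ∃ b, ρ b x = y}) →
    (∀ j, j ≤ k → ∀ x y : Fin j → T, (∀ l, p (x l)) → (∀ l, ∃ b, ρ b (x l) = y l) →
      (∀ l m, l ≠ m → κ (x l) ≠ κ (x m)) → (∀ l m, l ≠ m → κ (y l) ≠ κ (y m)) →
      ∃ r ∈ R, ∀ l, ρ r (x l) = y l) →
    Odd k → (∀ s : ℕ, s ≤ S →
      0 < ∑ j ∈ Finset.range (k + 1), (-(s : ℝ)) ^ j / (j.factorial : ℝ)) →
    ∃ r ∈ R, ∀ x, p x → ρ (β * r) x ≠ x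

/-! ### Assembly -/

-- deps: ABS JT JCONN GOUR LAT SQ LC
def S_RT0 : Prop :=
  ∀ (E : Type) [Group E] [Finite E] (R : Type) [CommRing R] [Finite R] (t : Rˣ),
    IsUnit (1 - (t : R)) → ∀ j : ℕ, ∃ n0 : ℕ, ∀ n, n0 ≤ n → ∀ (d : ℕ) (i : Fin n), i.1 = 0 →
    ∀ x : Fin j → Fin (n + 1) → E, (∀ k, Om (x k)) → (∀ k l, k ≠ l → kr (x k) ≠ kr (x l)) →
      (∀ k, x k i.castSucc = x k i.succ) →
      (∀ b : Br n, ∃ c ∈ (rho (Aff (mu t)) n).ker ⊓ CC n d,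
        ∀ k, rho (Quandle.Conj E) n c (x k) = rho (Quandle.Conj E) n b (x k)) ∧
      ∀ b : Br n, ex n b = 1 → ∃ c ∈ CC n d, ∃ k ∈ (rho (Aff (mu t)) n).ker, b = c * k

-- deps: RT0 JT JCONN GOUR STAB KER
def S_RT : Prop :=
  ∀ (E : Type) [Group E] [Finite E] (R : Type) [CommRing R] [Finite R] (t : Rˣ),
    IsUnit (1 - (t : R)) → ∀ j : ℕ, ∃ n0 : ℕ, ∀ n, n0 ≤ n → ∀ (d : ℕ)
    (x y : Fin j → Fin (n + 1) → E), (∀ k, Om (x k)) →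
      (∀ k, Orb (X := Quandle.Conj E) (x k) (y k)) →
      (∀ k l, k ≠ l → kr (x k) ≠ kr (x l)) → (∀ k l, k ≠ l → kr (y k) ≠ kr (y l)) →
      ∃ c ∈ (rho (Aff (mu t)) n).ker ⊓ CC n d, ∀ k, rho (Quandle.Conj E) n c (x k) = y k

-- deps: RT DER2 NUM NF1 NF2 CLS KER
def S_NOOM : Prop :=
  ∀ (E : Type) [Group E] [Finite E] (R : Type) [CommRing R] [Finite R] (t : Rˣ),
    IsUnit (1 - (t : R)) → ∃ n0 : ℕ, ∀ n, n0 ≤ n → ∀ (d : ℕ) (β : Br n),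
      ∃ c ∈ (rho (Aff (mu t)) n).ker ⊓ CC n d,
        ∀ x : Fin (n + 1) → E, Om x → rho (Quandle.Conj E) n (β * c) x ≠ x

-- deps: RING RT0 NOOM AFF JNA UNK FIXC
def S_GRP : Prop :=
  ∀ (G : Type) [Group G] [Finite G], ∃ n0 : ℕ, ∀ n, n0 ≤ n → ∀ (d : ℕ) (β : Br n)
    (e : Fin n → Bool), (∀ i j, (pm n β).SameCycle i j) → ex n β = ex n (toBr (unk e)) →
    ∃ c ∈ CC n d, Triv (Quandle.Conj G) (β * c)

-- deps: FIXC
def S_XG : Prop :=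
  ∀ (N n : ℕ) (b : Br n), (∀ i j, (pm n b).SameCycle i j) →
    Triv (Quandle.Conj (Equiv.Perm (Fin N))) b →
    ∀ (X : Type) [Quandle X] [Finite X], Nat.card X ≤ N → Triv X b

-- deps: GRP STABW
def S_MB : Prop :=
  ∀ (G : Type) [Group G] [Finite G] (d n : ℕ) (w : Word n), IsKnot w →
    ∃ (m : ℕ) (w1 w2 : Word m), Relation.ReflTransGen Stab ⟨n, w⟩ ⟨m, w1⟩ ∧ IsKnot w1 ∧
      (toBr w1)⁻¹ * toBr w2 ∈ CC m d ∧ Triv (Quandle.Conj G) (toBr w2)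

-- deps: MB XG ORD STABK
def S_Main : Prop :=
  ∀ (N d : ℕ) (K : Knot), ∃ M : Knot,
    (∀ (X : Type) [Quandle X] [Finite X], Nat.card X ≤ N → hcol X M = Nat.card X) ∧
      ∀ (A : Type) [AddCommGroup A] (v : Knot → A), HasOrder v d → v M = v K

end Pool.Agent.P.MP_cc10d1_gt.T
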