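import Pool.Agent.P.MP_cc10d1_gt.T.Iface

/-! Step ABS. -/

set_option autoImplicit false

namespace Pool.Agent.P.MP_cc10d1_gt.T

open Quandles

theorem abs_sup {B : Type} [Group B] (P C : Subgroup B) [C.Normal] {b : B} (hb : b ∈ C ⊔ P) :
    ∃ c ∈ C, ∃ p ∈ P, b = c * p := by
  obtain ⟨c, hc, p, hp, h⟩ := Subgroup.mem_sup_of_normal_left.1 hb
  exact ⟨c, hc, p, hp, h.symm⟩

theorem abs_ker {B I : Type} [Group B] (s : I → B) (s0 : B) (e : B →* Multiplicative ℤ)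
    (hs : Subgroup.closure (Set.range s) = ⊤) (hc : ∀ i, IsConj s0 (s i))
    (he : e s0 = Multiplicative.ofAdd 1) (N : Subgroup B) [N.Normal]
    (hN : ∀ g, g * s0 * g⁻¹ * s0⁻¹ ∈ N) (b : B) (hb : e b = 1) : b ∈ N := by
  have key : ∀ b : B, (QuotientGroup.mk' N b) =
      (QuotientGroup.mk' N s0) ^ (Multiplicative.toAdd (e b)) := by
    intro b
    have hb : b ∈ Subgroup.closure (Set.range s) := by rw [hs]; trivial
    induction hb using Subgroup.closure_induction with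
    | mem x hx =>
      obtain ⟨i, rfl⟩ := hx
      obtain ⟨g, hg⟩ := isConj_iff.1 (hc i)
      have h1 : e (s i) = Multiplicative.ofAdd 1 := by
        rw [← hg, map_mul, map_mul, map_inv, mul_comm (e g), mul_assoc, mul_inv_cancel,
          mul_one, he]
      rw [h1, toAdd_ofAdd, zpow_one, ← hg]
      have h2 : QuotientGroup.mk' N (g * s0 * g⁻¹ * s0⁻¹) = 1 :=
        (QuotientGroup.eq_one_iff _).2 (hN g)
      rw [map_mul, map_inv, mul_inv_eq_one] at h2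
      exact h2
    | one => simp
    | mul x y _ _ ihx ihy => rw [map_mul, map_mul, toAdd_mul, zpow_add, ihx, ihy]
    | inv x _ ih => rw [map_inv, map_inv, toAdd_inv, zpow_neg, ih]
  have h := key b
  rw [hb, toAdd_one, zpow_zero] at h
  exact (QuotientGroup.eq_one_iff _).1 h

theorem abs_gen {B I : Type} [Group B] (s : I → B) (s0 : B) (e : B →* Multiplicative ℤ)
    (hs : Subgroup.closure (Set.range s) = ⊤) (hc : ∀ i, IsConj s0 (s i))
    (he : e s0 = Multiplicative.ofAdd 1) (P J C : Subgroup B) [hC : C.Normal]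
    (hJ : ∀ l ∈ P, ∀ j ∈ J, l * j * l⁻¹ ∈ J) (hP : P ⊔ C = ⊤)
    (h0 : ∀ l ∈ P, l * s0 * l⁻¹ * s0⁻¹ ∈ J) (b : B) (hb : e b = 1) :
    ∃ c ∈ C, ∃ j ∈ J, b = c * j := by
  have hdec : ∀ g : B, ∃ c ∈ C, ∃ p ∈ P, g = c * p := fun g =>
    abs_sup P C (by rw [sup_comm, hP]; trivial)
  have hCN : C ≤ C ⊔ J := le_sup_left
  have hJN : J ≤ C ⊔ J := le_sup_right
  have hN : (C ⊔ J).Normal := ⟨fun n hn g => by
    obtain ⟨c, hc, p, hp, rfl⟩ := hdec g
    obtain ⟨c', hc', j, hj, rfl⟩ := abs_sup J C hn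
    have h1 : c * p * (c' * j) * (c * p)⁻¹ = c * (p * c' * p⁻¹) * (p * j * p⁻¹) * c⁻¹ := by
      group
    rw [h1]
    exact mul_mem (mul_mem (mul_mem (hCN hc) (hCN (hC.conj_mem _ hc' _))) (hJN (hJ p hp j hj)))
      (inv_mem (hCN hc))⟩
  refine abs_sup J C (abs_ker s s0 e hs hc he (C ⊔ J) (fun g => ?_) b hb)
  obtain ⟨c, hc, p, hp, rfl⟩ := hdec g
  have h1 : c * p * s0 * (c * p)⁻¹ * s0⁻¹ =
      c * (p * s0 * p⁻¹ * s0⁻¹) * (s0 * c⁻¹ * s0⁻¹) := by group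
  rw [h1]
  exact mul_mem (mul_mem (hCN hc) (hJN (h0 p hp))) (hCN (hC.conj_mem _ (inv_mem hc) _))

theorem p_ABS :
    S_ABS := by
  intro B I _ s s0 e K C L Lp hK hC hs hc he hLp h0 hcom h1 h2
  refine ⟨fun b => ?_, fun b hb =>
    abs_gen s s0 e hs hc he Lp K C (fun l _ j hj => hK.conj_mem j hj l) h1 hcom b hb⟩
  have hb1 : e (b * s0 ^ (-(Multiplicative.toAdd (e b)))) = 1 := by
    rw [map_mul, map_zpow, he, ← ofAdd_zsmul, smul_eq_mul, mul_one, ofAdd_neg, ofAdd_toAdd,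
      mul_inv_cancel]
  obtain ⟨k, hk, l', hl', hkl⟩ := abs_gen s s0 e hs hc he L (L ⊓ e.ker) K
    (fun l hl j hj => Subgroup.mem_inf.2 ⟨L.mul_mem (L.mul_mem hl hj.1) (L.inv_mem hl),
      (MonoidHom.normal_ker e).conj_mem j hj.2 l⟩) h2
    (fun l hl => Subgroup.mem_inf.2
      ⟨L.mul_mem (L.mul_mem (L.mul_mem hl h0) (L.inv_mem hl)) (L.inv_mem h0), by
      rw [MonoidHom.mem_ker, map_mul, map_mul, map_mul, map_inv, map_inv,
        mul_comm (e l), mul_assoc (e s0), mul_inv_cancel, mul_one, mul_inv_cancel]⟩) _ hb1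
  have hek : e k = 1 := by
    have h3 : e l' = 1 := hl'.2
    rw [hkl, map_mul, h3, mul_one] at hb1
    exact hb1
  obtain ⟨c, hc', j, hj, hcj⟩ := abs_gen s s0 e hs hc he Lp (L ⊓ K) C
    (fun l hl j hj => Subgroup.mem_inf.2
      ⟨L.mul_mem (L.mul_mem (hLp hl) hj.1) (L.inv_mem (hLp hl)), hK.conj_mem j hj.2 l⟩) h1
    (fun l hl => Subgroup.mem_inf.2
      ⟨L.mul_mem (L.mul_mem (L.mul_mem (hLp hl) h0) (L.inv_mem (hLp hl))) (L.inv_mem h0),
      hcom l hl⟩) k hek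
  have hcK : c ∈ K := by
    have h3 : c = k * j⁻¹ := by rw [hcj]; group
    rw [h3]
    exact K.mul_mem hk (K.inv_mem hj.2)
  refine ⟨c, ⟨hcK, hc'⟩, j * l' * s0 ^ (Multiplicative.toAdd (e b)),
    L.mul_mem (L.mul_mem hj.1 hl'.1) (L.zpow_mem h0 _), ?_⟩
  have h4 : b = (b * s0 ^ (-(Multiplicative.toAdd (e b)))) * s0 ^ (Multiplicative.toAdd (e b)) := by
    group
  rw [hkl, hcj] at h4
  refine h4.trans ?_
  group

end Pool.Agent.P.MP_cc10d1_gt.T
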