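import Pool.Agent.P.MP_cc10d1_gt.T.Iface

/-! Step AFF. -/

set_option autoImplicit false

namespace Pool.Agent.P.MP_cc10d1_gt.T

open Quandles

theorem aff_zero {E A : Type} [Group E] [AddCommGroup A] {ι : A → E}
    (hadd : ∀ a b, ι (a + b) = ι a * ι b) : ι 0 = 1 := by
  have h := hadd 0 0
  rw [add_zero] at h
  exact (mul_eq_left.1 h.symm)

theorem aff_sub {E A : Type} [Group E] [AddCommGroup A] {ι : A → E}
    (hadd : ∀ a b, ι (a + b) = ι a * ι b) (a b : A) : ι (b - a) = ι b * (ι a)⁻¹ := by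
  rw [eq_mul_inv_iff_mul_eq, ← hadd, sub_add_cancel]

theorem aff_nsmul {E A : Type} [Group E] [AddCommGroup A] {ι : A → E}
    (hadd : ∀ a b, ι (a + b) = ι a * ι b) (a : A) (k : ℕ) : ι (k • a) = ι a ^ k := by
  induction k with
  | zero => rw [zero_nsmul, pow_zero, aff_zero hadd]
  | succ k ih => rw [succ_nsmul, hadd, ih, pow_succ]

theorem aff_core (hKMOD : S_KMOD) (E : Type) [Group E] [Finite E] (R : Type) [CommRing R]
    (t : Rˣ) (hU : Univ t (Nat.card E).factorial) (n : ℕ) (b : Br n)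
    (hb : rho (Aff (mu t)) n b = 1) (A : Type) [AddCommGroup A] (ι : A → E)
    (hinj : Function.Injective ι) (hadd : ∀ a b, ι (a + b) = ι a * ι b) (θ : A ≃+ A) (z : E)
    (hθ : ∀ a, ι (θ a) = z * ι a * z⁻¹) (hsurj : ∀ a, ∃ c, c - θ c = a)
    (x : Fin (n + 1) → E) (hx : ∀ i, ∃ a, x i = ι a * z) :
    rho (Quandle.Conj E) n b x = x := by
  have : Finite A := Finite.of_injective ι hinj
  have hdvd : Nat.card E ∣ (Nat.card E).factorial := Nat.dvd_factorial Nat.card_pos le_rfl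
  have hpow : ∀ g : E, g ^ (Nat.card E).factorial = 1 := by
    intro g
    obtain ⟨m, hm⟩ := hdvd
    rw [hm, pow_mul, pow_card_eq_one', one_pow]
  let θ' : AddMonoid.End A := θ.toAddMonoidHom
  have hθ' : ∀ a, θ' a = θ a := fun _ => rfl
  have h1 : ∀ a : A, (Nat.card E).factorial • a = 0 := by
    intro a
    apply hinj
    rw [aff_nsmul hadd, hpow, aff_zero hadd]
  have h2 : θ' ^ (Nat.card E).factorial = 1 := by
    have key : ∀ (k : ℕ) (a : A), ι ((θ' ^ k) a) = z ^ k * ι a * (z ^ k)⁻¹ := by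
      intro k
      induction k with
      | zero => intro a; simp
      | succ k ih =>
        intro a
        rw [pow_succ']
        change ι (θ ((θ' ^ k) a)) = _
        rw [hθ, ih, pow_succ']
        group
    ext a
    apply hinj
    rw [key, hpow]
    simp
  have h3 : (1 - θ') ^ (Nat.card E).factorial = 1 := by
    have hs : Function.Surjective (fun c : A => c - θ c) := hsurj
    let σ : Equiv.Perm A := Equiv.ofBijective _ (Finite.surjective_iff_bijective.1 hs)
    have key : ∀ (k : ℕ) (a : A), ((1 - θ') ^ k) a = (σ ^ k) a := by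
      intro k
      induction k with
      | zero => intro a; simp
      | succ k ih =>
        intro a
        rw [pow_succ', pow_succ', Equiv.Perm.mul_apply, ← ih]
        rfl
    have hσ : σ ^ (Nat.card E).factorial = 1 := by
      have hc : Nat.card (Equiv.Perm A) ∣ (Nat.card E).factorial := by
        rw [Nat.card_perm]
        exact Nat.factorial_dvd_factorial (Nat.card_le_card_of_injective ι hinj)
      obtain ⟨m, hm⟩ := hc
      rw [hm, pow_mul, pow_card_eq_one', one_pow]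
    ext a
    rw [key, hσ]
    simp
  obtain ⟨f, hf⟩ := hU A θ' h1 h2 h3
  have hr := hKMOD R t A θ f (fun a => by rw [hf, hθ']) n b hb
  have hψ : IsHom (Q := Aff θ) (R := Quandle.Conj E) (fun a => ι a * z) := by
    intro a c
    have e : ∀ a c : A, ι (a + θ (c - a)) * z = ι a * z * (ι c * z) * (ι a * z)⁻¹ := by
      intro a c
      rw [hadd, hθ, aff_sub hadd]
      group
    exact e a c
  choose y hy using hx
  have hxy : x = (fun a : Aff θ => ι a * z) ∘ y := funext hy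
  have hm := rho_map hψ b y
  rw [hr] at hm
  rw [hxy]
  exact hm

theorem aff_surj {E A : Type} [Group E] [AddCommGroup A] {ι : A → E}
    (hinj : Function.Injective ι) (hadd : ∀ a b, ι (a + b) = ι a * ι b) (θ : A ≃+ A) (z : E)
    (hθ : ∀ a, ι (θ a) = z * ι a * z⁻¹) (H : Subgroup E)
    (hH : ∀ h ∈ H, ∃ a, ∃ k : ℤ, h = ι a * z ^ k) (hD : ∀ a, ι a ∈ ⁅H, H⁆) (a : A) :
    ∃ c, c - θ c = a := by
  have hk : ∀ (k : ℤ) (a : A), ∃ a' c, z ^ k * ι a * (z ^ k)⁻¹ = ι a' ∧ c - θ c = a - a' := by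
    intro k a
    induction k using Int.induction_on with
    | zero => exact ⟨a, 0, by simp, by simp⟩
    | succ k ih =>
      obtain ⟨a', c, e1, e2⟩ := ih
      refine ⟨θ a', c + a', ?_, ?_⟩
      · rw [hθ, ← e1]; group
      · rw [map_add, add_sub_add_comm, e2]; abel
    | pred k ih =>
      obtain ⟨a', c, e1, e2⟩ := ih
      refine ⟨θ.symm a', c - θ.symm a', ?_, ?_⟩
      · have e3 := hθ (θ.symm a')
        rw [AddEquiv.apply_symm_apply, ← e1] at e3
        have e4 : ι (θ.symm a') = z⁻¹ * (z ^ (-(k : ℤ)) * ι a * (z ^ (-(k : ℤ)))⁻¹) * z := by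
          rw [e3]; group
        rw [e4]; group
      · rw [map_sub, AddEquiv.apply_symm_apply, sub_sub_sub_comm, e2]; abel
  let N : Subgroup E :=
    { carrier := {g | ∃ c, ι (c - θ c) = g}
      mul_mem' := by
        rintro _ _ ⟨c, rfl⟩ ⟨d, rfl⟩
        refine ⟨c + d, ?_⟩
        rw [← hadd, map_add, add_sub_add_comm]
      one_mem' := ⟨0, by rw [map_zero, sub_self, aff_zero hadd]⟩
      inv_mem' := by
        rintro _ ⟨c, rfl⟩
        refine ⟨-c, ?_⟩
        rw [eq_inv_iff_mul_eq_one, ← hadd, map_neg, ← aff_zero hadd]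
        congr 1
        abel }
  have hle : ⁅H, H⁆ ≤ N := by
    refine Subgroup.commutator_le.2 fun g hg h hh => ?_
    obtain ⟨d, k, rfl⟩ := hH g hg
    obtain ⟨d', l, rfl⟩ := hH h hh
    obtain ⟨p, c, e1, e2⟩ := hk k d'
    obtain ⟨q, c', e3, e4⟩ := hk l d
    refine ⟨c' - c, ?_⟩
    have e5 : c' - c - θ (c' - c) = d + p - q - d' := by
      rw [map_sub, sub_sub_sub_comm, e2, e4]; abel
    rw [e5, aff_sub hadd, aff_sub hadd, hadd, ← e1, ← e3, commutatorElement_def]
    group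
  obtain ⟨c, hc⟩ := hle (hD a)
  exact ⟨c, hinj hc⟩

theorem aff_norm {ι E : Type} [Group E] (x : ι → E) {h d : E} (hh : h ∈ Hx x) (hd : d ∈ Dx x) :
    h * d * h⁻¹ ∈ Dx x := by
  rw [Dx_eq_map] at hd ⊢
  obtain ⟨φ, rfl⟩ := mem_Hx.1 hh
  obtain ⟨ψ, hψ, rfl⟩ := hd
  refine ⟨φ * ψ * φ⁻¹, (Subgroup.commutator_normal ⊤ ⊤).conj_mem ψ hψ φ, ?_⟩
  simp only [map_mul, map_inv]

theorem p_AFF (hHD : S_HD) (hKMOD : S_KMOD) :
    S_AFF := by
  intro E _ _ R _ t hU n b hb x hO
  have hG : GConn x := hO.1.1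
  have hab : ∀ a ∈ Dx x, ∀ c ∈ Dx x, a * c = c * a := by
    intro a ha c hc
    have h1 := Subgroup.commutator_mem_commutator ha hc
    rw [hO.2, Subgroup.mem_bot] at h1
    exact commutatorElement_eq_one_iff_mul_comm.1 h1
  let _ : CommGroup (Dx x) :=
    { (inferInstance : Group (Dx x)) with
      mul_comm := fun a c => Subtype.ext (hab _ a.2 _ c.2) }
  have hz : x 0 ∈ Hx x := self_mem_Hx x 0
  let ι : Additive (Dx x) → E := fun a => (Additive.toMul a : Dx x)
  have hinj : Function.Injective ι := fun a c h => Additive.toMul.injective (Subtype.ext h)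
  have hadd : ∀ a c, ι (a + c) = ι a * ι c := fun _ _ => rfl
  let θ : Additive (Dx x) ≃+ Additive (Dx x) :=
    { toFun := fun a => Additive.ofMul ⟨x 0 * ι a * (x 0)⁻¹, aff_norm x hz (Additive.toMul a).2⟩
      invFun := fun a => Additive.ofMul ⟨(x 0)⁻¹ * ι a * (x 0)⁻¹⁻¹,
        aff_norm x (inv_mem hz) (Additive.toMul a).2⟩
      left_inv := fun a => hinj (by
        change (x 0)⁻¹ * (x 0 * ι a * (x 0)⁻¹) * (x 0)⁻¹⁻¹ = ι a
        group)
      right_inv := fun a => hinj (by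
        change x 0 * ((x 0)⁻¹ * ι a * (x 0)⁻¹⁻¹) * (x 0)⁻¹ = ι a
        group)
      map_add' := fun a c => hinj (by
        change x 0 * (ι a * ι c) * (x 0)⁻¹ = x 0 * ι a * (x 0)⁻¹ * (x 0 * ι c * (x 0)⁻¹)
        group) }
  have hθ : ∀ a, ι (θ a) = x 0 * ι a * (x 0)⁻¹ := fun _ => rfl
  refine aff_core hKMOD E R t hU n b hb (Additive (Dx x)) ι hinj hadd θ (x 0) hθ ?_ x ?_
  · refine aff_surj hinj hadd θ (x 0) hθ (Hx x) ?_ fun a => (Additive.toMul a).2
    intro h hh
    obtain ⟨d, hd, k, e⟩ := (hHD _ E x hG 0 h hh).1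
    exact ⟨Additive.ofMul ⟨d, hd⟩, k, e⟩
  · intro i
    obtain ⟨h, hh, e⟩ := hG 0 i
    obtain ⟨d, hd, e'⟩ := (hHD _ E x hG 0 h hh).2 1 (one_mem _)
    refine ⟨Additive.ofMul ⟨d, hd⟩ - θ (Additive.ofMul ⟨d, hd⟩), ?_⟩
    rw [aff_sub hadd, hθ, ← e, e']
    change _ = d * (x 0 * d * (x 0)⁻¹)⁻¹ * x 0
    group

end Pool.Agent.P.MP_cc10d1_gt.T
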