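import Pool.Agent.P.MP_cc10d1_gt.T.Iface

/-! Step BIN. -/

set_option autoImplicit false

namespace Pool.Agent.P.MP_cc10d1_gt.T

open Quandles

theorem p_BIN (hBRIDGE : S_BRIDGE) (hCP : S_CP) (hPROD : S_PROD) :
    S_BIN := by
  intro Z A _ _ _ _ hP
  obtain ⟨m, hm⟩ := hCP (Z × A)
  refine ⟨m, fun n hn x y w w' h1 h2 hxy hww => ?_⟩
  have hZ : Cn Z := by
    refine TFull.cn (x := x) fun a b => ?_
    obtain ⟨φ, hφ⟩ := h1 (a, w 0) (b, w 0)
    rw [hol_prod] at hφ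
    exact ⟨φ, congrArg Prod.fst hφ⟩
  have hA : Cn A := by
    refine TFull.cn (x := w) fun a b => ?_
    obtain ⟨φ, hφ⟩ := h1 (x 0, a) (x 0, b)
    rw [hol_prod] at hφ
    exact ⟨φ, congrArg Prod.snd hφ⟩
  have h3 : Eqv (List.ofFn fun i => (x i, w i)) (List.ofFn fun i => (y i, w' i)) := by
    refine hm _ _ ((tFull_iff _).1 h1) ((tFull_iff _).1 h2) (by simp only [List.length_ofFn]; omega)
      (by simp only [List.length_ofFn]) fun G _ e he => hPROD Z A G e hZ hA hP he _ _ ?_ ?_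
    · rw [List.map_ofFn, List.map_ofFn]
      exact (hBRIDGE Z n x y).1 hxy
    · rw [List.map_ofFn, List.map_ofFn]
      exact (hBRIDGE A n w w').1 hww
  obtain ⟨b, hb⟩ := (hBRIDGE (Z × A) n _ _).2 h3
  rw [rho_prod] at hb
  exact ⟨b, funext fun i => congrArg Prod.fst (congrFun hb i),
    funext fun i => congrArg Prod.snd (congrFun hb i)⟩

end Pool.Agent.P.MP_cc10d1_gt.T
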