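import Pool.Agent.P.MP_cc10d1_gt.T.Iface

/-! Step BINA. -/

set_option autoImplicit false

namespace Pool.Agent.P.MP_cc10d1_gt.T

open Quandles
open scoped commutatorElement

theorem bina_full (hKER : S_KER) {Q : Type} [Quandle Q] {n : ℕ} (b : Br n) {v : Fin (n + 1) → Q}
    (h : TFull v) : TFull (rho Q n b v) := by
  intro a c
  obtain ⟨φ, rfl⟩ := h a c
  have h1 : Hx (sy ∘ rho Q n b v) = Hx (sy ∘ v) := by
    rw [← rho_map (cHom_iff.1 cHom_sy)]
    exact (hKER (Equiv.Perm Q) n b (sy ∘ v)).1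
  obtain ⟨ψ, e⟩ := mem_Hx.1 (h1.ge (mem_Hx.2 ⟨φ, rfl⟩))
  exact ⟨ψ, congrArg (fun g : Equiv.Perm Q => g a) e⟩

theorem bina_zip (hHD : S_HD) {ι E Z A B : Type} [Group E] [Quandle Z] [Quandle A] [Quandle B]
    (i : ι) {f : Z → E} (hf : CHom f) (hfi : Function.Injective f) {g : B → A} (hg : IsHom g)
    (hgi : Function.Injective g) {z : ι → Z} {v : ι → B} (hz : TFull z) (hv : TFull v)
    (hc : GConn (f ∘ z))
    (h : ∀ d ∈ Dx (f ∘ z), ∃ φ, FreeGroup.lift (f ∘ z) φ = d ∧ hol (g ∘ v) φ = 1) :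
    TFull fun i => (z i, v i) := by
  intro a b
  obtain ⟨φ, e⟩ := hv a.2 b.2
  obtain ⟨φ1, e1⟩ := hz (z i) (hol z φ a.1)
  obtain ⟨φ2, e2⟩ := hz (z i) b.1
  obtain ⟨d, hd, e3⟩ := (hHD ι E _ hc i _ (mem_Hx.2 ⟨φ2, rfl⟩)).2 _ (mem_Hx.2 ⟨φ1, rfl⟩)
  obtain ⟨ψ, rfl, e4⟩ := h d hd
  rw [Function.comp_apply, hf.lift, hf.lift, hf.lift, e1, e2] at e3
  refine ⟨ψ * φ, ?_⟩
  rw [hol_prod, map_mul, map_mul, Equiv.Perm.mul_apply, Equiv.Perm.mul_apply, ← hfi e3, e]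
  refine Prod.ext rfl (hgi ?_)
  rw [← hol_map hg, e4]
  rfl

theorem bina_dis {ι E Z : Type} [Group E] [Quandle Z] (i : ι) {f : Z → E} (hf : CHom f)
    {z : ι → Z} (hz : TFull z) : dis f = Dx (f ∘ z) := by
  refine le_antisymm ((Subgroup.closure_le _).2 ?_) (Subgroup.commutator_le.2 ?_)
  · rintro _ ⟨a, b, rfl⟩
    obtain ⟨φ, rfl⟩ := hz (z i) a
    obtain ⟨ψ, rfl⟩ := hz (z i) b
    have key : ∀ φ, ⁅FreeGroup.lift (f ∘ z) φ, f (z i)⁆ ∈ Dx (f ∘ z) := fun φ =>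
      Subgroup.commutator_mem_commutator (mem_Hx.2 ⟨φ, rfl⟩) (self_mem_Hx _ i)
    have := mul_mem (key φ) (inv_mem (key ψ))
    rw [commutatorElement_def, commutatorElement_def, hf.lift, hf.lift] at this
    simpa using this
  · intro h hh g hg
    induction hg using Subgroup.closure_induction generalizing h with
    | mem g hg =>
      obtain ⟨j, rfl⟩ := hg
      obtain ⟨φ, rfl⟩ := mem_Hx.1 hh
      rw [commutatorElement_def, Function.comp_apply, hf.lift]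
      exact Subgroup.subset_closure ⟨_, _, rfl⟩
    | one => rw [commutatorElement_one_right]; exact one_mem _
    | mul g g' h1 _ i1 i2 =>
      rw [show ⁅h, g * g'⁆ = ⁅h, g⁆ * (⁅g * h, g'⁆ * ⁅g, g'⁆⁻¹) by
        simp only [commutatorElement_def]; group]
      exact mul_mem (i1 h hh) (mul_mem (i2 _ (mul_mem h1 hh)) (inv_mem (i2 _ h1)))
    | inv g h1 i1 =>
      rw [show ⁅h, g⁻¹⁆ = ⁅g⁻¹ * h, g⁆⁻¹ by simp only [commutatorElement_def]; group]
      exact inv_mem (i1 _ (mul_mem (inv_mem h1) hh))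

theorem p_BINA (hSUB : S_SUB) (hBIN : S_BIN) (hPERF : S_PERF) (hHD : S_HD) (hKER : S_KER) :
    S_BINA := by
  intro E A _ _ _ _
  have key : ∀ O : {O : Set (Quandle.Conj E) // Cl O} × {O : Set A // Cl O}, ∃ n0 : ℕ,
      Perf (SubQ O.1) → ∀ n, n0 ≤ n → ∀ (x y : Fin (n + 1) → SubQ O.1)
        (w w' : Fin (n + 1) → SubQ O.2), TFull (fun i => (x i, w i)) →
        TFull (fun i => (y i, w' i)) → Orb x y → Orb w w' →
        ∃ b, rho _ n b x = y ∧ rho _ n b w = w' := by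
    intro O
    by_cases h : Perf (SubQ O.1)
    · exact (hBIN _ _ h).imp fun _ h' _ => h'
    · exact ⟨0, fun h' => absurd h' h⟩
  choose N hN using key
  obtain ⟨n0, hn0⟩ := Finite.exists_le N
  refine ⟨n0, ?_⟩
  rintro n hn x _ w _ hx hw ⟨b, rfl⟩ ⟨b', rfl⟩ h1 h2
  obtain ⟨O1, z, hz, fz, -⟩ := hSUB (Quandle.Conj E) n x ((gConn_iff x).1 hx.1.1)
  obtain ⟨O2, v, hv, fv, -⟩ := hSUB A n w hw
  obtain rfl : (fun a : SubQ O1 => a.1) ∘ z = x := funext hz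
  obtain rfl : (fun a : SubQ O2 => a.1) ∘ v = w := funext hv
  have hf : CHom (N := E) fun a : SubQ O1 => a.1 := cHom_iff.2 (isHom_val O1)
  have hy := (hKER E n b _).2.1 hx
  have e1 := rho_map (isHom_val O1) b z
  have e2 := rho_map (isHom_val O2) b' v
  erw [e1] at hy
  erw [e1, e2] at h2
  obtain ⟨c, c1, c2⟩ := hN (O1, O2)
    (hPERF _ E _ fz.cn hf Subtype.val_injective (by rw [bina_dis 0 hf fz]; exact hx.2)) n
    ((hn0 _).trans hn) z (rho _ n b z) v (rho _ n b' v)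
    (bina_zip hHD 0 hf Subtype.val_injective (isHom_val O2) Subtype.val_injective fz fv hx.1.1 h1)
    (bina_zip hHD 0 hf Subtype.val_injective (isHom_val O2) Subtype.val_injective
      (bina_full hKER b fz) (bina_full hKER b' fv) hy.1.1 h2) ⟨b, rfl⟩ ⟨b', rfl⟩
  exact ⟨c, ((rho_map (isHom_val O1) c z).trans (congrArg _ c1)).trans e1.symm,
    ((rho_map (isHom_val O2) c v).trans (congrArg _ c2)).trans e2.symm⟩

end Pool.Agent.P.MP_cc10d1_gt.T
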