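import Pool.Agent.P.MP_cc10d1_gt.T.Iface

/-! Step BLK. -/

set_option autoImplicit false

namespace Pool.Agent.P.MP_cc10d1_gt.T

open Quandles

theorem blk_a {Q : Type} [Quandle Q] (W : List Q) (x : Q) :
    Eqv (x :: W) (W ++ [pr sy W x]) := by
  induction W generalizing x with
  | nil => exact Eqv.refl _
  | cons a W ih =>
    refine (Eqv.swap x a W).trans ?_
    have h : pr sy (a :: W) x = pr sy W (a ◃ x) := by
      rw [pr_cons, Equiv.Perm.mul_apply, sy_apply]
    rw [h]
    exact (ih (a ◃ x)).cons a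

theorem blk_b {Q : Type} [Quandle Q] (W : List Q) (x : Q) :
    Eqv (W ++ [x]) (x :: W.map (sy x)) := by
  induction W with
  | nil => exact Eqv.refl _
  | cons a W ih => exact (ih.cons a).trans (Eqv.swap a x _)

theorem blk_one {Q : Type} [Quandle Q] {W : List Q} (hW : pr sy W = 1) (l : List Q) :
    Eqv (l ++ W) (W ++ l) := by
  induction l with
  | nil => exact Eqv.of_eq (by simp)
  | cons x l ih =>
    have h := (blk_a W x).right l
    rw [hW] at h
    refine (ih.cons x).trans (h.trans (Eqv.of_eq ?_))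
    simp

theorem blk_pr {Q : Type} [Quandle Q] {l : List Q} {g : Equiv.Perm Q} (hg : g ∈ gp l)
    (W : List Q) : pr sy (W.map g) = g * pr sy W * g⁻¹ := by
  induction W with
  | nil => simp [pr_nil]
  | cons a W ih =>
    rw [List.map_cons, pr_cons, pr_cons, ih, gp_sy hg]
    group

theorem blk_pr_one {Q : Type} [Quandle Q] {l : List Q} {g : Equiv.Perm Q} (hg : g ∈ gp l)
    {W : List Q} (hW : pr sy W = 1) : pr sy (W.map g) = 1 := by
  rw [blk_pr hg, hW, mul_one, mul_inv_cancel]

theorem blk_gen {Q : Type} [Quandle Q] {l : List Q} {y : Q} (hy : y ∈ l) {W : List Q}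
    (hW : pr sy W = 1) : Eqv (l ++ W) (l ++ W.map (sy y)) := by
  have h1 : pr sy (W.map (sy y)) = 1 := blk_pr_one (sy_mem_gp hy) hW
  obtain ⟨l1, l2, rfl⟩ := List.append_of_mem hy
  have h2 : Eqv (y :: W) (y :: W.map (sy y)) := (blk_one hW [y]).trans (blk_b W y)
  have h3 : Eqv (y :: (l2 ++ W)) (y :: (l2 ++ W.map (sy y))) :=
    ((blk_one hW l2).cons y).trans ((h2.right l2).trans ((blk_one h1 l2).symm.cons y))
  simpa only [List.append_assoc, List.cons_append] using h3.left l1

theorem blk_two {Q : Type} [Quandle Q] {l : List Q} {g : Equiv.Perm Q} (hg : g ∈ gp l) :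
    ∀ W : List Q, pr sy W = 1 → Eqv (l ++ W) (l ++ W.map g) := by
  induction hg using Subgroup.closure_induction with
  | mem g h =>
    obtain ⟨y, hy, rfl⟩ := h
    exact fun W hW => blk_gen hy hW
  | one => exact fun W _ => Eqv.of_eq (by simp)
  | mul g h _ hh h1 h2 =>
    intro W hW
    refine (h2 W hW).trans ((h1 _ (blk_pr_one hh hW)).trans (Eqv.of_eq ?_))
    rw [List.map_map, Equiv.Perm.coe_mul]
  | inv g hg h1 =>
    intro W hW
    have h := (h1 _ (blk_pr_one (inv_mem hg) hW)).symm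
    refine (Eqv.of_eq ?_).trans h
    rw [List.map_map, ← Equiv.Perm.coe_mul, mul_inv_cancel, Equiv.Perm.coe_one, List.map_id]

theorem p_BLK :
    S_BLK := by
  intro Q _ W hW l
  exact ⟨blk_one hW l, fun g hg => ⟨blk_pr_one hg hW, blk_two hg W hW⟩⟩

end Pool.Agent.P.MP_cc10d1_gt.T
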