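import Pool.Agent.P.MP_cc10d1_gt.T.Iface

/-! Step BRIDGE. -/

set_option autoImplicit false

namespace Pool.Agent.P.MP_cc10d1_gt.T

open Quandles

theorem bridge_key {Q : Type} [Quandle Q] {n : ℕ} (x : Fin (n + 1) → Q) (u w : List Q) (a b : Q)
    (h : List.ofFn x = u ++ a :: b :: w) (i : Fin n) (hi : u.length = i.1) :
    List.ofFn (cross i.castSucc i.succ true x) = u ++ b :: (b ◃ a) :: w := by
  have hl : n + 1 = u.length + (w.length + 2) := by
    have := congrArg List.length h
    simpa using this
  have hx : ∀ (k : ℕ) (hk : k < n + 1), (u ++ a :: b :: w)[k]? = some (x ⟨k, hk⟩) := by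
    intro k hk
    rw [← h, List.getElem?_ofFn, dif_pos hk]
  have hne : i.castSucc ≠ i.succ := (Fin.castSucc_lt_succ (i := i)).ne
  have ha : x i.castSucc = a := by
    have := hx i.1 (by omega)
    rw [List.getElem?_append_right (by omega), show i.1 - u.length = 0 by omega] at this
    simp only [List.getElem?_cons_zero, Option.some.injEq] at this
    rw [this]
    rfl
  have hb : x i.succ = b := by
    have := hx (i.1 + 1) (by omega)
    rw [List.getElem?_append_right (by omega), show i.1 + 1 - u.length = 1 by omega] at this
    simp only [List.getElem?_cons_succ, List.getElem?_cons_zero, Option.some.injEq] at this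
    rw [this]
    rfl
  apply List.ext_getElem?
  intro k
  by_cases hk : k < n + 1
  · rw [List.getElem?_ofFn, dif_pos hk]
    by_cases h1 : k = i.1
    · have e : (⟨k, hk⟩ : Fin (n + 1)) = i.castSucc := Fin.ext h1
      rw [e, cross_left, if_pos rfl, hb, List.getElem?_append_right (by omega),
        show k - u.length = 0 by omega]
      rfl
    · by_cases h2 : k = i.1 + 1
      · have e : (⟨k, hk⟩ : Fin (n + 1)) = i.succ := Fin.ext h2
        rw [e, cross_right hne, if_pos rfl, hb, ha, List.getElem?_append_right (by omega),
          show k - u.length = 1 by omega]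
        rfl
      · rw [cross_ne (fun e => h1 (congrArg Fin.val e)) (fun e => h2 (congrArg Fin.val e)),
          ← hx k hk]
        by_cases h3 : k < u.length
        · rw [List.getElem?_append_left h3, List.getElem?_append_left h3]
        · rw [List.getElem?_append_right (by omega), List.getElem?_append_right (by omega)]
          obtain ⟨m, hm⟩ : ∃ m, k - u.length = m + 2 := ⟨k - u.length - 2, by omega⟩
          rw [hm]
          rfl
  · rw [List.getElem?_eq_none (by simp; omega), List.getElem?_eq_none (by simp; omega)]

theorem bridge_step {Q : Type} [Quandle Q] {n : ℕ} (x : Fin (n + 1) → Q) (i : Fin n) :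
    Eqv (List.ofFn x) (List.ofFn (cross i.castSucc i.succ true x)) := by
  have hlen : (List.ofFn x).length = n + 1 := List.length_ofFn
  have h1 : i.1 < (List.ofFn x).length := by omega
  have h2 : i.1 + 1 < (List.ofFn x).length := by omega
  have h : List.ofFn x = (List.ofFn x).take i.1 ++
      (List.ofFn x)[i.1] :: (List.ofFn x)[i.1 + 1] :: (List.ofFn x).drop (i.1 + 1 + 1) := by
    rw [← List.drop_eq_getElem_cons h2, ← List.drop_eq_getElem_cons h1, List.take_append_drop]
  rw [bridge_key x _ _ _ _ h i (by rw [List.length_take]; omega)]
  exact (Eqv.of_eq h).trans (Eqv.mv _ _ _ _)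

theorem p_BRIDGE :
    S_BRIDGE := by
  intro Q _ n x y
  constructor
  · rintro ⟨b, rfl⟩
    induction b using Br.ind with
    | h1 => rw [rho_one]; exact Eqv.refl _
    | hs i b ih =>
      refine ih.trans ?_
      rw [rho_mul, rho_sg]
      have := bridge_step (cross i.castSucc i.succ false (rho Q n b x)) i
      have e := cross_cancel (Fin.castSucc_lt_succ (i := i)).ne false (rho Q n b x)
      rw [Bool.not_false] at e
      rw [e] at this
      exact this.symm
    | hi i b ih =>
      refine ih.trans ?_
      rw [rho_mul, rho_sg_inv]
      exact bridge_step _ i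
  · intro h
    have key := Eqv.ind (φ := fun l l' : List Q => l.length = l'.length ∧
      ∀ x y : Fin (n + 1) → Q, l = List.ofFn x → l' = List.ofFn y → Orb x y) ?_ ?_ ?_ ?_ h
    · exact key.2 x y rfl rfl
    · intro u w a b
      refine ⟨by simp, fun x y hx hy => ?_⟩
      have hl : u.length + (w.length + 2) = n + 1 := by
        have := congrArg List.length hx
        simpa using this
      have := bridge_key x u w a b hx.symm ⟨u.length, by omega⟩ rfl
      rw [hy] at this
      exact ⟨(sg ⟨u.length, by omega⟩)⁻¹, by rw [rho_sg_inv]; exact List.ofFn_injective this⟩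
    · intro l
      refine ⟨rfl, fun x y hx hy => ?_⟩
      rw [List.ofFn_injective (hx.symm.trans hy)]
      exact Orb.refl _
    · exact fun l l' h => ⟨h.1.symm, fun x y hx hy => (h.2 y x hy hx).symm⟩
    · intro a b c h1 h2
      refine ⟨h1.1.trans h2.1, fun x y hx hy => ?_⟩
      have hl : b.length = n + 1 := by rw [← h1.1, hx, List.length_ofFn]
      have hb : b = List.ofFn fun i : Fin (n + 1) => b[i.1]'(by omega) := by
        apply List.ext_getElem (by simp [hl])
        intro k _ _
        simp only [List.getElem_ofFn]
      exact (h1.2 x _ hx hb).trans (h2.2 _ y hb hy)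

end Pool.Agent.P.MP_cc10d1_gt.T
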