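import Pool.Agent.P.MP_cc10d1_gt.T.Iface

/-! Step CLS. -/

set_option autoImplicit false

namespace Pool.Agent.P.MP_cc10d1_gt.T

open Quandles

theorem cls_eq {ι E : Type} [Group E] {x y : ι → E} (h : kr y = kr x) {i j : ι}
    (e : x i = x j) : y i = y j := by
  have h1 : FreeGroup.of i * (FreeGroup.of j)⁻¹ ∈ kr x := by
    simp [kr, MonoidHom.mem_ker, e]
  rw [← h] at h1
  simpa [kr, MonoidHom.mem_ker, mul_inv_eq_one] using h1

theorem cls_fac {ι E : Type} [Group E] {x y : ι → E} (h : kr y = kr x) :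
    ∃ g : E → E, y = g ∘ x := by
  classical
  refine ⟨fun a => if ha : ∃ i, x i = a then y ha.choose else 1, funext fun i => ?_⟩
  have hi : ∃ j, x j = x i := ⟨i, rfl⟩
  simp only [Function.comp_apply, dif_pos hi]
  exact (cls_eq h hi.choose_spec).symm

theorem p_CLS :
    S_CLS := by
  intro E _ _
  refine ⟨Nat.card (E → E), fun ι _ x => ?_⟩
  choose g hg using fun y : {y : ι → E // kr y = kr x} => cls_fac y.2
  refine Nat.card_le_card_of_injective g fun y z e => Subtype.ext ?_
  rw [hg y, hg z, e]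

end Pool.Agent.P.MP_cc10d1_gt.T
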