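import Pool.Agent.P.MP_cc10d1_gt.T.Iface

/-! Step COMM. -/

set_option autoImplicit false

namespace Pool.Agent.P.MP_cc10d1_gt.T

open Quandles

namespace COMMaux

variable {Z A G : Type} [Quandle Z] [Quandle A] [Group G] {e : Z × A → G}

/-- `g` moves the first coordinate by `α`. -/
def Mv (e : Z × A → G) (g : G) (α : Equiv.Perm Z) : Prop :=
  ∀ c d, g * e (c, d) * g⁻¹ = e (α c, d)

theorem mv_gen (he : CHom e) (a a' : Z) (b0 : A) :
    Mv e (e (a, b0) * (e (a', b0))⁻¹) (sy a * (sy a')⁻¹) := by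
  intro c d
  have h1 := he.inv (a', b0) (c, d)
  have h2 := he.conj (a, b0) ((a', b0) ◃⁻¹ (c, d))
  have h3 : (a, b0) ◃ ((a', b0) ◃⁻¹ (c, d)) = ((sy a * (sy a')⁻¹) c, d) :=
    Prod.ext rfl (Rack.act_invAct_eq b0 d)
  rw [← h3, h2, h1]
  group

omit [Quandle Z] [Quandle A] in
theorem mv_one : Mv e 1 1 := fun c d => by simp

omit [Quandle Z] [Quandle A] in
theorem Mv.mul {g h : G} {α β : Equiv.Perm Z} (hg : Mv e g α) (hh : Mv e h β) :
    Mv e (g * h) (α * β) := fun c d => by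
  rw [Equiv.Perm.mul_apply, ← hg, ← hh]
  group

omit [Quandle Z] [Quandle A] in
theorem Mv.inv {g : G} {α : Equiv.Perm Z} (hg : Mv e g α) : Mv e g⁻¹ α⁻¹ := fun c d => by
  have := hg (α⁻¹ c) d
  rw [show α (α⁻¹ c) = c from α.apply_symm_apply c] at this
  rw [← this]
  group

theorem mv_dis (he : CHom e) (b0 : A) {g : G} (hg : g ∈ dis fun a => e (a, b0)) :
    ∃ α, Mv e g α := by
  induction hg using Subgroup.closure_induction with
  | mem g h => obtain ⟨a, a', rfl⟩ := h; exact ⟨_, mv_gen he a a' b0⟩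
  | one => exact ⟨1, mv_one⟩
  | mul g h _ _ h1 h2 =>
    obtain ⟨α, h1⟩ := h1
    obtain ⟨β, h2⟩ := h2
    exact ⟨_, h1.mul h2⟩
  | inv g _ h1 => obtain ⟨α, h1⟩ := h1; exact ⟨_, h1.inv⟩

theorem mv_hol (he : CHom e) (b0 : A) {φ : FreeGroup Z} (hφ : φ ∈ dis (FreeGroup.of : Z → _)) :
    ∃ g ∈ dis fun a => e (a, b0), Mv e g (hol id φ) := by
  induction hφ using Subgroup.closure_induction with
  | mem g h =>
    obtain ⟨a, a', rfl⟩ := h
    refine ⟨_, Subgroup.subset_closure ⟨a, a', rfl⟩, ?_⟩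
    rw [map_mul, map_inv, hol_of, hol_of]
    exact mv_gen he a a' b0
  | one => exact ⟨1, one_mem _, by rw [map_one]; exact mv_one⟩
  | mul g h _ _ h1 h2 =>
    obtain ⟨g1, m1, h1⟩ := h1
    obtain ⟨g2, m2, h2⟩ := h2
    exact ⟨_, mul_mem m1 m2, by rw [map_mul]; exact h1.mul h2⟩
  | inv g _ h1 =>
    obtain ⟨g1, m1, h1⟩ := h1
    exact ⟨_, inv_mem m1, by rw [map_inv]; exact h1.inv⟩

theorem dis_comm {Q : Type} {f : Q → G} {k : G} (hk : ∀ a, Commute k (f a)) {g : G}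
    (hg : g ∈ dis f) : Commute k g := by
  induction hg using Subgroup.closure_induction with
  | mem g h => obtain ⟨a, a', rfl⟩ := h; exact (hk a).mul_right (hk a').inv_right
  | one => exact Commute.one_right k
  | mul g h _ _ h1 h2 => exact h1.mul_right h2
  | inv g _ h1 => exact h1.inv_right

theorem comm_central (he : CHom e) (a0 : Z) (b0 : A) {g h : G} (hg : g ∈ dis fun a => e (a, b0))
    (hh : h ∈ dis fun b => e (a0, b)) (q : Z × A) : Commute (h * g * h⁻¹ * g⁻¹) (e q) := by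
  obtain ⟨α, hα⟩ := mv_dis he b0 hg
  obtain ⟨β, hβ⟩ := mv_dis (e := fun q : A × Z => e (q.2, q.1))
    (fun x y => he (x.2, x.1) (y.2, y.1)) a0 hh
  obtain ⟨c, d⟩ := q
  have h1 := hα.inv c d
  have h2 := hβ.inv d (α⁻¹ c)
  have h3 := hα (α⁻¹ c) (β⁻¹ d)
  have h4 := hβ (β⁻¹ d) c
  rw [show α (α⁻¹ c) = c from α.apply_symm_apply c] at h3
  rw [show β (β⁻¹ d) = d from β.apply_symm_apply d] at h4
  simp only at h1 h2 h3 h4
  rw [← h3, ← h2, ← h1] at h4
  rw [commute_iff_eq]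
  conv_rhs => rw [← h4]
  group

end COMMaux

open COMMaux in
theorem p_COMM (hDZ : S_DZ) :
    S_COMM := by
  intro Z A G _ _ _ e hZ _ hP he a0 b0
  have key : ∀ g ∈ dis (fun a => e (a, b0)), ∀ h ∈ dis (fun b => e (a0, b)), g * h = h * g := by
    intro g hg h hh
    have h1 : CHom (fun a : Z => e (a, b0)) := fun x y => by
      have := he (x, b0) (y, b0)
      have e1 : ((x, b0) ◃ (y, b0) : Z × A) = (x ◃ y, b0) := Prod.ext rfl Quandle.fix
      rwa [e1] at this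
    rw [← hP G _ h1] at hg
    have h2 : ⁅dis (fun a => e (a, b0)), dis (fun a => e (a, b0))⁆ ≤
        Subgroup.centralizer {h} := by
      refine Subgroup.commutator_le.2 fun g1 m1 g2 m2 => ?_
      have c : ∀ g ∈ dis (fun a => e (a, b0)), ∀ g' ∈ dis (fun a => e (a, b0)),
          Commute (h * g * h⁻¹ * g⁻¹) g' := fun g hg g' hg' =>
        dis_comm (fun a => comm_central he a0 b0 hg hh _) hg'
      have c' : ∀ g ∈ dis (fun a => e (a, b0)), Commute (h * g * h⁻¹ * g⁻¹) h := fun g hg =>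
        dis_comm (fun a => comm_central he a0 b0 hg hh _) hh
      rw [Subgroup.mem_centralizer_singleton_iff, commutatorElement_def]
      set k1 := h * g1 * h⁻¹ * g1⁻¹ with hk1
      set k2 := h * g2 * h⁻¹ * g2⁻¹ with hk2
      have c12 : Commute k1 k2 :=
        (((c' g1 m1).mul_right (c g1 m1 g2 m2)).mul_right (c' g1 m1).inv_right).mul_right
          (c g1 m1 g2 m2).inv_right
      have e1 : h * (g1 * g2 * g1⁻¹ * g2⁻¹) * h⁻¹ =
          (k1 * g1) * (k2 * g2) * (k1 * g1)⁻¹ * (k2 * g2)⁻¹ := by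
        rw [hk1, hk2]; group
      have e2 : (k1 * g1) * (k2 * g2) * (k1 * g1)⁻¹ = g1 * (k2 * g2) * g1⁻¹ := by
        have : k1 * _ = _ * k1 :=
          (((c g1 m1 g1 m1).mul_right (c12.mul_right (c g1 m1 g2 m2))).mul_right
            (c g1 m1 g1 m1).inv_right).eq
        calc (k1 * g1) * (k2 * g2) * (k1 * g1)⁻¹ = k1 * (g1 * (k2 * g2) * g1⁻¹) * k1⁻¹ := by group
          _ = _ := by rw [this]; group
      have e3 : g1 * (k2 * g2) * g1⁻¹ * (k2 * g2)⁻¹ = g1 * g2 * g1⁻¹ * g2⁻¹ := by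
        have : k2 * _ = _ * k2 :=
          (((c g2 m2 g2 m2).mul_right (c g2 m2 g1 m1).inv_right).mul_right
            (c g2 m2 g2 m2).inv_right).eq
        calc g1 * (k2 * g2) * g1⁻¹ * (k2 * g2)⁻¹ = g1 * (k2 * (g2 * g1⁻¹ * g2⁻¹)) * k2⁻¹ := by group
          _ = _ := by rw [this]; group
      rw [e2, e3] at e1
      conv_lhs => rw [← e1]
      group
    exact Subgroup.mem_centralizer_singleton_iff.1 (h2 hg)
  refine ⟨key, fun a b => ?_⟩
  obtain ⟨φ, hφ, hφa⟩ := hDZ Z hZ a0 a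
  obtain ⟨g, hg, hm⟩ := mv_hol he b0 hφ
  have h1 := hm a0 b
  have h2 := hm a0 b0
  rw [hφa] at h1 h2
  have h3 : (e (a0, b0))⁻¹ * e (a0, b) ∈ dis fun b => e (a0, b) := by
    have h4 := he.inv (a0, b0) (a0, b)
    have e1 : ((a0, b0) ◃⁻¹ (a0, b) : Z × A) = (a0, b0 ◃⁻¹ b) := Prod.ext Quandle.fix_inv rfl
    rw [e1] at h4
    refine Subgroup.subset_closure ⟨b0 ◃⁻¹ b, b0, ?_⟩
    simp only [h4]
    group
  have h5 := key _ (inv_mem hg) _ h3
  rw [← h1, ← h2]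
  calc g * e (a0, b) * g⁻¹ = g * e (a0, b0) * ((e (a0, b0))⁻¹ * e (a0, b) * g⁻¹) := by group
    _ = _ := by rw [← h5]; group

end Pool.Agent.P.MP_cc10d1_gt.T
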