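import Pool.Agent.P.MP_cc10d1_gt.T.Iface

/-! Step COX. -/

set_option autoImplicit false

namespace Pool.Agent.P.MP_cc10d1_gt.T

open Quandles

namespace COXaux

variable {G : Type*} [Group G]

/-- The product `s j * s (j + 1) * ⋯` of `k` factors. -/
def dd (s : ℕ → G) : ℕ → ℕ → G
  | _, 0 => 1
  | j, k + 1 => s j * dd s (j + 1) k

structure Cox (s : ℕ → G) (N : ℕ) : Prop where
  sq : ∀ i, i < N → s i * s i = 1
  far : ∀ i j, i + 1 < j → j < N → s i * s j = s j * s i
  br : ∀ i, i + 1 < N → s i * s (i + 1) * s i = s (i + 1) * s i * s (i + 1)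

variable {s : ℕ → G} {N : ℕ}

theorem Cox.low (h : Cox s N) (i k : ℕ) : ∀ j, i + 1 < j → j + k ≤ N →
    s i * dd s j k = dd s j k * s i := by
  induction k with
  | zero => intro j _ _; simp [dd]
  | succ k ih =>
    intro j hj hk
    rw [dd, ← mul_assoc, h.far i j hj (by omega), mul_assoc, ih (j + 1) (by omega) (by omega),
      mul_assoc]

theorem Cox.high (h : Cox s N) (i k : ℕ) : ∀ j, j ≤ i → i + 1 < j + k → j + k ≤ N →
    s (i + 1) * dd s j k = dd s j k * s i := by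
  induction k with
  | zero => intro j _ _ _; omega
  | succ k ih =>
    intro j hj hi hk
    rcases hj.lt_or_eq with hj | rfl
    · rw [dd, ← mul_assoc, ← h.far j (i + 1) (by omega) (by omega), mul_assoc,
        ih (j + 1) (by omega) (by omega) (by omega), mul_assoc]
    · obtain ⟨k, rfl⟩ : ∃ k', k = k' + 1 := ⟨k - 1, by omega⟩
      rw [dd, dd, ← mul_assoc, ← mul_assoc, ← h.br j (by omega), mul_assoc,
        h.low j k (j + 1 + 1) (by omega) (by omega)]
      simp only [mul_assoc]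

def HH (s : ℕ → G) (m : ℕ) : Subgroup G := Subgroup.closure (s '' {i | i < m})

theorem mem_HH {i m : ℕ} (h : i < m) : s i ∈ HH s m := Subgroup.subset_closure ⟨i, h, rfl⟩

theorem Cox.step (h : Cox s N) {m : ℕ} (hm : m + 1 ≤ N) {i : ℕ} (hi : i < m + 1) {g : G}
    (hg : ∃ j k, j + k = m + 1 ∧ ∃ a ∈ HH s m, g = dd s j k * a) :
    ∃ j k, j + k = m + 1 ∧ ∃ a ∈ HH s m, s i * g = dd s j k * a := by
  obtain ⟨j, k, hjk, a, ha, rfl⟩ := hg
  rcases lt_trichotomy (i + 1) j with h1 | rfl | h1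
  · refine ⟨j, k, hjk, s i * a, mul_mem (mem_HH (by omega)) ha, ?_⟩
    rw [← mul_assoc, h.low i k j h1 (by omega), mul_assoc]
  · exact ⟨i, k + 1, by omega, a, ha, by rw [dd, mul_assoc]⟩
  · rcases (Nat.lt_succ_iff.1 h1).lt_or_eq with h2 | rfl
    · obtain ⟨i, rfl⟩ : ∃ i', i = i' + 1 := ⟨i - 1, by omega⟩
      refine ⟨j, k, hjk, s i * a, mul_mem (mem_HH (by omega)) ha, ?_⟩
      rw [← mul_assoc, h.high i k j (by omega) (by omega) (by omega), mul_assoc]
    · obtain ⟨k, rfl⟩ : ∃ k', k = k' + 1 := ⟨k - 1, by omega⟩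
      refine ⟨j + 1, k, by omega, a, ha, ?_⟩
      rw [dd, ← mul_assoc, ← mul_assoc, h.sq j (by omega), one_mul]

theorem Cox.form (h : Cox s N) {m : ℕ} (hm : m + 1 ≤ N) {g : G} (hg : g ∈ HH s (m + 1)) :
    ∃ j k, j + k = m + 1 ∧ ∃ a ∈ HH s m, g = dd s j k * a := by
  induction hg using Subgroup.closure_induction_left with
  | one => exact ⟨m + 1, 0, rfl, 1, one_mem _, by simp [dd]⟩
  | mul_left x hx y _ ih => obtain ⟨i, hi, rfl⟩ := hx; exact h.step hm hi ih
  | inv_mul_cancel x hx y _ ih =>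
    obtain ⟨i, hi, rfl⟩ := hx
    rw [inv_eq_of_mul_eq_one_right (h.sq i (lt_of_lt_of_le hi hm))]
    exact h.step hm hi ih

variable {φ : G →* Equiv.Perm (Fin (N + 1))}

theorem fix_HH (hφ : ∀ i : Fin N, φ (s i) = Equiv.swap i.castSucc i.succ) {m : ℕ} (hm : m ≤ N)
    {g : G} (hg : g ∈ HH s m) (x : Fin (N + 1)) (hx : m < x.1) : φ g x = x := by
  have key : ∀ i, i < m → φ (s i) x = x := by
    intro i hi
    rw [hφ ⟨i, by omega⟩]
    refine Equiv.swap_apply_of_ne_of_ne ?_ ?_ <;>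
      simp only [ne_eq, Fin.ext_iff, Fin.val_castSucc, Fin.val_succ] <;> omega
  induction hg using Subgroup.closure_induction_left with
  | one => simp
  | mul_left a ha y _ ih =>
    obtain ⟨i, hi, rfl⟩ := ha
    rw [map_mul, Equiv.Perm.mul_apply, ih, key i hi]
  | inv_mul_cancel a ha y _ ih =>
    obtain ⟨i, hi, rfl⟩ := ha
    rw [map_mul, Equiv.Perm.mul_apply, ih, map_inv, Equiv.Perm.inv_eq_iff_eq, key i hi]

theorem dd_apply (hφ : ∀ i : Fin N, φ (s i) = Equiv.swap i.castSucc i.succ) (k : ℕ) :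
    ∀ j (x : Fin (N + 1)), j + k = x.1 → (φ (dd s j k) x).1 = j := by
  induction k with
  | zero => intro j x hx; simp [dd, ← hx]
  | succ k ih =>
    intro j x hx
    have hj : j < N := by omega
    have e : φ (dd s (j + 1) k) x = (⟨j, hj⟩ : Fin N).succ :=
      Fin.ext (ih (j + 1) x (by omega))
    rw [dd, map_mul, Equiv.Perm.mul_apply, e, hφ ⟨j, hj⟩, Equiv.swap_apply_right]
    rfl

theorem Cox.inj (h : Cox s N) (hφ : ∀ i : Fin N, φ (s i) = Equiv.swap i.castSucc i.succ)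
    (m : ℕ) : m ≤ N → ∀ g ∈ HH s m, φ g = 1 → g = 1 := by
  induction m with
  | zero => intro _ g hg _; simpa [HH] using hg
  | succ m ih =>
    intro hm g hg h1
    obtain ⟨j, k, hjk, a, ha, rfl⟩ := h.form hm hg
    have e := dd_apply hφ k j ⟨m + 1, by omega⟩ hjk
    have e2 := fix_HH hφ (by omega) ha ⟨m + 1, by omega⟩ (Nat.lt_succ_self m)
    rw [← e2, ← Equiv.Perm.mul_apply, ← map_mul, h1] at e
    obtain rfl : k = 0 := by
      have : m + 1 = j := e
      omega
    rw [dd, one_mul] at h1 ⊢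
    exact ih (by omega) a ha h1

end COXaux

open COXaux in
theorem p_COX :
    S_COX := by
  intro n b hb
  let P := PN (sg : Fin n → Br n)
  let π : Br n →* Br n ⧸ P := QuotientGroup.mk' P
  let s : ℕ → Br n ⧸ P := fun i => if h : i < n then π (sg ⟨i, h⟩) else 1
  have hs : ∀ i (h : i < n), s i = π (sg ⟨i, h⟩) := fun i h => dif_pos h
  have hc : Cox s n := by
    refine ⟨fun i hi => ?_, fun i j hij hj => ?_, fun i hi => ?_⟩
    · rw [hs i hi, ← map_mul, ← pow_two]
      exact (QuotientGroup.eq_one_iff _).2 (Subgroup.subset_normalClosure ⟨_, rfl⟩)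
    · rw [hs i (by omega), hs j hj, ← map_mul, ← map_mul, sg_far hij]
    · rw [hs i (by omega), hs (i + 1) hi, ← map_mul, ← map_mul, ← map_mul, ← map_mul,
        sg_braid rfl]
  let φ : Br n ⧸ P →* Equiv.Perm (Fin (n + 1)) :=
    QuotientGroup.lift P (pm n) fun x hx => PN_le_pm hx
  have hφ : ∀ i : Fin n, φ (s i) = Equiv.swap i.castSucc i.succ := fun i => by
    rw [hs i.1 i.2]; exact pm_sg i
  have hm : π b ∈ HH s n := by
    clear hb
    induction b using Br.ind with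
    | h1 => rw [map_one]; exact one_mem _
    | hs i b ih => rw [map_mul]; exact mul_mem (hs i.1 i.2 ▸ mem_HH i.2) ih
    | hi i b ih => rw [map_mul, map_inv]; exact mul_mem (inv_mem (hs i.1 i.2 ▸ mem_HH i.2)) ih
  exact (QuotientGroup.eq_one_iff b).1 (hc.inj hφ n le_rfl _ hm hb)

end Pool.Agent.P.MP_cc10d1_gt.T
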