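import Pool.Agent.P.MP_cc10d1_gt.T.Iface

/-! Step CP. -/

set_option autoImplicit false

namespace Pool.Agent.P.MP_cc10d1_gt.T

open Quandles

namespace CPaux

variable {Q : Type} [Quandle Q]

theorem full_left (u : List Q) {l : List Q} (h : Full l) : Full (u ++ l) :=
  h.mono (gp_mono fun _ hy => List.mem_append_right _ hy)

theorem full_right {l : List Q} (h : Full l) (u : List Q) : Full (l ++ u) :=
  h.mono (gp_mono fun _ hy => List.mem_append_left _ hy)

/-- Lists are related when they agree after padding with blocks. -/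
def st (y0 : Q) (r : ℕ) : Setoid {l : List Q // Full l} where
  r l l' := ∃ a b : ℕ, Eqv (List.replicate (a * r) y0 ++ l.1) (List.replicate (b * r) y0 ++ l'.1)
  iseqv :=
    { refl := fun _ => ⟨0, 0, Eqv.refl _⟩
      symm := fun ⟨a, b, h⟩ => ⟨b, a, h.symm⟩
      trans := by
        rintro l l' l'' ⟨a, b, h⟩ ⟨c, d, h'⟩
        refine ⟨c + a, b + d, ?_⟩
        have h1 := h.left (List.replicate (c * r) y0)
        have h2 := h'.left (List.replicate (b * r) y0)
        rw [← List.append_assoc, ← List.append_assoc, ← List.replicate_add,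
          ← List.replicate_add] at h1 h2
        rw [add_mul, add_mul]
        rw [add_comm (c * r) (b * r)] at h1
        exact h1.trans h2 }

def app (y0 : Q) (r : ℕ) (u : List Q) : Quotient (st y0 r) → Quotient (st y0 r) :=
  Quotient.map (fun l => ⟨l.1 ++ u, full_right l.2 u⟩) (by
    rintro l l' ⟨a, b, h⟩
    refine ⟨a, b, ?_⟩
    have := h.right u
    simpa only [List.append_assoc] using this)

theorem app_mk (y0 : Q) (r : ℕ) (u : List Q) (l : {l : List Q // Full l}) :
    app y0 r u (Quotient.mk _ l) = Quotient.mk _ ⟨l.1 ++ u, full_right l.2 u⟩ := rfl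

theorem app_app (y0 : Q) (r : ℕ) (u w : List Q) (s : Quotient (st y0 r)) :
    app y0 r w (app y0 r u s) = app y0 r (u ++ w) s := by
  induction s using Quotient.inductionOn with
  | h l => simp only [app_mk, List.append_assoc]

theorem app_nil (y0 : Q) (r : ℕ) (s : Quotient (st y0 r)) : app y0 r [] s = s := by
  induction s using Quotient.inductionOn with
  | h l => simp only [app_mk, List.append_nil]

theorem app_eqv (y0 : Q) (r : ℕ) {u w : List Q} (h : Eqv u w) (s : Quotient (st y0 r)) :
    app y0 r u s = app y0 r w s := by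
  induction s using Quotient.inductionOn with
  | h l =>
    rw [app_mk, app_mk]
    exact Quotient.sound ⟨0, 0, (h.left l.1).left _⟩

theorem app_block (hBLK : S_BLK) (y0 : Q) (r : ℕ) (hr : sy y0 ^ r = 1) (y : Q)
    (s : Quotient (st y0 r)) : app y0 r (List.replicate r y) s = s := by
  induction s using Quotient.inductionOn with
  | h l =>
    rw [app_mk]
    obtain ⟨g, hg, e⟩ := l.2 y0 y
    obtain ⟨h1, h2⟩ := hBLK Q (List.replicate r y0) (by rw [pr_replicate, hr]) l.1
    have h3 := (h2 g hg).2
    rw [List.map_replicate, e] at h3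
    refine Quotient.sound ⟨0, 1, ?_⟩
    simp only [zero_mul, List.replicate_zero, List.nil_append, one_mul]
    exact h3.symm.trans h1

/-- Appending a letter, as a permutation of the classes. -/
def ee (hBLK : S_BLK) (y0 : Q) (r : ℕ) (hr : sy y0 ^ (r + 1) = 1) (y : Q) :
    Equiv.Perm (Quotient (st y0 (r + 1))) where
  toFun := app y0 (r + 1) [y]
  invFun := app y0 (r + 1) (List.replicate r y)
  left_inv s := by
    rw [app_app]
    exact app_block hBLK y0 (r + 1) hr y s
  right_inv s := by
    rw [app_app, ← List.replicate_succ']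
    exact app_block hBLK y0 (r + 1) hr y s

theorem ee_apply (hBLK : S_BLK) (y0 : Q) (r : ℕ) (hr : sy y0 ^ (r + 1) = 1) (y : Q)
    (s : Quotient (st y0 (r + 1))) : ee hBLK y0 r hr y s = app y0 (r + 1) [y] s := rfl

theorem ee_cHom (hBLK : S_BLK) (y0 : Q) (r : ℕ) (hr : sy y0 ^ (r + 1) = 1) :
    CHom (ee hBLK y0 r hr) := fun x y => by
  refine Equiv.ext fun s => ?_
  rw [Equiv.Perm.mul_apply, Equiv.Perm.mul_apply, ee_apply, ee_apply, ee_apply, ee_apply,
    app_app, app_app]
  exact (app_eqv y0 (r + 1) (Eqv.swap y x []) s).symm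

theorem pr_ee (hBLK : S_BLK) (y0 : Q) (r : ℕ) (hr : sy y0 ^ (r + 1) = 1) (u : List Q)
    (s : Quotient (st y0 (r + 1))) : pr (ee hBLK y0 r hr) u s = app y0 (r + 1) u s := by
  induction u generalizing s with
  | nil => rw [pr_nil, app_nil]; rfl
  | cons x u ih => rw [pr_cons, Equiv.Perm.mul_apply, ih, ee_apply, app_app]; rfl

theorem cancel {m : ℕ} (h : ∀ (y : Q) (l l' : List Q), Full l → Full l' → m ≤ l.length →
    Eqv (y :: l) (y :: l') → Eqv l l') (u : List Q) {l l' : List Q} (hl : Full l) (hl' : Full l')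
    (hm : m ≤ l.length) (e : Eqv (u ++ l) (u ++ l')) : Eqv l l' := by
  induction u with
  | nil => exact e
  | cons y u ih =>
    refine ih (h y _ _ (full_left u hl) (full_left u hl') ?_ e)
    rw [List.length_append]
    omega

end CPaux

theorem p_CP (hBLK : S_BLK) (hINJ : S_INJ) :
    S_CP := by
  intro Q _ _
  obtain ⟨m, hm⟩ := hINJ Q
  refine ⟨m, fun l l' hl hl' hlen he hG => ?_⟩
  cases l with
  | nil =>
    have : l' = [] := List.length_eq_zero_iff.1 he.symm
    rw [this]
    exact Eqv.refl _
  | cons y0 l0 =>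
    obtain ⟨r, hr⟩ : ∃ r, Nat.card (Equiv.Perm Q) = r + 1 :=
      Nat.exists_eq_succ_of_ne_zero Nat.card_pos.ne'
    have hp : sy y0 ^ (r + 1) = 1 := hr ▸ sy_pow_card y0
    have h1 := hG _ (CPaux.ee hBLK y0 r hp) (CPaux.ee_cHom hBLK y0 r hp)
    have h2 := congrArg (fun g : Equiv.Perm (Quotient (CPaux.st y0 (r + 1))) =>
      g (Quotient.mk _ ⟨y0 :: l0, hl⟩)) h1
    simp only [CPaux.pr_ee, CPaux.app_mk] at h2
    obtain ⟨a, b, h3⟩ := Quotient.exact h2
    have h4 := h3.length
    simp only [List.length_append, List.length_replicate, ← he] at h4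
    have h6 : a * (r + 1) = b * (r + 1) := Nat.add_right_cancel h4
    have h5 : a = b := Nat.eq_of_mul_eq_mul_right (Nat.succ_pos r) h6
    subst h5
    rw [← List.append_assoc, ← List.append_assoc] at h3
    exact CPaux.cancel hm _ hl hl' hlen h3

end Pool.Agent.P.MP_cc10d1_gt.T
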