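import Pool.Agent.P.MP_cc10d1_gt.T.Iface

/-! Step DER1. -/

set_option autoImplicit false

namespace Pool.Agent.P.MP_cc10d1_gt.T

open Quandles

theorem der1_alt {f k : ℕ} (hf : 1 ≤ f) (hk : Odd k) :
    ∑ j ∈ Finset.range (k + 1), (-1 : ℝ) ^ j / (j.factorial : ℝ) * (f.descFactorial j : ℝ) ≤ 0 := by
  obtain ⟨n, rfl⟩ : ∃ n, f = n + 1 := ⟨f - 1, by omega⟩
  have h := Int.alternating_sum_range_choose_eq_choose (n := n) (m := k)
  have h2 : ∑ j ∈ Finset.range (k + 1), ((-1 : ℝ) ^ j * ((n + 1).choose j : ℝ))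
      = (-1) ^ k * (n.choose k : ℝ) := by exact_mod_cast h
  have h3 : ∀ j : ℕ, (-1 : ℝ) ^ j / (j.factorial : ℝ) * ((n + 1).descFactorial j : ℝ)
      = (-1 : ℝ) ^ j * ((n + 1).choose j : ℝ) := by
    intro j
    have : (j.factorial : ℝ) ≠ 0 := by exact_mod_cast j.factorial_ne_zero
    rw [Nat.descFactorial_eq_factorial_mul_choose]
    push_cast
    field_simp
  rw [Finset.sum_congr rfl fun j _ => h3 j, h2, hk.neg_one_pow]
  simp

theorem p_DER1 (hMOM : S_MOM) :
    S_DER1 := by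
  intro Ω I _ _ τ H β k h1 h2 h3 h4 hk hpos
  classical
  have := Fintype.ofFinite Ω
  have := Fintype.ofFinite I
  have := Fintype.ofFinite H
  by_contra hn
  push Not at hn
  have key : ∀ h : H, ∑ j ∈ Finset.range (k + 1), (-1 : ℝ) ^ j / (j.factorial : ℝ) *
      (((Finset.univ.filter fun x => β (h.1 x) = x).card).descFactorial j : ℝ) ≤ 0 := by
    intro h
    obtain ⟨x, hx⟩ := hn h.1 h.2
    exact der1_alt (Finset.card_pos.mpr ⟨x, by simpa using hx⟩) hk
  have hs := Finset.sum_nonpos fun h (_ : h ∈ Finset.univ) => key h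
  rw [Finset.sum_comm] at hs
  have e : ∀ j ∈ Finset.range (k + 1), ∑ h : H, (-1 : ℝ) ^ j / (j.factorial : ℝ) *
      (((Finset.univ.filter fun x => β (h.1 x) = x).card).descFactorial j : ℝ)
      = (-(Nat.card I : ℝ)) ^ j / (j.factorial : ℝ) * Fintype.card H := by
    intro j hj
    have hj' : j ≤ k := Nat.lt_succ_iff.mp (Finset.mem_range.mp hj)
    have hm := hMOM Ω I τ H β j h1 h2 (fun i => hj'.trans (h3 i)) (h4 j hj')
    rw [← Finset.mul_sum, ← Nat.cast_sum, hm, Nat.card_eq_fintype_card,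
      neg_pow (Fintype.card I : ℝ)]
    push_cast
    ring
  rw [Finset.sum_congr rfl e, ← Finset.sum_mul] at hs
  have hH : (0 : ℝ) < Fintype.card H := by exact_mod_cast Fintype.card_pos
  exact absurd (mul_pos hpos hH) (not_lt.mpr hs)

end Pool.Agent.P.MP_cc10d1_gt.T
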