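import Pool.Agent.P.MP_cc10d1_gt.T.Iface

/-! Step DER2. -/

set_option autoImplicit false

namespace Pool.Agent.P.MP_cc10d1_gt.T

open Quandles

theorem der2_card {A C : Type} [Finite A] [Finite C] (f : A → C) (c : ℕ)
    (h : ∀ b, Nat.card {a // f a = b} ≤ c) : Nat.card A ≤ Nat.card C * c := by
  have := Fintype.ofFinite C
  rw [← Nat.card_congr (Equiv.sigmaFiberEquiv f), Nat.card_sigma, Nat.card_eq_fintype_card]
  exact (Finset.sum_le_card_nsmul _ _ c fun b _ => h b).trans (by simp)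

/-- The classes of the points with property `p`. -/
def der2_cls {T K : Type} (p : T → Prop) (κ : T → K) : Type :=
  Quotient (Setoid.ker fun x : {x // p x} => κ x.1)

def der2_mk {T K : Type} {p : T → Prop} (κ : T → K) (x : T) (hx : p x) : der2_cls p κ :=
  Quotient.mk _ ⟨x, hx⟩

theorem der2_eq {T K : Type} {p : T → Prop} {κ : T → K} {x y : T} (hx : p x) (hy : p y) :
    der2_mk κ x hx = der2_mk κ y hy ↔ κ x = κ y := Quotient.eq

theorem der2_surj {T K : Type} {p : T → Prop} {κ : T → K} (w : der2_cls p κ) :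
    ∃ x hx, der2_mk κ x hx = w := by
  obtain ⟨⟨x, hx⟩, rfl⟩ := Quotient.exists_rep w
  exact ⟨x, hx, rfl⟩

instance {T K : Type} [Finite T] (p : T → Prop) (κ : T → K) : Finite (der2_cls p κ) :=
  inferInstanceAs (Finite (Quotient _))

theorem der2_hom {B T K : Type} [Group B] (ρ : B →* Equiv.Perm T) (p : T → Prop) (κ : T → K)
    (h1 : ∀ b x, p x → p (ρ b x)) (h2 : ∀ b x y, κ x = κ y → κ (ρ b x) = κ (ρ b y)) :
    ∃ σ : B →* Equiv.Perm (der2_cls p κ),
      ∀ b x hx, σ b (der2_mk κ x hx) = der2_mk κ (ρ b x) (h1 b x hx) := by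
  let _ : MulAction B (der2_cls p κ) :=
    { smul := fun b => Quotient.map (fun x => ⟨ρ b x.1, h1 b _ x.2⟩) fun x y h => h2 b _ _ h
      one_smul := fun w => by
        obtain ⟨x, hx, rfl⟩ := der2_surj w
        exact (der2_eq (h1 1 x hx) hx).2 (by rw [map_one]; rfl)
      mul_smul := fun a b w => by
        obtain ⟨x, hx, rfl⟩ := der2_surj w
        exact (der2_eq (h1 (a * b) x hx) (h1 a _ (h1 b x hx))).2 (by rw [map_mul]; rfl) }
  exact ⟨MulAction.toPermHom B _, fun _ _ _ => rfl⟩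

theorem p_DER2 (hDER1 : S_DER1) :
    S_DER2 := by
  intro B T K _ _ ρ p κ R β S k c h1 h2 ⟨F, hF, hF'⟩ h4 h5 h6 hk h7
  obtain ⟨σ, hσ⟩ := der2_hom ρ p κ h1 h2
  let s : Setoid (der2_cls p κ) :=
    { r := fun v w => ∃ b, σ b v = w
      iseqv :=
        { refl := fun v => ⟨1, by rw [map_one]; rfl⟩
          symm := by
            rintro v _ ⟨b, rfl⟩
            exact ⟨b⁻¹, by rw [map_inv]; exact (σ b).symm_apply_apply v⟩
          trans := by
            rintro v _ _ ⟨a, rfl⟩ ⟨b, rfl⟩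
            exact ⟨b * a, by rw [map_mul]; rfl⟩ } }
  have hs : ∀ v w, Quotient.mk s v = Quotient.mk s w ↔ ∃ b, σ b v = w := fun _ _ => Quotient.eq
  have hs' : ∀ b v, Quotient.mk s (σ b v) = Quotient.mk s v := fun b v =>
    ((hs _ _).2 ⟨b, rfl⟩).symm
  have hI : Nat.card (Quotient s) ≤ S := by
    refine le_trans ?_ hF
    have a1 : Nat.card (Quotient s) ≤ Nat.card {y // y ∈ F ∧ p y} := by
      refine Nat.card_le_card_of_surjective
        (fun y => Quotient.mk s (der2_mk κ y.1 y.2.2)) fun i => ?_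
      obtain ⟨w, rfl⟩ := Quotient.exists_rep i
      obtain ⟨x, hx, rfl⟩ := der2_surj w
      obtain ⟨y, hy, b, rfl⟩ := hF' x hx
      exact ⟨⟨_, hy, h1 b x hx⟩, by rw [← hs' b, hσ]⟩
    have a2 : Nat.card {y // y ∈ F ∧ p y} ≤ Nat.card {y // y ∈ F} :=
      Nat.card_le_card_of_injective (fun y => ⟨y.1, y.2.1⟩) fun _ _ h =>
        Subtype.ext (Subtype.mk.inj h)
    rw [Nat.card_eq_finsetCard] at a2
    exact a1.trans a2
  obtain ⟨_, ⟨r, hr, rfl⟩, hh⟩ := hDER1 (der2_cls p κ) (Quotient s) (Quotient.mk s) (R.map σ)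
    (σ β) k (by rintro _ ⟨r, -, rfl⟩ x; exact hs' r x) (hs' β)
    (by
      intro i
      obtain ⟨w, rfl⟩ := Quotient.exists_rep i
      obtain ⟨x, hx, rfl⟩ := der2_surj w
      have hp : ∀ y : {y // ∃ b, ρ b x = y}, p y.1 := by
        rintro ⟨_, b, rfl⟩
        exact h1 b x hx
      have a1 := der2_card (A := {y // ∃ b, ρ b x = y})
        (C := {w // Quotient.mk s w = Quotient.mk s (der2_mk κ x hx)})
        (fun y => ⟨der2_mk κ y.1 (hp y), by
          obtain ⟨_, b, rfl⟩ := y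
          rw [← hs' b (der2_mk κ x hx), hσ]⟩) c
        (by
          rintro ⟨w, hw⟩
          obtain ⟨z, hz, rfl⟩ := der2_surj w
          refine le_trans ?_ (h4 z)
          exact Nat.card_le_card_of_injective
            (fun y => ⟨y.1.1, (der2_eq (hp y.1) hz).1 (congrArg Subtype.val y.2)⟩)
            fun _ _ h => Subtype.ext (Subtype.ext (Subtype.mk.inj h)))
      have hc : 0 < c := by
        refine lt_of_lt_of_le ?_ (h4 x)
        have : Nonempty {y // κ y = κ x} := ⟨⟨x, rfl⟩⟩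
        exact Nat.card_pos
      exact Nat.le_of_mul_le_mul_right ((h5 x hx).trans a1) hc)
    (by
      intro j hj v w hv hw hvw
      choose x hx hxv using fun l => der2_surj (v l)
      choose b hb using fun l => (hs _ _).1 (hvw l)
      have e : ∀ l, der2_mk κ (ρ (b l) (x l)) (h1 _ _ (hx l)) = w l := fun l => by
        rw [← hσ _ _ (hx l), hxv, hb]
      obtain ⟨r, hr, h⟩ := h6 j hj x (fun l => ρ (b l) (x l)) hx (fun l => ⟨b l, rfl⟩)
        (fun l m hlm h => hlm (hv (by rw [← hxv, ← hxv]; exact (der2_eq _ _).2 h)))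
        (fun l m hlm h => hlm (hw (by rw [← e, ← e]; exact (der2_eq _ _).2 h)))
      refine ⟨σ r, ⟨r, hr, rfl⟩, fun l => ?_⟩
      rw [← hxv, hσ, ← e]
      exact (der2_eq _ _).2 (congrArg κ (h l)))
    hk (h7 _ hI)
  refine ⟨r, hr, fun x hx h => hh (der2_mk κ x hx) ?_⟩
  rw [hσ, hσ]
  refine (der2_eq _ _).2 (congrArg κ ?_)
  rw [map_mul] at h
  exact h

end Pool.Agent.P.MP_cc10d1_gt.T
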