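import Pool.Agent.P.MP_cc10d1_gt.T.Iface

/-! Step DZ. -/

set_option autoImplicit false

namespace Pool.Agent.P.MP_cc10d1_gt.T

open Quandles

theorem dz_gen {Q : Type} [Quandle Q] (a b : Q) : sy a * (sy b)⁻¹ ∈
    (dis (FreeGroup.of : Q → FreeGroup Q)).map (hol (id : Q → Q)) :=
  ⟨FreeGroup.of a * (FreeGroup.of b)⁻¹, Subgroup.subset_closure ⟨a, b, rfl⟩, by
    rw [map_mul, map_inv, hol_of, hol_of]; rfl⟩

theorem dz_conj {Q : Type} [Quandle Q] (ψ : FreeGroup Q) {d : Equiv.Perm Q}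
    (hd : d ∈ (dis (FreeGroup.of : Q → FreeGroup Q)).map (hol (id : Q → Q))) :
    hol (id : Q → Q) ψ * d * (hol (id : Q → Q) ψ)⁻¹ ∈
      (dis (FreeGroup.of : Q → FreeGroup Q)).map (hol (id : Q → Q)) := by
  obtain ⟨φ, hφ, rfl⟩ := hd
  induction hφ using Subgroup.closure_induction with
  | mem g h =>
    obtain ⟨a, b, rfl⟩ := h
    have := dz_gen (hol (id : Q → Q) ψ a) (hol (id : Q → Q) ψ b)
    rw [sy_hol, sy_hol] at this
    rw [map_mul, map_inv, hol_of, hol_of]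
    convert this using 1
    simp only [id]
    group
  | one => simp
  | mul g h _ _ h1 h2 =>
    have := Subgroup.mul_mem _ h1 h2
    rw [map_mul]
    convert this using 1
    group
  | inv g _ h1 =>
    have := Subgroup.inv_mem _ h1
    rw [map_inv]
    convert this using 1
    group

theorem dz_split {Q : Type} [Quandle Q] (a : Q) (φ : FreeGroup Q) :
    ∃ d ∈ (dis (FreeGroup.of : Q → FreeGroup Q)).map (hol (id : Q → Q)), ∃ k : ℤ,
      hol (id : Q → Q) φ = d * sy a ^ k := by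
  have hk : ∀ k : ℤ, hol (id : Q → Q) (FreeGroup.of a ^ k) = sy a ^ k := fun k => by
    rw [map_zpow, hol_of]; rfl
  induction φ using FreeGroup.induction_on with
  | C1 => exact ⟨1, one_mem _, 0, by simp⟩
  | of x => exact ⟨_, dz_gen x a, 1, by rw [hol_of]; simp⟩
  | inv_of x ih =>
    obtain ⟨d, hd, k, e⟩ := ih
    have := dz_conj (FreeGroup.of a ^ (-k)) (Subgroup.inv_mem _ hd)
    rw [hk] at this
    exact ⟨_, this, -k, by rw [map_inv, e]; group⟩
  | mul φ ψ h1 h2 =>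
    obtain ⟨d, hd, k, e⟩ := h1
    obtain ⟨d', hd', l, e'⟩ := h2
    have := dz_conj (FreeGroup.of a ^ k) hd'
    rw [hk] at this
    exact ⟨_, Subgroup.mul_mem _ hd this, k + l, by rw [map_mul, e, e']; group⟩

theorem p_DZ :
    S_DZ := by
  intro Q _ hQ a b
  obtain ⟨φ, hφ⟩ := hQ a b
  obtain ⟨_, ⟨ψ, hψ, rfl⟩, k, e⟩ := dz_split a φ
  refine ⟨ψ, hψ, ?_⟩
  have h : (sy a ^ k) a = a :=
    Equiv.Perm.zpow_apply_eq_self_of_apply_eq_self (f := sy a) (x := a) Quandle.fix k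
  rw [← hφ, e, Equiv.Perm.mul_apply, h]

end Pool.Agent.P.MP_cc10d1_gt.T
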