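import Pool.Agent.P.MP_cc10d1_gt.T.Iface

/-! Step EXT. -/

set_option autoImplicit false

namespace Pool.Agent.P.MP_cc10d1_gt.T

open Quandles

theorem ext_move {Q : Type} [Quandle Q] (x : Q) (l F : List Q) :
    Eqv (x :: (l ++ F)) (l.map (fun y => x ◃⁻¹ y) ++ x :: F) := by
  induction l with
  | nil => exact Eqv.refl _
  | cons y l ih => exact (Eqv.swap' x y (l ++ F)).trans (ih.cons _)

theorem p_EXT :
    S_EXT := by
  intro Q _ p l
  induction l with
  | nil => exact ⟨[], Eqv.refl _⟩
  | cons x l ih =>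
    obtain ⟨l0, h⟩ := ih
    by_cases hp : p x = true
    · rw [List.filter_cons_of_pos hp]
      exact ⟨_, (h.cons x).trans (ext_move x l0 _)⟩
    · rw [List.filter_cons_of_neg hp]
      exact ⟨x :: l0, h.cons x⟩

end Pool.Agent.P.MP_cc10d1_gt.T
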