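import Pool.Agent.P.MP_cc10d1_gt.T.Iface

/-! Step FIXC. -/

set_option autoImplicit false

namespace Pool.Agent.P.MP_cc10d1_gt.T

open Quandles

theorem fixc_cross {X P : Type*} [Quandle X] [DecidableEq P] {a b : P} (hab : a ≠ b) (s : Bool)
    (y : P → X) (q : P) :
    cross a b s y (Equiv.swap a b q) = y q ∨
      ∃ k, cross a b s y (Equiv.swap a b q) = sy (y k) (y q) ∨
        cross a b s y (Equiv.swap a b q) = (sy (y k))⁻¹ (y q) := by
  by_cases h1 : q = a
  · rw [h1, Equiv.swap_apply_left, cross_right hab]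
    cases s
    · exact Or.inl rfl
    · exact Or.inr ⟨b, Or.inl rfl⟩
  · by_cases h2 : q = b
    · rw [h2, Equiv.swap_apply_right, cross_left]
      cases s
      · exact Or.inr ⟨a, Or.inr rfl⟩
      · exact Or.inl rfl
    · rw [Equiv.swap_apply_of_ne_of_ne h1 h2, cross_ne h1 h2]
      exact Or.inl rfl

theorem fixc_orbit {X : Type*} [Quandle X] {n : ℕ} (x : Fin (n + 1) → X) (b : Br n) :
    ∀ i, ∃ φ, hol x φ (x i) = rho X n b x (pm n b i) := by
  have step : ∀ (j : Fin n) (s : Bool) (b : Br n),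
      (∀ i, ∃ φ, hol x φ (x i) = rho X n b x (pm n b i)) →
      ∀ i, ∃ φ, hol x φ (x i) =
        cross j.castSucc j.succ s (rho X n b x) (Equiv.swap j.castSucc j.succ (pm n b i)) := by
    intro j s b ih i
    obtain ⟨φ, hφ⟩ := ih i
    rcases fixc_cross (Fin.castSucc_lt_succ (i := j)).ne s (rho X n b x) (pm n b i) with
      h | ⟨k, h⟩
    · exact ⟨φ, hφ.trans h.symm⟩
    · obtain ⟨ψ, hψ⟩ := ih ((pm n b).symm k)
      rw [Equiv.apply_symm_apply] at hψ
      have e : sy (rho X n b x k) = hol x (ψ * FreeGroup.of ((pm n b).symm k) * ψ⁻¹) := by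
        rw [← hψ, sy_hol, map_mul, map_mul, map_inv, hol_of]
      rw [e, ← hφ] at h
      rcases h with h | h
      · exact ⟨_ * φ, by rw [h, map_mul (hol x) _ φ]; rfl⟩
      · exact ⟨_⁻¹ * φ, by rw [h, map_mul (hol x) _ φ, map_inv]; rfl⟩
  induction b using Br.ind with
  | h1 => exact fun i => ⟨1, by simp⟩
  | hs j b ih =>
    intro i
    rw [rho_mul, rho_sg, map_mul, pm_sg]
    exact step j false b ih i
  | hi j b ih =>
    intro i
    rw [rho_mul, rho_sg_inv, map_mul, map_inv, pm_sg, Equiv.swap_inv]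
    exact step j true b ih i

theorem fixcU {X : Type*} [Quandle X] {n : ℕ} (b : Br n) (x : Fin (n + 1) → X)
    (hc : ∀ i j, (pm n b).SameCycle i j) (hx : rho X n b x = x) :
    TConn x ∧ ((∀ i j, sy (x i) = sy (x j)) → ∀ i j, x i = x j) := by
  have h1 : TConn x := by
    intro i j
    obtain ⟨k, rfl⟩ := (hc i j).exists_nat_pow_eq
    rw [← map_pow]
    have hk : rho X n (b ^ k) x = x := by
      induction k with
      | zero => rw [pow_zero, rho_one]
      | succ k ih => rw [pow_succ, rho_mul, hx, ih]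
    have := fixc_orbit x (b ^ k) i
    rwa [hk] at this
  refine ⟨h1, fun h i j => ?_⟩
  obtain ⟨φ, hφ⟩ := h1 i j
  have h2 : ∀ k, sy (x k) (x i) = x i := fun k => by rw [h k i, sy_apply, Quandle.fix]
  have h3 : ∀ φ, hol x φ (x i) = x i := by
    intro φ
    induction φ using FreeGroup.induction_on with
    | C1 => simp
    | of k => rw [hol_of]; exact h2 k
    | inv_of k ih => rw [map_inv, Equiv.Perm.inv_eq_iff_eq]; exact ih.symm
    | mul a c ha hc => rw [map_mul, Equiv.Perm.mul_apply, hc, ha]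
  rw [← hφ, h3]

theorem p_FIXC :
    S_FIXC := fun _ _ _ b x hc hx => fixcU b x hc hx

end Pool.Agent.P.MP_cc10d1_gt.T
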