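import Pool.Agent.P.MP_cc10d1_gt.T.Iface

/-! Step GOUR. -/

set_option autoImplicit false

namespace Pool.Agent.P.MP_cc10d1_gt.T

open Quandles

theorem gour_big {ι E : Type} [Group E] {x : ι → E} (hx : Jna x) (N : Subgroup (FreeGroup ι))
    [hN : N.Normal] (h : ¬ N ≤ kr x) : Dx x ≤ N.map (FreeGroup.lift x) := by
  refine hx.2.2 _ ?_ ?_ fun e => h ((Subgroup.map_eq_bot_iff _).1 e)
  · rintro _ ⟨φ, -, rfl⟩
    exact mem_Hx.2 ⟨φ, rfl⟩
  · rintro g hg _ ⟨ψ, hψ, rfl⟩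
    obtain ⟨φ, rfl⟩ := mem_Hx.1 hg
    exact ⟨φ * ψ * φ⁻¹, hN.conj_mem ψ hψ φ, by simp only [map_mul, map_inv]⟩

theorem gour_normal {ι E : Type} [Group E] (x : ι → E) : (kr x).Normal :=
  MonoidHom.normal_ker _

theorem gour_notle {ι E : Type} [Group E] {x y : ι → E} (hx : Jna x) (hy : Jna y)
    (hne : kr x ≠ kr y) : ¬ kr y ≤ kr x := by
  intro h
  have := gour_normal x
  have h1 := gour_big hy (kr x) fun h' => hne (le_antisymm h' h)
  refine hx.2.1 ?_
  rw [Dx_eq_map, Subgroup.map_eq_bot_iff]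
  intro c hc
  obtain ⟨ψ, hψ, e⟩ := h1 (show FreeGroup.lift y c ∈ Dx y from Dx_eq_map y ▸ ⟨c, hc, rfl⟩)
  have h2 : ψ⁻¹ * c ∈ kr y := by
    rw [kr, MonoidHom.mem_ker, map_mul, map_inv, e, inv_mul_cancel]
  have h3 := (kr x).mul_mem hψ (h h2)
  rwa [mul_inv_cancel_left] at h3

theorem gour_inf {F E : Type} [Group F] [Group E] (f : F →* E) {D : Subgroup E}
    (hD : ⁅D, D⁆ = D) (N M : Subgroup F) [N.Normal] [M.Normal] (h1 : D ≤ N.map f)
    (h2 : D ≤ M.map f) : D ≤ (N ⊓ M).map f := by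
  rw [← hD]
  refine (Subgroup.commutator_mono h1 h2).trans ?_
  rw [← Subgroup.map_commutator]
  exact Subgroup.map_mono (Subgroup.commutator_le_inf N M)

theorem p_GOUR :
    S_GOUR := by
  intro ι κ E A _ _ _ x w hom hne hw k d hd
  classical
  have := Fintype.ofFinite κ
  have key : ∀ s : Finset κ, k ∉ s → ∃ N : Subgroup (FreeGroup ι), N.Normal ∧
      Dx (x k) ≤ N.map (FreeGroup.lift (x k)) ∧ N ≤ derivedSeries (FreeGroup ι) 2 ∧
      ∀ l ∈ s, N ≤ kr (x l) := by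
    intro s
    induction s using Finset.induction_on with
    | empty =>
      refine fun _ => ⟨derivedSeries (FreeGroup ι) 2, inferInstance, ?_, le_rfl, by simp⟩
      rw [derivedSeries_succ, derivedSeries_succ, derivedSeries_zero, Subgroup.map_commutator,
        ← Dx_eq_map, (hom k).2]
    | insert l s _ ih =>
      intro hk
      rw [Finset.mem_insert, not_or] at hk
      obtain ⟨N, hN, h1, h2, h3⟩ := ih hk.2
      have := gour_normal (x l)
      refine ⟨N ⊓ kr (x l), inferInstance, gour_inf _ (hom k).2 _ _ h1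
        (gour_big (hom k).1 _ (gour_notle (hom k).1 (hom l).1 (hne k l hk.1))),
        inf_le_left.trans h2, fun m hm => ?_⟩
      rcases Finset.mem_insert.1 hm with rfl | hm
      · exact inf_le_right
      · exact inf_le_left.trans (h3 m hm)
  obtain ⟨N, -, h1, h2, h3⟩ := key (Finset.univ.erase k) (Finset.notMem_erase _ _)
  obtain ⟨φ, hφ, e⟩ := h1 hd
  exact ⟨φ, e, fun l hl => h3 l (Finset.mem_erase.2 ⟨hl, Finset.mem_univ l⟩) hφ, hw φ (h2 hφ)⟩

end Pool.Agent.P.MP_cc10d1_gt.T
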