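import Pool.Agent.P.MP_cc10d1_gt.T.Iface

/-! Step GRP. -/

set_option autoImplicit false

namespace Pool.Agent.P.MP_cc10d1_gt.T

open Quandles

theorem grp_Dx_bot {ι E : Type*} [Group E] (y : ι → E) (i0 : ι) (h : ∀ i j, y i = y j) :
    Dx y = ⊥ := by
  have h1 : Hx y ≤ Subgroup.zpowers (y i0) := by
    rw [Hx, Subgroup.closure_le]
    rintro _ ⟨i, rfl⟩
    rw [h i i0]
    exact Subgroup.mem_zpowers _
  rw [eq_bot_iff, Dx, Subgroup.commutator_le]
  intro a ha b hb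
  obtain ⟨m, rfl⟩ := Subgroup.mem_zpowers_iff.1 (h1 ha)
  obtain ⟨k, rfl⟩ := Subgroup.mem_zpowers_iff.1 (h1 hb)
  rw [Subgroup.mem_bot, commutatorElement_eq_one_iff_commute]
  exact (Commute.refl _).zpow_zpow m k

theorem p_GRP (hRING : S_RING) (hRT0 : S_RT0) (hNOOM : S_NOOM) (hAFF : S_AFF) (hJNA : S_JNA) (hUNK : S_UNK) (hFIXC : S_FIXC) :
    S_GRP := by
  intro G _ _
  obtain ⟨R, _, _, t, hu, hU⟩ := hRING (Nat.card (Equiv.Perm G)).factorial (Nat.factorial_pos _)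
  obtain ⟨n1, h1⟩ := hRT0 (Equiv.Perm G) R t hu 0
  obtain ⟨n2, h2⟩ := hNOOM (Equiv.Perm G) R t hu
  refine ⟨n1 + n2 + 1, fun n hn d β e hcyc hex => ?_⟩
  obtain ⟨c0, hc0, k0, hk0, e0⟩ := (h1 n (by omega) d ⟨0, by omega⟩ rfl (fun k => k.elim0)
    (fun k => k.elim0) (fun k => k.elim0) (fun k => k.elim0)).2 (β⁻¹ * toBr (unk e))
    (by rw [map_mul, map_inv, hex, inv_mul_cancel])
  obtain ⟨c1, ⟨hk1, hc1⟩, hno⟩ := h2 n (by omega) d (β * c0)
  have hc : c0 * c1 ∈ CC n d := mul_mem hc0 hc1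
  have hk : k0⁻¹ * c1 ∈ (rho (Aff (mu t)) n).ker := mul_mem (inv_mem hk0) hk1
  have e1 : β * (c0 * c1) = toBr (unk e) * (k0⁻¹ * c1) := by
    have : toBr (unk e) = β * (c0 * k0) := by rw [← e0, mul_inv_cancel_left]
    rw [this]; group
  refine ⟨c0 * c1, hc, fun x hx => ?_⟩
  by_contra hne
  have hne' : ∃ i j, x i ≠ x j := by
    by_contra h
    exact hne fun i j => by_contra fun hij => h ⟨i, j, hij⟩
  have hpm : pm n (β * (c0 * c1)) = pm n β := by
    rw [map_mul, MonoidHom.mem_ker.1 (PN_le_pm (gam_le _ d hc)), mul_one]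
  have hconn := (hFIXC (Quandle.Conj G) n _ x (by rw [hpm]; exact hcyc) hx).1
  obtain ⟨H, f, z, hz, hO⟩ := hJNA G (Fin (n + 1)) x ((gConn_iff (G := G) x).2 hconn) hne'
  have hzx : (H.subtype : H → G) ∘ z = x := funext hz
  have hzf : rho (Quandle.Conj H) n (β * (c0 * c1)) z = z := by
    have h3 := rho_map (isHom_hom H.subtype) (β * (c0 * c1)) z
    funext i
    refine Subtype.ext ?_
    have h4 := congrFun h3 i
    erw [hzx, hx] at h4
    exact h4.symm.trans (hz i).symm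
  have hff : rho (Quandle.Conj (Equiv.Perm G)) n (β * (c0 * c1)) (f ∘ z) = f ∘ z := by
    have h3 := rho_map (isHom_hom f) (β * (c0 * c1)) z
    rw [hzf] at h3
    exact h3
  rcases hO with hO | hO
  · exact hno _ hO (by rw [mul_assoc]; exact hff)
  · have h5 := hAFF (Equiv.Perm G) R t hU n _ (MonoidHom.mem_ker.1 hk) _ hO
    rw [e1, rho_mul, h5] at hff
    exact hO.1.2.1 (grp_Dx_bot _ 0 (hUNK (Quandle.Conj (Equiv.Perm G)) n e _ hff))

end Pool.Agent.P.MP_cc10d1_gt.T
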