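import Pool.Agent.P.MP_cc10d1_gt.T.Iface

/-! Step HD. -/

set_option autoImplicit false

namespace Pool.Agent.P.MP_cc10d1_gt.T

open Quandles

theorem hd_comm {ι E : Type} [Group E] (x : ι → E) {a b : E} (ha : a ∈ Hx x) (hb : b ∈ Hx x) :
    a * b * a⁻¹ * b⁻¹ ∈ Dx x :=
  Subgroup.commutator_mem_commutator ha hb

theorem hd_conj {ι E : Type} [Group E] (x : ι → E) {a d : E} (ha : a ∈ Hx x) (hd : d ∈ Dx x) :
    a * d * a⁻¹ ∈ Dx x := by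
  have h := (Dx x).mul_mem (hd_comm x ha (Dx_le x hd)) hd
  have e : a * d * a⁻¹ * d⁻¹ * d = a * d * a⁻¹ := by group
  rwa [e] at h

theorem hd_gen {ι E : Type} [Group E] (x : ι → E) (y : E)
    (hy : ∀ j, x j * y⁻¹ ∈ Dx x) : ∀ h ∈ Hx x, ∃ k : ℤ, h * (y ^ k)⁻¹ ∈ Dx x := by
  intro h hh
  induction hh using Subgroup.closure_induction with
  | mem a ha =>
    obtain ⟨j, rfl⟩ := ha
    exact ⟨1, by simpa using hy j⟩
  | one => exact ⟨0, by simp⟩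
  | mul a b ha _ iha ihb =>
    obtain ⟨k, hk⟩ := iha
    obtain ⟨l, hl⟩ := ihb
    refine ⟨k + l, ?_⟩
    have h := (Dx x).mul_mem (hd_conj x (show a ∈ Hx x from ha) hl) hk
    have e : a * (b * (y ^ l)⁻¹) * a⁻¹ * (a * (y ^ k)⁻¹) = a * b * (y ^ (k + l))⁻¹ := by group
    rwa [e] at h
  | inv a ha iha =>
    obtain ⟨k, hk⟩ := iha
    refine ⟨-k, ?_⟩
    have h := hd_conj x ((Hx x).inv_mem (show a ∈ Hx x from ha)) ((Dx x).inv_mem hk)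
    have e : a⁻¹ * (a * (y ^ k)⁻¹)⁻¹ * a⁻¹⁻¹ = a⁻¹ * (y ^ (-k))⁻¹ := by group
    rwa [e] at h

theorem hd_class {ι E : Type} [Group E] (x : ι → E) (hc : GConn x) (i : ι) {g : E}
    (hg : g ∈ Hx x) (j : ι) : x j * (g * x i * g⁻¹)⁻¹ ∈ Dx x := by
  obtain ⟨h, hh, e⟩ := hc i j
  have h1 := (Dx x).mul_mem (hd_comm x hh (self_mem_Hx x i)) (hd_comm x (self_mem_Hx x i) hg)
  have e2 : h * x i * h⁻¹ * (x i)⁻¹ * (x i * g * (x i)⁻¹ * g⁻¹)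
      = h * x i * h⁻¹ * (g * x i * g⁻¹)⁻¹ := by group
  rwa [e2, e] at h1

theorem p_HD :
    S_HD := by
  intro ι E _ x hc i h hh
  refine ⟨?_, fun g hg => ?_⟩
  · obtain ⟨k, hk⟩ := hd_gen x (x i)
      (fun j => by simpa using hd_class x hc i (Hx x).one_mem j) h hh
    exact ⟨_, hk, k, by group⟩
  · obtain ⟨k, hk⟩ := hd_gen x (g * x i * g⁻¹) (hd_class x hc i hg) (h * g⁻¹)
      ((Hx x).mul_mem hh ((Hx x).inv_mem hg))
    refine ⟨_, hk, ?_⟩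
    have e : h * x i * h⁻¹ = h * g⁻¹ * (g * x i * g⁻¹) * (h * g⁻¹)⁻¹ := by group
    rw [e]
    generalize g * x i * g⁻¹ = y
    generalize h * g⁻¹ = u
    group

end Pool.Agent.P.MP_cc10d1_gt.T
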