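import Pool.Agent.P.MP_cc10d1_gt.T.Iface

/-! Step INJ. -/

set_option autoImplicit false

namespace Pool.Agent.P.MP_cc10d1_gt.T

open Quandles

namespace INJaux

variable (Q : Type) [Quandle Q]

/-- Full lists of a given length. -/
def V (n : ℕ) : Type := {l : List Q // Full l ∧ l.length = n}

instance (n : ℕ) [Finite Q] : Finite (V Q n) :=
  ((List.finite_length_eq Q n).subset (t := {l : List Q | Full l ∧ l.length = n})
    fun _ h => h.2).to_subtype

def st (n : ℕ) : Setoid (V Q n) where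
  r a b := Eqv a.1 b.1
  iseqv := ⟨fun a => Eqv.refl a.1, Eqv.symm, Eqv.trans⟩

def F (n : ℕ) : Type := Quotient (st Q n)

instance (n : ℕ) [Finite Q] : Finite (F Q n) := Quotient.finite _

variable {Q}

def cv (y : Q) (n : ℕ) (a : V Q n) : V Q (n + 1) :=
  ⟨y :: a.1, a.2.1.mono (gp_mono fun _ h => List.mem_cons_of_mem _ h), by
    rw [List.length_cons, a.2.2]⟩

def cf (y : Q) (n : ℕ) : F Q n → F Q (n + 1) :=
  Quotient.map (sa := st Q n) (sb := st Q (n + 1)) (cv y n) fun _ _ h => Eqv.cons y h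

theorem surj (hBLK : S_BLK) (hPIG : S_PIG) [Finite Q] (y : Q) (n : ℕ)
    (hn : Nat.card Q * Nat.card (Equiv.Perm Q) ≤ n) : Function.Surjective (cf y n) := by
  intro b
  obtain ⟨⟨l, hl, hlen⟩, rfl⟩ := Quotient.exists_rep b
  obtain ⟨r, hr⟩ : ∃ r, Nat.card (Equiv.Perm Q) = r + 1 :=
    ⟨_, (Nat.succ_pred_eq_of_pos Nat.card_pos).symm⟩
  obtain ⟨l0, z, -, h1, h2, -⟩ := hPIG Q (Nat.card (Equiv.Perm Q)) l (by omega)
  have hl0 : Full l0 := hl.mono h2.ge
  have hW : pr sy (List.replicate (Nat.card (Equiv.Perm Q)) z) = 1 := by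
    rw [pr_replicate, sy_pow_card]
  obtain ⟨g, hg, hgz⟩ := hl0 z y
  obtain ⟨hW2, h3⟩ := (hBLK Q _ hW l0).2 g hg
  have h4 := (hBLK Q _ hW2 l0).1
  rw [List.map_replicate, hgz] at h3 h4
  have h5 : Eqv l (y :: (List.replicate r y ++ l0)) := by
    have := h1.trans (h3.trans h4)
    rwa [hr, List.replicate_succ, List.cons_append] at this
  refine ⟨Quotient.mk (st Q n) ⟨List.replicate r y ++ l0,
    hl0.mono (gp_mono fun _ h => List.mem_append_right _ h), ?_⟩, Quotient.sound h5.symm⟩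
  have := h5.length
  rw [List.length_cons] at this
  omega

end INJaux

open INJaux in
theorem p_INJ (hBLK : S_BLK) (hPIG : S_PIG) :
    S_INJ := by
  intro Q _ _
  rcases isEmpty_or_nonempty Q with hQ | ⟨⟨y0⟩⟩
  · exact ⟨0, fun y => hQ.elim y⟩
  set n1 := Nat.card Q * Nat.card (Equiv.Perm Q) with hn1
  have anti : ∀ n, n1 ≤ n → ∀ k, Nat.card (F Q (n + k)) ≤ Nat.card (F Q n) := by
    intro n hn k
    induction k with
    | zero => exact le_rfl
    | succ k ih =>
      exact (Nat.card_le_card_of_surjective _ (surj hBLK hPIG y0 (n + k) (by omega))).trans ih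
  obtain ⟨j, hj⟩ : ∃ j, ∀ i, Nat.card (F Q (n1 + j)) ≤ Nat.card (F Q (n1 + i)) :=
    ⟨Function.argmin fun i => Nat.card (F Q (n1 + i)), fun i =>
      Function.argmin_le (fun i => Nat.card (F Q (n1 + i))) i⟩
  refine ⟨n1 + j, fun y l l' hl hl' hm h => ?_⟩
  obtain ⟨k, hk⟩ := Nat.exists_eq_add_of_le hm
  have hlen : l'.length = n1 + j + k := by
    have := h.length
    simp only [List.length_cons] at this
    omega
  have hc : Nat.card (F Q (n1 + j + k)) ≤ Nat.card (F Q (n1 + j + k + 1)) := by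
    have h1 := anti (n1 + j) (by omega) k
    have h2 := hj (j + k + 1)
    rw [show n1 + (j + k + 1) = n1 + j + k + 1 by omega] at h2
    omega
  have hb := (surj hBLK hPIG y (n1 + j + k) (by omega)).bijective_of_nat_card_le hc
  have := hb.1 (a₁ := Quotient.mk (st Q _) ⟨l, hl, hk⟩) (a₂ := Quotient.mk (st Q _) ⟨l', hl', hlen⟩)
    (Quotient.sound h)
  exact Quotient.exact this

end Pool.Agent.P.MP_cc10d1_gt.T
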