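import Pool.Agent.P.MP_cc10d1_gt.T.Iface

/-! Step JNA. -/

set_option autoImplicit false

namespace Pool.Agent.P.MP_cc10d1_gt.T

open Quandles
open scoped commutatorElement

theorem jna_emb (Q G : Type) [Group Q] [Finite Q] [Finite G] (h : Nat.card Q ≤ Nat.card G) :
    ∃ g : Q →* Equiv.Perm G, Function.Injective g := by
  classical
  have := Fintype.ofFinite Q
  have := Fintype.ofFinite G
  rw [Nat.card_eq_fintype_card, Nat.card_eq_fintype_card] at h
  obtain ⟨e⟩ := Function.Embedding.nonempty_of_card_le h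
  refine ⟨(Equiv.Perm.viaEmbeddingHom e).comp (MulAction.toPermHom Q Q), ?_⟩
  rw [MonoidHom.coe_comp]
  exact (Equiv.Perm.viaEmbeddingHom_injective e).comp MulAction.toPerm_injective

theorem jna_max (H : Type) [Group H] [Finite H] (hc : commutator H ≠ ⊥) :
    ∃ N : Subgroup H, N.Normal ∧ ¬ commutator H ≤ N ∧
      ∀ M : Subgroup H, M.Normal → N ≤ M → M ≠ N → commutator H ≤ M := by
  have hfin : Finite (Subgroup H) := inferInstance
  obtain ⟨N, hN⟩ := Set.Finite.exists_maximal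
    (s := {N : Subgroup H | N.Normal ∧ ¬ commutator H ≤ N}) (Set.toFinite _)
    ⟨⊥, inferInstance, fun h => hc (le_bot_iff.1 h)⟩
  refine ⟨N, hN.1.1, hN.1.2, fun M hM hle hne => ?_⟩
  by_contra hcon
  exact hne (le_antisymm (hN.2 ⟨hM, hcon⟩ hle) hle)

theorem jna_core {H E ι : Type} [Group H] [Group E] (z : ι → H)
    (hz : Subgroup.closure (Set.range z) = ⊤) (hconn : ∀ i j, ∃ h, h * z i * h⁻¹ = z j)
    (f : H →* E) (h1 : ¬ commutator H ≤ f.ker)
    (h2 : ∀ M : Subgroup H, M.Normal → f.ker ≤ M → M ≠ f.ker → commutator H ≤ M) :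
    Om (f ∘ z) ∨ Oa (f ∘ z) := by
  have hH : Hx (f ∘ z) = Subgroup.map f ⊤ := by
    unfold Hx
    rw [← hz, MonoidHom.map_closure, Set.range_comp]
  have hD : Dx (f ∘ z) = Subgroup.map f (commutator H) := by
    unfold Dx
    rw [hH, commutator, Subgroup.map_commutator]
  have hmem : ∀ a : H, f a ∈ Hx (f ∘ z) := fun a => by
    rw [hH]; exact ⟨a, trivial, rfl⟩
  have hmin : ∀ N : Subgroup E, N ≤ Hx (f ∘ z) →
      (∀ h ∈ Hx (f ∘ z), ∀ a ∈ N, h * a * h⁻¹ ∈ N) → N ≠ ⊥ → Dx (f ∘ z) ≤ N := by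
    intro N hle hn hne
    have hnorm : (N.comap f).Normal := ⟨fun a ha g => by
      rw [Subgroup.mem_comap, map_mul, map_mul, map_inv]
      exact hn _ (hmem g) _ ha⟩
    have hk : f.ker ≤ N.comap f := fun a ha => by
      rw [Subgroup.mem_comap, MonoidHom.mem_ker.1 ha]; exact N.one_mem
    have hne' : N.comap f ≠ f.ker := by
      intro he
      apply hne
      rw [eq_bot_iff]
      intro a ha
      have h3 := hle ha
      rw [hH] at h3
      obtain ⟨b, -, rfl⟩ := h3
      have : b ∈ N.comap f := ha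
      rw [he] at this
      exact this
    rw [hD, Subgroup.map_le_iff_le_comap]
    exact h2 _ hnorm hk hne'
  have hJ : Jna (f ∘ z) := by
    refine ⟨fun i j => ?_, ?_, hmin⟩
    · obtain ⟨h, hh⟩ := hconn i j
      refine ⟨f h, hmem h, ?_⟩
      simp only [Function.comp]
      rw [← hh, map_mul, map_mul, map_inv]
    · rw [hD, ne_eq, Subgroup.map_eq_bot_iff]
      exact h1
  have hDD : ⁅Dx (f ∘ z), Dx (f ∘ z)⁆ = Subgroup.map f ⁅commutator H, commutator H⁆ := by
    rw [hD, Subgroup.map_commutator]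
  by_cases hb : ⁅Dx (f ∘ z), Dx (f ∘ z)⁆ = ⊥
  · exact Or.inr ⟨hJ, hb⟩
  · refine Or.inl ⟨hJ, le_antisymm ?_ (hmin _ ?_ ?_ hb)⟩
    · rw [hDD, hD]
      exact Subgroup.map_mono (Subgroup.commutator_le_left _ _)
    · rw [hDD, hH]
      exact Subgroup.map_mono le_top
    · intro h hh a ha
      rw [hH] at hh
      rw [hDD] at ha ⊢
      obtain ⟨g, -, rfl⟩ := hh
      obtain ⟨b, hb', rfl⟩ := ha
      refine ⟨g * b * g⁻¹, Subgroup.Normal.conj_mem inferInstance b hb' g, ?_⟩
      rw [map_mul, map_mul, map_inv]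

theorem p_JNA :
    S_JNA := by
  intro G ι _ _ x hx ⟨i0, j0, hij⟩
  let z : ι → Hx x := fun i => ⟨x i, Subgroup.subset_closure ⟨i, rfl⟩⟩
  have hz : Subgroup.closure (Set.range z) = ⊤ := by
    apply Subgroup.map_injective (f := (Hx x).subtype) (Hx x).subtype_injective
    rw [MonoidHom.map_closure, ← Set.range_comp, ← MonoidHom.range_eq_map,
      Subgroup.range_subtype]
    rfl
  have hconn : ∀ i j, ∃ h, h * z i * h⁻¹ = z j := fun i j => by
    obtain ⟨h, hh, he⟩ := hx i j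
    exact ⟨⟨h, hh⟩, Subtype.ext he⟩
  have hc : commutator (Hx x) ≠ ⊥ := by
    intro hb
    obtain ⟨h, hh⟩ := hconn i0 j0
    have h1 : ⁅h, z i0⁆ ∈ commutator (Hx x) :=
      Subgroup.commutator_mem_commutator (Subgroup.mem_top _) (Subgroup.mem_top _)
    rw [hb, Subgroup.mem_bot, commutatorElement_def, hh, mul_inv_eq_one] at h1
    exact hij (congrArg Subtype.val h1).symm
  obtain ⟨N, hN, h1, h2⟩ := jna_max (Hx x) hc
  have hcard : Nat.card (Hx x ⧸ N) ≤ Nat.card G :=
    (Nat.card_le_card_of_surjective _ (QuotientGroup.mk_surjective (s := N))).trans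
      (Nat.card_le_card_of_injective _ (Hx x).subtype_injective)
  obtain ⟨g, hg⟩ := jna_emb (Hx x ⧸ N) G hcard
  have hk : (g.comp (QuotientGroup.mk' N)).ker = N := by
    rw [MonoidHom.ker_comp_of_injective _ _ hg, QuotientGroup.ker_mk']
  refine ⟨Hx x, g.comp (QuotientGroup.mk' N), z, fun _ => rfl, jna_core z hz hconn _ ?_ ?_⟩
  · rw [hk]; exact h1
  · rw [hk]; exact h2

end Pool.Agent.P.MP_cc10d1_gt.T
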