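import Pool.Agent.P.MP_cc10d1_gt.T.Iface

/-! Step JT. -/

set_option autoImplicit false

namespace Pool.Agent.P.MP_cc10d1_gt.T

open Quandles

theorem jt_ind {ι E A : Type} [Group E] [Quandle A] {j : ℕ} {x : Fin (j + 1) → ι → E} {w : ι → A}
    (h : Ind x w) :
    Ind (A := Quandle.Conj E × A) (fun k : Fin j => x k.castSucc)
      fun i => ((x (Fin.last j) i : Quandle.Conj E), w i) := by
  intro k d hd
  obtain ⟨φ, h1, h2, h3⟩ := h k.castSucc d hd
  refine ⟨φ, h1, fun l hl => h2 _ fun e => hl (Fin.castSucc_injective _ e), ?_⟩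
  ext a : 1
  have h4 := h2 (Fin.last j) (Fin.castSucc_lt_last k).ne'
  rw [hol_prod (Q := Quandle.Conj E) (x (Fin.last j)) w φ a, h3, hol_conj, h4]
  simp

theorem jt_conn (hHD : S_HD) {ι E A : Type} [Group E] [Quandle A] {z : ι → E} {w : ι → A}
    (hz : GConn z) (hw : TConn w)
    (h : ∀ d ∈ Dx z, ∃ φ, FreeGroup.lift z φ = d ∧ hol w φ = 1) :
    TConn (Q := Quandle.Conj E × A) fun i => ((z i : Quandle.Conj E), w i) := by
  intro i j
  obtain ⟨φ, hφ⟩ := hw i j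
  obtain ⟨g, hg, e⟩ := hz i j
  obtain ⟨d, hd, e2⟩ := (hHD ι E z hz i g hg).2 _ (mem_Hx.2 ⟨φ, rfl⟩)
  obtain ⟨ψ, h1, h2⟩ := h d hd
  refine ⟨ψ * φ, ?_⟩
  rw [hol_prod (Q := Quandle.Conj E) z w (ψ * φ), hol_conj, map_mul, map_mul, h1, h2, one_mul, hφ]
  refine Prod.ext ?_ rfl
  change d * FreeGroup.lift z φ * z i * (d * FreeGroup.lift z φ)⁻¹ = z j
  rw [← e, e2]
  group

theorem p_JT (hBINA : S_BINA) (hHD : S_HD) :
    S_JT := by
  intro E _ _ j
  induction j with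
  | zero =>
    intro A _ _
    refine ⟨0, fun n _ x y w w' _ _ _ h _ _ => ?_⟩
    obtain ⟨b, hb⟩ := h
    exact ⟨b, fun k => k.elim0, hb⟩
  | succ j ih =>
    intro A _ _
    obtain ⟨n1, h1⟩ := ih (Quandle.Conj E × A)
    obtain ⟨n2, h2⟩ := hBINA E A
    refine ⟨max n1 n2, fun n hn x y w w' hom horb hw hww hx hy => ?_⟩
    have ix : ∀ d ∈ Dx (x (Fin.last j)), ∃ φ, FreeGroup.lift (x (Fin.last j)) φ = d ∧ hol w φ = 1 :=
      fun d hd => (hx _ d hd).imp fun _ h => ⟨h.1, h.2.2⟩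
    have iy : ∀ d ∈ Dx (y (Fin.last j)), ∃ φ, FreeGroup.lift (y (Fin.last j)) φ = d ∧
        hol w' φ = 1 := fun d hd => (hy _ d hd).imp fun _ h => ⟨h.1, h.2.2⟩
    obtain ⟨b0, e1, e2⟩ := h2 n (le_of_max_le_right hn) _ _ w w' (hom _) hw (horb _) hww ix iy
    have ho : Orb (X := Quandle.Conj E × A) (fun i => ((x (Fin.last j) i : Quandle.Conj E), w i))
        fun i => ((y (Fin.last j) i : Quandle.Conj E), w' i) :=
      ⟨b0, by rw [rho_prod (X := Quandle.Conj E) b0 (x (Fin.last j)) w, e1, e2]⟩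
    obtain ⟨b, f1, f2⟩ := h1 n (le_of_max_le_left hn) (fun k => x k.castSucc)
      (fun k => y k.castSucc) _ _ (fun k => hom _) (fun k => horb _)
      (jt_conn hHD (hom _).1.1 hw ix) ho (jt_ind hx) (jt_ind hy)
    rw [rho_prod (X := Quandle.Conj E) b (x (Fin.last j)) w] at f2
    refine ⟨b, fun k => ?_, funext fun i => congrArg Prod.snd (congrFun f2 i)⟩
    induction k using Fin.lastCases with
    | last => exact funext fun i => congrArg Prod.fst (congrFun f2 i)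
    | cast k => exact f1 k

end Pool.Agent.P.MP_cc10d1_gt.T
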