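import Pool.Agent.P.MP_cc10d1_gt.T.Iface

/-! Step KER. -/

set_option autoImplicit false

namespace Pool.Agent.P.MP_cc10d1_gt.T

open Quandles

theorem ker_cross {E P : Type} [Group E] [DecidableEq P] (H : Subgroup E) (a b : P) (s : Bool)
    (x : P → E) (hx : ∀ i, x i ∈ H) (q : P) :
    ∃ j, ∃ h ∈ H, h * x j * h⁻¹ = cross (X := Quandle.Conj E) a b s x q := by
  unfold cross
  split_ifs
  · exact ⟨b, 1, one_mem _, by simp⟩
  · refine ⟨b, (x a)⁻¹, inv_mem (hx a), ?_⟩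
    rw [conj_invAct, inv_inv]
  · exact ⟨a, x b, hx b, rfl⟩
  · exact ⟨a, 1, one_mem _, by simp⟩
  · exact ⟨q, 1, one_mem _, by simp⟩

theorem ker_conj {E : Type} [Group E] {n : ℕ} (b : Br n) (x : Fin (n + 1) → E)
    (q : Fin (n + 1)) :
    ∃ j, ∃ h ∈ Hx x, h * x j * h⁻¹ = rho (Quandle.Conj E) n b x q := by
  have step : ∀ (y : Fin (n + 1) → E) (a c : Fin (n + 1)) (s : Bool),
      (∀ q, ∃ j, ∃ h ∈ Hx x, h * x j * h⁻¹ = y q) →
      ∀ q, ∃ j, ∃ h ∈ Hx x, h * x j * h⁻¹ = cross (X := Quandle.Conj E) a c s y q := by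
    intro y a c s ih q
    have hy : ∀ i, y i ∈ Hx x := by
      intro i
      obtain ⟨j, h, hh, e⟩ := ih i
      rw [← e]
      exact mul_mem (mul_mem hh (self_mem_Hx x j)) (inv_mem hh)
    obtain ⟨j, h, hh, e⟩ := ker_cross (Hx x) a c s y hy q
    obtain ⟨k, g, hg, e'⟩ := ih j
    refine ⟨k, h * g, mul_mem hh hg, ?_⟩
    rw [← e, ← e']
    group
  induction b using Br.ind generalizing q with
  | h1 => rw [rho_one]; exact ⟨q, 1, one_mem _, by simp⟩
  | hs i b ih => rw [rho_mul, rho_sg]; exact step _ _ _ _ ih q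
  | hi i b ih => rw [rho_mul, rho_sg_inv]; exact step _ _ _ _ ih q

theorem ker_le {E : Type} [Group E] {n : ℕ} (b : Br n) (x : Fin (n + 1) → E) :
    Hx (rho (Quandle.Conj E) n b x) ≤ Hx x := by
  refine (Subgroup.closure_le _).2 ?_
  rintro _ ⟨q, rfl⟩
  obtain ⟨j, h, hh, e⟩ := ker_conj b x q
  rw [← e]
  exact mul_mem (mul_mem hh (self_mem_Hx x j)) (inv_mem hh)

theorem ker_Hx {E : Type} [Group E] {n : ℕ} (b : Br n) (x : Fin (n + 1) → E) :
    Hx (rho (Quandle.Conj E) n b x) = Hx x := by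
  refine le_antisymm (ker_le b x) ?_
  have h := ker_le b⁻¹ (rho (Quandle.Conj E) n b x)
  rwa [rho_inv_rho] at h

theorem ker_lift {E : Type} [Group E] {n : ℕ} (b : Br n) (x : Fin (n + 1) → E) :
    kr (rho (Quandle.Conj E) n b x) = (kr x).comap (FreeGroup.lift
      (rho (Quandle.Conj (FreeGroup (Fin (n + 1)))) n b FreeGroup.of)) := by
  have h := rho_map (isHom_hom (FreeGroup.lift x)) b FreeGroup.of
  have e : (FreeGroup.lift x) ∘ (FreeGroup.of : Fin (n + 1) → FreeGroup (Fin (n + 1))) = x := by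
    funext i
    exact FreeGroup.lift_apply_of
  have e2 : FreeGroup.lift (rho (Quandle.Conj E) n b x) = (FreeGroup.lift x).comp (FreeGroup.lift
      (rho (Quandle.Conj (FreeGroup (Fin (n + 1)))) n b FreeGroup.of)) := by
    refine FreeGroup.ext_hom _ _ fun i => ?_
    rw [MonoidHom.comp_apply, FreeGroup.lift_apply_of, FreeGroup.lift_apply_of]
    have h2 := congrFun h i
    rw [e] at h2
    exact h2
  unfold kr
  rw [e2, MonoidHom.comap_ker]

theorem p_KER :
    S_KER := by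
  intro E _ n b x
  have hH := ker_Hx b x
  have hD : Dx (rho (Quandle.Conj E) n b x) = Dx x := by
    unfold Dx
    rw [hH]
  refine ⟨hH, ?_, ?_⟩
  · rintro ⟨⟨hc, h1, h2⟩, h3⟩
    refine ⟨⟨?_, ?_, ?_⟩, ?_⟩
    · intro i j
      obtain ⟨i', g, hg, e⟩ := ker_conj b x i
      obtain ⟨j', k, hk, e'⟩ := ker_conj b x j
      obtain ⟨c, hc', e''⟩ := hc i' j'
      refine ⟨k * c * g⁻¹, ?_, ?_⟩
      · rw [hH]
        exact mul_mem (mul_mem hk hc') (inv_mem hg)
      · rw [← e, ← e', ← e'']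
        group
    · rw [hD]; exact h1
    · rw [hD, hH]; exact h2
    · rw [hD]; exact h3
  · intro y hy
    rw [ker_lift, ker_lift, hy]

end Pool.Agent.P.MP_cc10d1_gt.T
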