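import Pool.Agent.P.MP_cc10d1_gt.T.Iface

/-! Step KMOD. -/

set_option autoImplicit false

namespace Pool.Agent.P.MP_cc10d1_gt.T

open Quandles

theorem kmod_hom {M D : Type} [AddCommGroup M] [AddCommGroup D] (η : M ≃+ M) (θ : D ≃+ D)
    (g : M →+ D) (h : ∀ a, g (η a) = θ (g a)) :
    IsHom (Q := Aff η) (R := Aff θ) (fun a => g a) := by
  intro a b
  change g (afa η a b) = afa θ (g a) (g b)
  simp only [afa, map_add, map_sub, h]

theorem p_KMOD :
    S_KMOD := by
  intro R _ t D _ θ f hf n b hb
  classical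
  let η : (Fin (n + 1) → R) ≃+ (Fin (n + 1) → R) := AddEquiv.piCongrRight fun _ => mu t
  let e : Fin (n + 1) → Aff η := fun i => (Pi.single i 1 : Fin (n + 1) → R)
  have he : rho (Aff η) n b e = e := by
    funext i j
    have h1 := rho_map (kmod_hom η (mu t) (Pi.evalAddMonoidHom (fun _ => R) j) fun _ => rfl) b e
    rw [hb] at h1
    exact (congrFun h1 i).symm
  refine Equiv.ext fun x => ?_
  let g : (Fin (n + 1) → R) →+ D :=
    { toFun := fun m => ∑ i, f (m i) (x i)
      map_zero' := by simp
      map_add' := fun a c => by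
        rw [← Finset.sum_add_distrib]
        exact Finset.sum_congr rfl fun i _ => by rw [Pi.add_apply, map_add]; rfl }
  have hg : ∀ a, g (η a) = θ (g a) := by
    intro a
    change ∑ i, f (t * a i) (x i) = θ (∑ i, f (a i) (x i))
    rw [map_sum]
    refine Finset.sum_congr rfl fun i _ => ?_
    rw [map_mul, ← hf]; rfl
  have h2 := rho_map (kmod_hom η θ g hg) b e
  rw [he] at h2
  have h3 : (fun a : Aff η => (g a : Aff θ)) ∘ e = x := by
    funext i
    change ∑ j, f ((Pi.single i 1 : Fin (n + 1) → R) j) (x j) = x i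
    rw [Finset.sum_eq_single i]
    · simp
    · intro j _ hj
      simp [Pi.single_eq_of_ne hj]
    · simp
  exact h3 ▸ h2

end Pool.Agent.P.MP_cc10d1_gt.T
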