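import Pool.Agent.P.MP_cc10d1_gt.T.Iface

/-! Step LAB. -/

set_option autoImplicit false

namespace Pool.Agent.P.MP_cc10d1_gt.T

open Quandles

namespace LABaux

variable {Q L : Type} [Quandle Q]

/-- Relabelling. -/
def rl (π : Equiv.Perm (Lab L)) (p : Q × Lab L) : Q × Lab L := (p.1, π p.2)

theorem rl_hom (π : Equiv.Perm (Lab L)) : IsHom (rl (Q := Q) π) := fun _ _ => rfl

omit [Quandle Q] in
theorem rl_rl (π σ : Equiv.Perm (Lab L)) (l : List (Q × Lab L)) :
    (l.map (rl σ)).map (rl π) = l.map (rl (π * σ)) := by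
  rw [List.map_map]; rfl

omit [Quandle Q] in
theorem rl_one (l : List (Q × Lab L)) : l.map (rl 1) = l := List.map_id l

/-- The relabellings that can be reached by moves. -/
def St (l : List (Q × Lab L)) : Subgroup (Equiv.Perm (Lab L)) where
  carrier := {π | Eqv l (l.map (rl π))}
  one_mem' := Eqv.of_eq (rl_one l).symm
  mul_mem' := fun {π σ} (h1 : Eqv l _) (h2 : Eqv l _) =>
    h1.trans ((h2.map (rl_hom π)).trans (Eqv.of_eq (rl_rl π σ l)))
  inv_mem' := fun {π} (h : Eqv l _) => by
    have := h.map (rl_hom π⁻¹)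
    rw [rl_rl, inv_mul_cancel, rl_one] at this
    exact this.symm

theorem St_eqv {l l' : List (Q × Lab L)} (h : Eqv l l') {π : Equiv.Perm (Lab L)}
    (h' : π ∈ St l') : π ∈ St l :=
  (h.trans h').trans (h.map (rl_hom π)).symm

theorem lab_perm {l l' : List (Q × Lab L)} (h : Eqv l l') :
    (l.map Prod.snd).Perm (l'.map Prod.snd) :=
  Eqv.ind (φ := fun a b => (a.map Prod.snd).Perm (b.map Prod.snd))
    (fun u w x y => by
      simp only [List.map_append, List.map_cons]
      exact (List.Perm.swap _ _ _).append_left _)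
    (fun _ => List.Perm.refl _) (fun _ _ => List.Perm.symm) (fun _ _ _ => List.Perm.trans) h

theorem same_act (c : Q) (a b : Lab L) : ((c, b) : Q × Lab L) ◃ (c, a) = (c, a) :=
  Prod.ext Quandle.fix rfl

theorem swap_adj [DecidableEq (Lab L)] (u w : List (Q × Lab L)) (c : Q) (a b : Lab L)
    (hn : ((u ++ (c, a) :: (c, b) :: w).map Prod.snd).Nodup) :
    Equiv.swap a b ∈ St (u ++ (c, a) :: (c, b) :: w) := by
  have key : ∀ v : List (Q × Lab L), a ∉ v.map Prod.snd → b ∉ v.map Prod.snd →
      v.map (rl (Equiv.swap a b)) = v := by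
    intro v ha hb
    conv_rhs => rw [← List.map_id v]
    refine List.map_congr_left fun p hp => Prod.ext rfl ?_
    exact Equiv.swap_apply_of_ne_of_ne (fun h => ha (h ▸ List.mem_map_of_mem hp))
      (fun h => hb (h ▸ List.mem_map_of_mem hp))
  rw [List.map_append, List.map_cons, List.map_cons, List.nodup_append, List.nodup_cons,
    List.nodup_cons] at hn
  obtain ⟨-, ⟨h1, h2, -⟩, h3⟩ := hn
  have h := Eqv.mv u w (c, a) (c, b)
  rw [same_act] at h
  refine h.trans (Eqv.of_eq ?_)
  rw [List.map_append, List.map_cons, List.map_cons,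
    key u (fun h => h3 a h a (by simp) rfl) (fun h => h3 b h b (by simp) rfl),
    key w (fun h => h1 (List.mem_cons_of_mem _ h)) h2]
  simp only [rl, Equiv.swap_apply_left, Equiv.swap_apply_right]

theorem mono_perm {y : Q} {B B' : List (Q × Lab L)} (h : B.Perm B') (hy : ∀ p ∈ B, p.1 = y) :
    Eqv B B' := by
  induction h with
  | nil => exact Eqv.refl _
  | cons x _ ih => exact (ih fun p hp => hy p (List.mem_cons_of_mem _ hp)).cons x
  | swap x z w =>
    obtain ⟨c, a⟩ := x
    obtain ⟨c', b⟩ := z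
    obtain rfl : c = y := hy (c, a) (by simp)
    obtain rfl : c' = c := hy (c', b) (by simp)
    have := Eqv.swap ((c', b) : Q × Lab L) (c', a) w
    rwa [same_act] at this
  | trans h1 _ i1 i2 => exact (i1 hy).trans (i2 fun p hp => hy p (h1.symm.subset hp))

theorem pr_mono {y : Q} {W : List (Q × Lab L)} (hy : ∀ p ∈ W, p.1 = y) (q : Q) (a : Lab L) :
    pr sy W (q, a) = ((sy y ^ W.length) q, a) := by
  induction W generalizing q with
  | nil => rfl
  | cons x W ih =>
    rw [pr_cons, Equiv.Perm.mul_apply, List.length_cons, pow_succ, Equiv.Perm.mul_apply,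
      ← ih fun p hp => hy p (List.mem_cons_of_mem _ hp), ← hy x List.mem_cons_self]
    rfl

theorem lift_gp {P : List (Q × Lab L)} {g0 : Equiv.Perm Q} (h : g0 ∈ gp (P.map Prod.fst)) :
    ∃ g ∈ gp P, ∀ q a, g (q, a) = (g0 q, a) := by
  induction h using Subgroup.closure_induction with
  | mem g h =>
    obtain ⟨_, hy, rfl⟩ := h
    obtain ⟨p, hp, rfl⟩ := List.mem_map.1 hy
    exact ⟨sy p, sy_mem_gp hp, fun _ _ => rfl⟩
  | one => exact ⟨1, one_mem _, fun _ _ => rfl⟩
  | mul g k _ _ h1 h2 =>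
    obtain ⟨g', hg, e1⟩ := h1
    obtain ⟨k', hk, e2⟩ := h2
    exact ⟨g' * k', mul_mem hg hk, fun q a => by rw [Equiv.Perm.mul_apply, e2, e1]; rfl⟩
  | inv g _ h1 =>
    obtain ⟨g', hg, e1⟩ := h1
    refine ⟨g'⁻¹, inv_mem hg, fun q a => ?_⟩
    rw [Equiv.Perm.inv_eq_iff_eq, e1]; simp

theorem pigeon {α β : Type} [Finite β] [DecidableEq β] (f : α → β) (r : ℕ) (l : List α)
    (h : Nat.card β * r < l.length) : ∃ y, r < (l.filter fun p => decide (f p = y)).length := by
  have := Fintype.ofFinite β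
  have key : ∀ l : List α, ∑ y, (l.filter fun p => decide (f p = y)).length = l.length := by
    intro l
    simp only [← List.countP_eq_length_filter]
    induction l with
    | nil => simp
    | cons x l ih => simp [List.countP_cons, Finset.sum_add_distrib, ih]
  by_contra hc
  have h2 : ∑ y, (l.filter fun p => decide (f p = y)).length ≤ ∑ _y : β, r :=
    Finset.sum_le_sum fun y _ => not_lt.1 fun hy => hc ⟨y, hy⟩
  rw [key, Finset.sum_const, Finset.card_univ, smul_eq_mul, ← Nat.card_eq_fintype_card] at h2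
  omega

theorem top_of_swaps {α : Type} [Finite α] [DecidableEq α] (H : Subgroup (Equiv.Perm α)) (b : α)
    (h : ∀ a, Equiv.swap a b ∈ H) (π : Equiv.Perm α) : π ∈ H := by
  induction π using Equiv.Perm.swap_induction_on with
  | one => exact one_mem _
  | swap_mul f x z hxz ih =>
    refine mul_mem ?_ ih
    by_cases hz : z = b
    · exact hz ▸ h x
    · rw [← Equiv.swap_mul_swap_mul_swap hz hxz.symm, Equiv.swap_comm b x]
      exact mul_mem (mul_mem (h x) (h z)) (h x)

end LABaux

open LABaux in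
theorem p_LAB (hBLK : S_BLK) (hEXT : S_EXT) :
    S_LAB := by
  intro Q L _ _ _ l hconn hlen hnd hall π
  classical
  obtain ⟨y, hy⟩ := pigeon Prod.fst _ l hlen
  obtain ⟨l0, h0⟩ := hEXT (Q × Lab L) (fun p => decide (p.1 = y)) l
  have hBy : ∀ p ∈ l.filter fun p => decide (p.1 = y), p.1 = y := fun p hp =>
    of_decide_eq_true (List.mem_filter.1 hp).2
  generalize l.filter (fun p => decide (p.1 = y)) = B at hy h0 hBy
  have hr : 0 < Nat.card (Equiv.Perm Q) := Nat.card_pos
  obtain ⟨B1, W, rfl, hW⟩ : ∃ B1 W, B = B1 ++ W ∧ W.length = Nat.card (Equiv.Perm Q) :=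
    ⟨B.take (B.length - Nat.card (Equiv.Perm Q)), B.drop (B.length - Nat.card (Equiv.Perm Q)),
      (List.take_append_drop _ _).symm, by rw [List.length_drop]; omega⟩
  rw [List.length_append] at hy
  obtain ⟨p1, hp1⟩ := List.exists_mem_of_length_pos (show 0 < B1.length by omega)
  have hWy : ∀ p ∈ W, p.1 = y := fun p hp => hBy p (List.mem_append_right _ hp)
  have hW1 : pr sy W = 1 := Equiv.ext fun p => by
    rw [pr_mono hWy p.1 p.2, hW, sy_pow_card]; rfl
  rw [← List.append_assoc] at h0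
  have hyP : y ∈ (l0 ++ B1).map Prod.fst :=
    List.mem_map.2 ⟨p1, List.mem_append_right _ hp1, hBy p1 (List.mem_append_left _ hp1)⟩
  generalize l0 ++ B1 = P at h0 hyP
  obtain ⟨⟨c0, b0⟩, W', rfl⟩ := List.exists_cons_of_length_pos (show 0 < W.length by omega)
  obtain rfl : c0 = y := hWy _ List.mem_cons_self
  have adj : ∀ (u w : List (Q × Lab L)) (c : Q) (a b : Lab L),
      Eqv l (u ++ (c, a) :: (c, b) :: w) → Equiv.swap a b ∈ St l := fun u w c a b h =>
    St_eqv h (swap_adj u w c a b ((lab_perm h).nodup_iff.1 hnd))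
  refine top_of_swaps (St l) b0 (fun a => ?_) π
  obtain ⟨⟨c, a'⟩, hp, rfl⟩ := List.mem_map.1 ((lab_perm h0).subset (hall a))
  rcases List.mem_append.1 hp with hp | hp
  · have hc := (h0.map isHom_fst).conn hconn
    obtain ⟨g0, hg0, e0⟩ := hc c0 (by simp) c (List.mem_map.2 ⟨_, List.mem_append_left _ hp, rfl⟩)
    have hle : gp ((P ++ (c0, b0) :: W').map Prod.fst) ≤ gp (P.map Prod.fst) := by
      refine gp_mono fun z hz => ?_
      obtain ⟨p, hp', rfl⟩ := List.mem_map.1 hz
      rcases List.mem_append.1 hp' with h | h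
      · exact List.mem_map_of_mem h
      · rw [hWy p h]; exact hyP
    obtain ⟨g, hg, e1⟩ := lift_gp (hle hg0)
    obtain ⟨h1, h2⟩ := (hBLK _ _ hW1 P).2 g hg
    obtain ⟨u, v, rfl⟩ := List.append_of_mem hp
    have h3 := (((hBLK _ _ h1 v).1.cons (c, a')).left u)
    rw [List.map_cons, e1, e0] at h2 h3
    refine adj u (W'.map g ++ v) c a' b0 ((h0.trans h2).trans ?_)
    simpa only [List.append_assoc, List.cons_append] using h3
  · rcases List.mem_cons.1 hp with h | h
    · obtain ⟨-, rfl⟩ := Prod.mk.inj h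
      rw [Equiv.swap_self]
      exact one_mem _
    · obtain rfl : c = c0 := hWy _ hp
      obtain ⟨u, v, rfl⟩ := List.append_of_mem h
      rw [Equiv.swap_comm]
      refine adj P (u ++ v) c b0 a' (h0.trans (Eqv.left P (mono_perm ?_ hWy)))
      exact List.perm_middle.cons _

end Pool.Agent.P.MP_cc10d1_gt.T
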