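import Pool.Agent.P.MP_cc10d1_gt.T.Iface

/-! Step LAT. -/

set_option autoImplicit false

namespace Pool.Agent.P.MP_cc10d1_gt.T

open Quandles

theorem lat_conn {Q ι : Type*} [Quandle Q] [Finite Q]
    (h : ∀ p : Q, Function.Injective fun c : Q => c ◃ p) (w : ι → Q) : TConn w := by
  intro i j
  let S : Set Q := {a | ∃ φ m, hol w φ (w m) = a}
  have key : ∀ a ∈ S, ∃ φ, hol w φ = sy a := by
    rintro _ ⟨φ, m, rfl⟩
    exact ⟨φ * FreeGroup.of m * φ⁻¹, by rw [sy_hol]; simp [hol_of]⟩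
  let f : S → S := fun a => ⟨a.1 ◃ w i, by
    obtain ⟨φ, e⟩ := key a.1 a.2
    exact ⟨φ, i, by rw [e, sy_apply]⟩⟩
  have hf : Function.Injective f := fun a b e => Subtype.ext (h (w i) (congrArg Subtype.val e))
  obtain ⟨a, ha⟩ := Finite.surjective_of_injective hf ⟨w j, 1, j, by simp⟩
  obtain ⟨φ, e⟩ := key a.1 a.2
  exact ⟨φ, by rw [e, sy_apply]; exact congrArg Subtype.val ha⟩

section
variable (R : Type) [CommRing R]

def lat_aff : Subgroup (Equiv.Perm (R × R)) where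
  carrier := {g | ∃ (u : Rˣ) (p q : R), ∀ a b : R, g (a, b) = (((u * a + p : R), (↑u⁻¹ * b + q : R)) : R × R)}
  one_mem' := ⟨1, 0, 0, fun a b => by simp⟩
  mul_mem' := by
    rintro g h ⟨u, p, q, hg⟩ ⟨v, r, s, hh⟩
    refine ⟨u * v, u * r + p, ↑u⁻¹ * s + q, fun a b => ?_⟩
    rw [Equiv.Perm.mul_apply, hh, hg]
    simp only [mul_inv_rev, Units.val_mul]
    congr 1 <;> ring
  inv_mem' := by
    rintro g ⟨u, p, q, hg⟩
    refine ⟨u⁻¹, -(↑u⁻¹ * p), -(u * q), fun a b => ?_⟩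
    rw [Equiv.Perm.inv_eq_iff_eq, hg]
    simp only [inv_inv, mul_add, mul_neg, Units.mul_inv_cancel_left, Units.inv_mul_cancel_left]
    congr 1 <;> ring

def lat_tr : Subgroup (Equiv.Perm (R × R)) where
  carrier := {g | ∃ (p q : R), ∀ a b : R, g (a, b) = (((a + p : R), (b + q : R)) : R × R)}
  one_mem' := ⟨0, 0, fun a b => by simp⟩
  mul_mem' := by
    rintro g h ⟨p, q, hg⟩ ⟨r, s, hh⟩
    refine ⟨r + p, s + q, fun a b => ?_⟩
    rw [Equiv.Perm.mul_apply, hh, hg, add_assoc, add_assoc]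
  inv_mem' := by
    rintro g ⟨p, q, hg⟩
    refine ⟨-p, -q, fun a b => ?_⟩
    rw [Equiv.Perm.inv_eq_iff_eq, hg]
    simp

theorem lat_comm : ⁅lat_aff R, lat_aff R⁆ ≤ lat_tr R := by
  refine Subgroup.commutator_le.2 ?_
  rintro g ⟨u, p, q, hg⟩ h ⟨v, r, s, hh⟩
  refine ⟨u * r + p - (v * p + r), ↑u⁻¹ * s + q - (↑v⁻¹ * q + s), fun a b => ?_⟩
  obtain ⟨⟨c, d⟩, e⟩ := (h * g).surjective (a, b)
  have e2 : (g * h * g⁻¹ * h⁻¹) (a, b) = g (h (c, d)) := by
    rw [← e]; simp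
  rw [Equiv.Perm.mul_apply] at e
  have e3 := (hh _ _).symm.trans ((congrArg h (hg c d)).symm.trans e)
  obtain ⟨h1, h2⟩ := Prod.mk.inj e3
  refine e2.trans ?_
  refine (congrArg g (hh c d)).trans ((hg _ _).trans ?_)
  rw [← h1, ← h2]
  congr 1 <;> ring

theorem lat_comm2 : ⁅lat_tr R, lat_tr R⁆ ≤ ⊥ := by
  refine Subgroup.commutator_le.2 ?_
  rintro g ⟨p, q, hg⟩ h ⟨r, s, hh⟩
  rw [Subgroup.mem_bot, commutatorElement_eq_one_iff_mul_comm]
  refine Equiv.ext fun ⟨a, b⟩ => ?_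
  refine ((congrArg g (hh a b)).trans (hg _ _)).trans
    (Eq.trans ?_ ((congrArg h (hg a b)).trans (hh _ _)).symm)
  congr 1 <;> exact add_right_comm _ _ _

end

theorem p_LAT :
    S_LAT := by
  intro R _ _ t ht ι w
  constructor
  · refine lat_conn (fun p a b e => ?_) w
    obtain ⟨h1, h2⟩ := Prod.mk.inj e
    have ht' : IsUnit (1 - ((t⁻¹ : Rˣ) : R)) := by
      have : (1 - ((t⁻¹ : Rˣ) : R)) = -(t⁻¹ : Rˣ) * (1 - (t : R)) := by
        rw [mul_sub, neg_mul, neg_mul, Units.inv_mul]; ring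
      rw [this]
      exact (Units.isUnit _).neg.mul ht
    have k : ∀ (s : Rˣ), IsUnit (1 - (s : R)) → ∀ x y z : R, afa (mu s) x z = afa (mu s) y z → x = y := by
      intro s hs x y z e
      refine hs.mul_left_cancel ?_
      simp only [afa, mu_apply] at e
      linear_combination e
    exact Prod.ext (k t ht _ _ _ h1) (k t⁻¹ ht' _ _ _ h2)
  · intro φ hφ
    let F : FreeGroup ι →* Equiv.Perm (R × R) := hol (Q := Aff (mu t) × Aff (mu t⁻¹)) w
    have h0 : (⊤ : Subgroup (FreeGroup ι)).map F ≤ lat_aff R := by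
      rw [← MonoidHom.range_eq_map]
      refine (range_lift (G := Equiv.Perm (R × R)) fun i => sy (Q := Aff (mu t) × Aff (mu t⁻¹)) (w i)).trans_le ?_
      rw [Hx, Subgroup.closure_le]
      rintro _ ⟨i, rfl⟩
      refine ⟨t, (1 - t) * (show R from (w i).1), (1 - ↑t⁻¹) * (show R from (w i).2), fun a b => ?_⟩
      refine Prod.ext ?_ ?_
      · change afa (mu t) (show R from (w i).1) a = _
        simp only [afa, mu_apply]; ring
      · change afa (mu t⁻¹) (show R from (w i).2) b = _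
        simp only [afa, mu_apply]; ring
    have h2 : (derivedSeries (FreeGroup ι) 2).map F ≤ ⊥ := by
      simp only [derivedSeries_succ, derivedSeries_zero, Subgroup.map_commutator]
      have h1 := (Subgroup.commutator_mono h0 h0).trans (lat_comm R)
      exact (Subgroup.commutator_mono h1 h1).trans (lat_comm2 R)
    exact Subgroup.mem_bot.1 (h2 ⟨φ, hφ, rfl⟩)

end Pool.Agent.P.MP_cc10d1_gt.T
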