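import Pool.Agent.P.MP_cc10d1_gt.T.Iface

/-! Step LC. -/

set_option autoImplicit false

namespace Pool.Agent.P.MP_cc10d1_gt.T

open Quandles

theorem p_LC (hSTAB : S_STAB) (hCOX : S_COX) :
    S_LC := by
  intro Q _ _
  obtain ⟨n0, h0⟩ := hSTAB Q
  refine ⟨n0, fun n hn x hx d L hL => ?_⟩
  obtain ⟨h1, h2⟩ := h0 n hn x hx
  refine sup_gam (closure_sg n) (fun i => ?_) d
  obtain ⟨b, hb⟩ := h2 i
  obtain ⟨l, hl, hl'⟩ := h1 (pm n b⁻¹)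
  refine ⟨l⁻¹ * b⁻¹, hCOX n _ (by rw [map_mul, map_inv, hl', inv_mul_cancel]), ?_⟩
  have e : l⁻¹ * b⁻¹ * sg i * (l⁻¹ * b⁻¹)⁻¹ = l⁻¹ * (b⁻¹ * (sg i * b)) * l := by group
  rw [e]
  refine mul_mem (mul_mem (inv_mem (hL l hl)) (hL _ ?_)) (hL l hl)
  rw [rho_mul, rho_mul, rho_sg_fix hb, rho_inv_rho]

end Pool.Agent.P.MP_cc10d1_gt.T
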