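import Pool.Agent.P.MP_cc10d1_gt.T.Iface

/-! Step MB. -/

set_option autoImplicit false

namespace Pool.Agent.P.MP_cc10d1_gt.T

open Quandles

theorem p_MB (hGRP : S_GRP) (hSTABW : S_STABW) :
    S_MB := by
  intro G _ _ d n w hw
  obtain ⟨n0, h0⟩ := hGRP G
  obtain ⟨m, w1, e, hm, hs, hk, he⟩ := hSTABW n w hw n0
  obtain ⟨c, hc, ht⟩ := h0 m hm d (toBr w1) e (by rw [pm_toBr]; exact hk) he
  obtain ⟨w2, h2⟩ := toBr_surj (toBr w1 * c)
  refine ⟨m, w1, w2, hs, hk, ?_, ?_⟩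
  · rw [h2, inv_mul_cancel_left]; exact hc
  · rw [h2]; exact ht

end Pool.Agent.P.MP_cc10d1_gt.T
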