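import Pool.Agent.P.MP_cc10d1_gt.T.Iface

/-! Step MOM. -/

set_option autoImplicit false

namespace Pool.Agent.P.MP_cc10d1_gt.T

open Quandles

open Classical in
theorem mom_desc {Ω : Type} [Fintype Ω] (p : Ω → Prop) [DecidablePred p] (j : ℕ) :
    (Finset.univ.filter p).card.descFactorial j =
      (Finset.univ.filter fun x : Fin j → Ω => Function.Injective x ∧ ∀ k, p (x k)).card := by
  have h := Fintype.card_embedding_eq (α := Fin j) (β := {a // p a})
  rw [Fintype.card_fin, Fintype.card_subtype] at h
  rw [← h, ← Fintype.card_subtype]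
  refine Fintype.card_congr
    { toFun := fun e => ⟨fun k => (e k).1,
        fun a b hab => e.injective (Subtype.ext hab), fun k => (e k).2⟩
      invFun := fun x => ⟨fun k => ⟨x.1 k, x.2.2 k⟩,
        fun a b hab => x.2.1 (congrArg Subtype.val hab)⟩
      left_inv := fun e => rfl
      right_inv := fun x => rfl }

/-- The number of elements that carry one tuple to another. -/
def mom_N {Ω : Type} [DecidableEq Ω] (H : Subgroup (Equiv.Perm Ω)) [Fintype H] {j : ℕ}
    (x y : Fin j → Ω) : ℕ :=
  (Finset.univ.filter fun h : H => ∀ k, h.1 (x k) = y k).card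

theorem mom_N_left {Ω : Type} [DecidableEq Ω] (H : Subgroup (Equiv.Perm Ω)) [Fintype H] {j : ℕ}
    {x x' : Fin j → Ω} (y : Fin j → Ω) {g : Equiv.Perm Ω} (hg : g ∈ H) (h : ∀ k, g (x k) = x' k) :
    mom_N H x' y = mom_N H x y := by
  unfold mom_N
  refine Finset.card_equiv (Equiv.mulRight (⟨g, hg⟩ : H)) fun a => ?_
  simp only [Finset.mem_filter, Finset.mem_univ, true_and, Equiv.coe_mulRight, Subgroup.coe_mul,
    Equiv.Perm.mul_apply, h]

theorem mom_N_right {Ω : Type} [DecidableEq Ω] (H : Subgroup (Equiv.Perm Ω)) [Fintype H] {j : ℕ}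
    (x : Fin j → Ω) {y y' : Fin j → Ω} {g : Equiv.Perm Ω} (hg : g ∈ H)
    (h : ∀ k, g (y k) = y' k) : mom_N H x y = mom_N H x y' := by
  unfold mom_N
  refine Finset.card_equiv (Equiv.mulLeft (⟨g, hg⟩ : H)) fun a => ?_
  simp only [Finset.mem_filter, Finset.mem_univ, true_and, Equiv.coe_mulLeft, Subgroup.coe_mul,
    Equiv.Perm.mul_apply, ← h, EmbeddingLike.apply_eq_iff_eq]

theorem mom_N_sum {Ω : Type} [Fintype Ω] [DecidableEq Ω] (H : Subgroup (Equiv.Perm Ω))
    [Fintype H] {j : ℕ} (x : Fin j → Ω) : ∑ y, mom_N H x y = Fintype.card H := by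
  classical
  rw [← Finset.card_univ, Finset.card_eq_sum_card_fiberwise (s := (Finset.univ : Finset H))
    (t := (Finset.univ : Finset (Fin j → Ω))) (f := fun h k => h.1 (x k))
    (fun _ _ => Finset.mem_coe.2 (Finset.mem_univ _))]
  refine Finset.sum_congr rfl fun y _ => ?_
  unfold mom_N
  congr 1
  ext h
  simp only [Finset.mem_filter, Finset.mem_univ, true_and, funext_iff]

theorem p_MOM :
    S_MOM := by
  intro Ω I _ _ _ τ H _ β j hH hβ hc ht
  classical
  have he : ∀ i : I, ∃ e : Fin j → Ω, Function.Injective e ∧ ∀ k, τ (e k) = i := by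
    intro i
    have h1 := hc i
    rw [Nat.card_eq_fintype_card] at h1
    obtain ⟨e⟩ := Function.Embedding.nonempty_of_card_le
      (α := Fin j) (β := {x // τ x = i}) (by rwa [Fintype.card_fin])
    exact ⟨fun k => (e k).1, fun a b hab => e.injective (Subtype.ext hab), fun k => (e k).2⟩
  choose e he1 he2 using he
  have hb : ∀ c : Fin j → I, Function.Injective fun k => e (c k) k := by
    intro c a b hab
    have h1 : c a = c b := by
      rw [← he2 (c a) a, ← he2 (c b) b]
      exact congrArg τ hab
    simp only [h1] at hab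
    exact he1 _ hab
  have key : ∀ x : Fin j → Ω,
      (Finset.univ.filter fun h : H => Function.Injective x ∧ ∀ k, β (h.1 (x k)) = x k).card =
        ∑ c : Fin j → I, mom_N H (fun k => e (c k) k) x := by
    intro x
    by_cases hx : Function.Injective x
    · rw [Finset.sum_eq_single (fun k => τ (x k))]
      · obtain ⟨g, hg, hgx⟩ := ht (fun k => e (τ (x k)) k) x (hb _) hx (fun k => he2 _ _)
        obtain ⟨g', hg', hgx'⟩ := ht (fun k => β.symm (x k)) x (β.symm.injective.comp hx) hx
          (fun k => by rw [← hβ, Equiv.apply_symm_apply])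
        rw [← mom_N_left H x hg hgx, ← mom_N_right H x hg' hgx']
        unfold mom_N
        congr 1
        ext h
        simp only [Finset.mem_filter, Finset.mem_univ, true_and, hx, Equiv.eq_symm_apply]
      · intro c _ hne
        unfold mom_N
        rw [Finset.card_eq_zero, Finset.filter_eq_empty_iff]
        intro h _ hh
        refine hne (funext fun k => ?_)
        rw [← hh k, hH _ h.2, he2]
      · intro h
        exact absurd (Finset.mem_univ _) h
    · rw [Finset.sum_eq_zero]
      · simp only [hx, false_and, Finset.filter_false, Finset.card_empty]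
      · intro c _
        unfold mom_N
        rw [Finset.card_eq_zero, Finset.filter_eq_empty_iff]
        intro h _ hh
        refine hx fun a b hab => hb c (h.1.injective ?_)
        rw [hh a, hh b, hab]
  have s1 : ∑ h : H, ((Finset.univ.filter fun x => β (h.1 x) = x).card).descFactorial j =
      ∑ x : Fin j → Ω, (Finset.univ.filter fun h : H =>
        Function.Injective x ∧ ∀ k, β (h.1 (x k)) = x k).card := by
    simp only [mom_desc]
    simp only [Finset.card_filter]
    rw [Finset.sum_comm]
    refine Finset.sum_congr rfl fun x _ => Finset.sum_congr rfl fun h _ => ?_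
    congr
  rw [s1]
  simp only [key]
  rw [Finset.sum_comm]
  simp only [mom_N_sum, Finset.sum_const, Finset.card_univ, Fintype.card_pi, Finset.prod_const,
    Fintype.card_fin, smul_eq_mul]

end Pool.Agent.P.MP_cc10d1_gt.T
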