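import Pool.Agent.P.MP_cc10d1_gt.T.Iface

/-! Step NF1. -/

set_option autoImplicit false

namespace Pool.Agent.P.MP_cc10d1_gt.T

open Quandles

theorem nf1_list (hBLK : S_BLK) (hPIG : S_PIG) (Q : Type) [Quandle Q] [Finite Q] :
    ∀ (m : ℕ) (l : List Q), l.length = m → Conn l → l ≠ [] →
      ∃ (l0 : List Q) (y : Q) (k : ℕ), y ∈ l0 ∧
        l0.length ≤ Nat.card Q * Nat.card (Equiv.Perm Q) ∧ Eqv l (l0 ++ List.replicate k y) := by
  intro m
  induction m using Nat.strong_induction_on with
  | _ m ih =>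
    intro l hm hc hne
    by_cases hl : l.length ≤ Nat.card Q * Nat.card (Equiv.Perm Q)
    · obtain ⟨y, hy⟩ := List.exists_mem_of_ne_nil l hne
      exact ⟨l, y, 0, hy, hl, Eqv.of_eq (by simp)⟩
    · obtain ⟨l1, z, hz, he, _, hc1⟩ := hPIG Q (Nat.card (Equiv.Perm Q)) l (by omega)
      have hr : 0 < Nat.card (Equiv.Perm Q) := Nat.card_pos
      have hlen := he.length
      rw [List.length_append, List.length_replicate] at hlen
      obtain ⟨l0, y, k, hy, hl0, he0⟩ :=
        ih l1.length (by omega) l1 rfl (hc1 hc) (List.ne_nil_of_mem hz)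
      obtain ⟨b, hb, g, hg, hgb⟩ := he0.mem.1 y (List.mem_append_left _ hy)
      obtain ⟨h, hh, hhz⟩ := hc1 hc z hz b hb
      have hW : pr sy (List.replicate (Nat.card (Equiv.Perm Q)) z) = 1 := by
        rw [pr_replicate, sy_pow_card]
      have hgh : g * h ∈ gp (l0 ++ List.replicate k y) := he0.gp ▸ mul_mem hg hh
      have h2 := ((hBLK Q _ hW (l0 ++ List.replicate k y)).2 (g * h) hgh).2
      rw [List.map_replicate, Equiv.Perm.mul_apply, hhz, hgb] at h2
      refine ⟨l0, y, k + Nat.card (Equiv.Perm Q), hy, hl0, ?_⟩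
      refine he.trans ((he0.right _).trans (h2.trans (Eqv.of_eq ?_)))
      rw [List.append_assoc, List.replicate_append_replicate]

theorem nf1_ofFn {Q : Type} (n k : ℕ) (l0 : List Q) (y : Q) (h : l0.length + k = n + 1) :
    List.ofFn (fun i : Fin (n + 1) => l0.getD i y) = l0 ++ List.replicate k y := by
  refine List.ext_getElem (by simp [h]) fun i h1 h2 => ?_
  rw [List.getElem_ofFn]
  by_cases hi : i < l0.length
  · rw [List.getElem_append_left hi]
    simp [hi]
  · rw [List.getElem_append_right (by omega), List.getElem_replicate]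
    simp [List.getElem?_eq_none (show l0.length ≤ i by omega)]

theorem p_NF1 (hBRIDGE : S_BRIDGE) (hBLK : S_BLK) (hPIG : S_PIG) :
    S_NF1 := by
  intro Q _ _
  classical
  have hfin := List.finite_length_le Q (Nat.card Q * Nat.card (Equiv.Perm Q))
  have : Fintype Q := Fintype.ofFinite Q
  refine ⟨(hfin.toFinset ×ˢ (Finset.univ : Finset Q)).card, fun n =>
    ⟨(hfin.toFinset ×ˢ (Finset.univ : Finset Q)).image
      fun p => fun i : Fin (n + 1) => p.1.getD i p.2, Finset.card_image_le, fun x hx => ?_⟩⟩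
  obtain ⟨l0, y, k, _, hl0, he⟩ := nf1_list hBLK hPIG Q _ (List.ofFn x) rfl ((tConn_iff x).1 hx)
    (by simp)
  have hlen := he.length
  rw [List.length_ofFn, List.length_append, List.length_replicate] at hlen
  refine ⟨fun i : Fin (n + 1) => l0.getD i y, Finset.mem_image.2 ⟨(l0, y), ?_, rfl⟩, ?_⟩
  · exact Finset.mem_product.2 ⟨hfin.mem_toFinset.2 hl0, Finset.mem_univ _⟩
  · rw [hBRIDGE, nf1_ofFn n k l0 y hlen.symm]
    exact he

end Pool.Agent.P.MP_cc10d1_gt.T
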