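import Pool.Agent.P.MP_cc10d1_gt.T.Iface

/-! Step NF2. -/

set_option autoImplicit false

namespace Pool.Agent.P.MP_cc10d1_gt.T

open Quandles

theorem p_NF2 (hBRIDGE : S_BRIDGE) (hBLK : S_BLK) (hPIG : S_PIG) :
    S_NF2 := by
  classical
  intro Q _ _ N
  refine ⟨Nat.card Q * (N * Nat.card (Equiv.Perm Q)), fun n hn x hx ⟨i, j, hij⟩ => ?_⟩
  set r := Nat.card (Equiv.Perm Q) with hr
  have r0 : 0 < r := Nat.card_pos
  obtain ⟨l0, y, h1, h2, h3, h4⟩ := hPIG Q (N * r) (List.ofFn x) (by rw [List.length_ofFn]; omega)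
  obtain ⟨g, hg, hy⟩ : ∃ g ∈ gp l0, g y ≠ y := by
    by_contra hc
    push Not at hc
    have key : ∀ k, x k = y := fun k => by
      obtain ⟨b, hb, g, hg, e⟩ := h2.mem.2 (x k) (List.mem_ofFn.2 ⟨k, rfl⟩)
      rw [← h2.gp, ← h3] at hg
      obtain rfl : b = y := by
        rcases List.mem_append.1 hb with hb | hb
        · obtain ⟨g', hg', rfl⟩ := h4 ((tConn_iff x).1 hx) y h1 b hb
          exact hc g' hg'
        · exact List.eq_of_mem_replicate hb
      rw [← e, hc g hg]
    exact hij ((key i).trans (key j).symm)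
  have h5 : ∀ k : Fin N, ∃ z : {y : Fin (n + 1) → Q // Orb x y}, List.ofFn z.1 =
      l0 ++ List.replicate (k * r) (g y) ++ List.replicate ((N - k) * r) y := fun k => by
    have e1 : Eqv (List.ofFn x)
        (l0 ++ List.replicate (k * r) (g y) ++ List.replicate ((N - k) * r) y) := by
      have e2 := ((hBLK Q (List.replicate (k * r) y) (by
        rw [pr_replicate, mul_comm, pow_mul, sy_pow_card, one_pow]) l0).2 g hg).2.right
          (List.replicate ((N - k) * r) y)
      rw [List.map_replicate, List.append_assoc l0 (List.replicate _ y), ← List.replicate_add,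
        ← add_mul, Nat.add_sub_cancel' k.2.le] at e2
      exact h2.trans e2
    generalize l0 ++ List.replicate (k * r) (g y) ++ List.replicate ((N - k) * r) y = L at e1 ⊢
    have e2 : n + 1 = L.length := by rw [← e1.length, List.length_ofFn]
    have e3 : List.ofFn (fun i : Fin (n + 1) => L.get (i.cast e2)) = L :=
      List.ext_getElem (by rw [List.length_ofFn, e2]) fun i _ _ => by rw [List.getElem_ofFn]; rfl
    exact ⟨⟨_, (hBRIDGE Q n _ _).2 (e3.symm ▸ e1)⟩, e3⟩
  choose z hz using h5
  refine (Nat.card_fin N).symm.le.trans (Nat.card_le_card_of_injective z fun a b e => ?_)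
  have e1 := congrArg (List.count (g y)) ((hz a).symm.trans ((e ▸ rfl : _ = _).trans (hz b)))
  simp only [List.count_append, List.count_replicate, beq_self_eq_true, if_true,
    beq_iff_eq, hy.symm, if_false] at e1
  exact Fin.ext (Nat.eq_of_mul_eq_mul_right r0 (by omega))

end Pool.Agent.P.MP_cc10d1_gt.T
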