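import Pool.Agent.P.MP_cc10d1_gt.T.Iface

/-! Step NOOM. -/

set_option autoImplicit false

namespace Pool.Agent.P.MP_cc10d1_gt.T

open Quandles

theorem noom_nonconst {ι E : Type} [Group E] {x : ι → E} (h : Om x) : ∃ i j, x i ≠ x j := by
  by_contra hc
  push Not at hc
  apply h.1.2.1
  rw [Dx, Subgroup.commutator_eq_bot_iff_le_centralizer, Hx, Subgroup.closure_le]
  rintro _ ⟨i, rfl⟩
  rw [SetLike.mem_coe, Subgroup.mem_centralizer_iff]
  intro g hg
  have : g ∈ Subgroup.centralizer {x i} := by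
    refine (Subgroup.closure_le _).2 ?_ hg
    rintro _ ⟨j, rfl⟩
    rw [SetLike.mem_coe, Subgroup.mem_centralizer_iff]
    rintro _ rfl
    rw [hc i j]
  exact ((Subgroup.mem_centralizer_iff.1 this) _ rfl).symm

theorem p_NOOM (hRT : S_RT) (hDER2 : S_DER2) (hNUM : S_NUM) (hNF1 : S_NF1) (hNF2 : S_NF2) (hCLS : S_CLS) (hKER : S_KER) :
    S_NOOM := by
  intro E _ _ R _ _ t ht
  haveI : Finite (Quandle.Conj E) := inferInstanceAs (Finite E)
  obtain ⟨S, hS⟩ := hNF1 (Quandle.Conj E)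
  obtain ⟨k, hk, hk'⟩ := hNUM S
  obtain ⟨c, hc⟩ := hCLS E
  obtain ⟨n1, hn1⟩ := hNF2 (Quandle.Conj E) (k * c)
  choose n2 hn2 using hRT E R t ht
  refine ⟨max n1 ((Finset.range (k + 1)).sup n2), fun n hn d β => ?_⟩
  obtain ⟨F, hF, hF'⟩ := hS n
  refine hDER2 (Br n) (Fin (n + 1) → E) (Subgroup (FreeGroup (Fin (n + 1))))
    (rho (Quandle.Conj E) n) Om kr ((rho (Aff (mu t)) n).ker ⊓ CC n d) β S k c
    (fun b x hx => (hKER E n b x).2.1 hx) (fun b x y hxy => (hKER E n b x).2.2 y hxy)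
    ⟨F, hF, fun x hx => hF' x ((gConn_iff x).1 hx.1.1)⟩ (fun x => hc _ x)
    (fun x hx => hn1 n (le_trans (le_max_left _ _) hn) x ((gConn_iff x).1 hx.1.1)
      (noom_nonconst hx)) (fun j hj x y hx hxy h1 h2 => ?_) hk hk'
  refine hn2 j n (le_trans ?_ (le_trans (le_max_right _ _) hn)) d x y hx hxy h1 h2
  exact Finset.le_sup (f := n2) (Finset.mem_range.2 (Nat.lt_succ_of_le hj))

end Pool.Agent.P.MP_cc10d1_gt.T
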