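import Pool.Agent.P.MP_cc10d1_gt.T.Iface
import Pool.Agent.P.MP_cc10d1_gt.Ind.Iface

/-! From the braid group form to the word form. -/

set_option autoImplicit false

namespace Pool.Agent.P.MP_cc10d1_gt.T

open Quandles

theorem gam_map {G H I : Type*} [Group G] [Group H] (f : G →* H) (hf : Function.Surjective f)
    (s : I → G) (d : ℕ) : (gam s d).map f = gam (f ∘ s) d := by
  have h0 : (PN s).map f = PN (f ∘ s) := by
    rw [PN, PN, Subgroup.map_normalClosure _ _ hf, ← Set.range_comp]
    congr 2
    funext i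
    simp
  induction d with
  | zero => exact h0
  | succ d ih => rw [gam, gam, Subgroup.map_commutator, ih, h0]

theorem mk_toBr {n : ℕ} (w : Word n) :
    PresentedGroup.mk (rels n) (FreeGroup.mk w) = toBr w := by
  induction w with
  | nil => exact map_one _
  | cons c w ih =>
    rw [toBr_cons, ← ih, ← List.singleton_append, ← FreeGroup.mul_mk, map_mul]
    congr 1
    obtain ⟨i, s⟩ := c
    cases s
    · rw [← of_inv_eq, map_inv]; rfl
    · rfl

theorem sw_of_mb (h : S_MB) : SW := by
  intro G _ _ d m b hb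
  obtain ⟨m', w1, w2, hs, -, hc, ht⟩ := h G d m b hb
  have e := gam_map (PresentedGroup.mk (rels m')) (PresentedGroup.mk_surjective _)
    FreeGroup.of d
  have hc' : (toBr w1)⁻¹ * toBr w2 ∈ (gam FreeGroup.of d).map (PresentedGroup.mk (rels m')) := by
    rw [e]; exact hc
  obtain ⟨c, hc0, ec⟩ := hc'
  obtain ⟨t, rfl⟩ := exists_mk c
  refine ⟨m', w1, w1 ++ t, (FreeGroup.mk t)⁻¹, ?_, Subgroup.inv_mem _ hc0, ?_, ?_⟩
  · clear hc ht ec hc0 e
    generalize (⟨m', w1⟩ : Σ n, Word n) = z at hs
    induction hs with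
    | refl => exact StabOf.refl _
    | tail _ h2 ih =>
      cases h2 with
      | stab n w s => exact StabOf.step _ n w s ih
  · rw [← FreeGroup.mul_mk, mul_inv_cancel_right]
  · intro x hx
    refine ht x ?_
    rw [mk_toBr] at ec
    rw [← rho_toBr_fix, toBr_append, ec, mul_inv_cancel_left] at hx
    exact hx

end Pool.Agent.P.MP_cc10d1_gt.T
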