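import Pool.Agent.P.MP_cc10d1_gt.T.Iface
import Pool.Agent.P.MP_cc10d1_gt.T.SWord

/-! Step Main. -/

set_option autoImplicit false

namespace Pool.Agent.P.MP_cc10d1_gt.T

open Quandles

theorem stabOf_mk {a b : Σ n, Word n} (h : StabOf a b) (ha : IsKnot a.2) :
    Knot.mk b.2 (h.isKnot ha) = Knot.mk a.2 ha := by
  induction h with
  | refl => rfl
  | step n w s h ih => exact (mk_stab (h.isKnot ha) s).trans ih

theorem wd_id {m : ℕ} (w : Word m) : wd id w = w := List.map_id' w

theorem col_of_triv (X : Type*) [Quandle X] {n : ℕ} (w : Word n) (h : Triv X (toBr w)) :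
    col X w = Nat.card X := by
  refine Nat.card_congr ⟨fun x => x.1 0, fun a => ⟨fun _ => a, ?_⟩, fun x => Subtype.ext ?_,
    fun _ => rfl⟩
  · rw [← rho_toBr_fix]; exact rho_const _ a
  · funext i
    exact h x.1 ((rho_toBr_fix w x.1).2 x.2) 0 i

theorem p_Main (hMB : S_MB) (hXG : S_XG) :
    S_Main := by
  intro N d K
  induction K using Knot.ind with
  | h n w hw =>
  obtain ⟨m, b, l, c, hs, hc, e, ht⟩ := sw_of_mb hMB (Equiv.Perm (Fin N)) d n w hw
  have hb : IsKnot b := hs.isKnot hw
  have hp : perm b = perm l := by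
    have := (same_of_gam (A := ℤ) id hc e []).1
    simpa only [List.nil_append, wd_id] using this
  have hl : IsKnot l := (isKnot_congr hp).1 hb
  refine ⟨Knot.mk l hl, fun X _ _ hX => ?_, fun A _ v hv => ?_⟩
  · rw [hcol_mk]
    refine col_of_triv X l (hXG N m (toBr l) (by rw [pm_toBr]; exact hl) ?_ X hX)
    intro x hx
    exact ht x ((rho_toBr_fix l x).1 hx)
  · have := (same_of_gam (A := A) id hc e []).2 v hv
    simp only [List.nil_append, wd_id] at this
    rw [val_mk v hb, val_mk v hl] at this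
    rw [← this]
    exact congrArg v (stabOf_mk hs hw)

end Pool.Agent.P.MP_cc10d1_gt.T
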