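import Pool.Agent.P.MP_cc10d1_gt.T.Iface
import Pool.Agent.P.MP_cc10d1_gt.T.TMain

/-! Step ORD. -/

set_option autoImplicit false

namespace Pool.Agent.P.MP_cc10d1_gt.T

open Quandles

theorem p_ORD (hBR : S_BR) :
    S_ORD := by
  intro d n u w h hu
  have e := gam_map (PresentedGroup.mk (rels n)) (PresentedGroup.mk_surjective _)
    FreeGroup.of d
  have hc : (toBr u)⁻¹ * toBr w ∈ (gam FreeGroup.of d).map (PresentedGroup.mk (rels n)) := by
    rw [e]; exact h
  obtain ⟨c, hc0, ec⟩ := hc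
  obtain ⟨t, rfl⟩ := exists_mk c
  rw [mk_toBr] at ec
  have e1 : toBr (u ++ t) = toBr w := by rw [toBr_append, ec, mul_inv_cancel_left]
  have e2 : FreeGroup.mk (u ++ t) = FreeGroup.mk u * FreeGroup.mk t := FreeGroup.mul_mk.symm
  have hp : perm (u ++ t) = perm u := by
    have := (same_of_gam (A := ℤ) id hc0 e2 []).1
    simpa only [List.nil_append, wd_id] using this
  have h1 : IsKnot (u ++ t) := (isKnot_congr hp).2 hu
  have hw : IsKnot w := (isKnot_congr (by rw [← pm_toBr, ← pm_toBr, e1])).1 h1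
  refine ⟨hw, fun A _ v hv => ?_⟩
  have := (same_of_gam (A := A) id hc0 e2 []).2 v hv
  simp only [List.nil_append, wd_id] at this
  rw [val_mk v h1, val_mk v hu, hBR n _ _ e1 h1 hw] at this
  exact this

end Pool.Agent.P.MP_cc10d1_gt.T
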