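import Pool.Agent.P.MP_cc10d1_gt.T.Iface

/-! Step PERF. -/

set_option autoImplicit false

namespace Pool.Agent.P.MP_cc10d1_gt.T

open Quandles

theorem perf_map {Z H : Type} [Group H] (g : Z → H) :
    (dis (FreeGroup.of : Z → FreeGroup Z)).map (FreeGroup.lift g) = dis g := by
  unfold dis
  rw [MonoidHom.map_closure]
  congr 1
  ext x
  constructor
  · rintro ⟨_, ⟨a, b, rfl⟩, rfl⟩
    exact ⟨a, b, by simp⟩
  · rintro ⟨a, b, rfl⟩
    exact ⟨_, ⟨a, b, rfl⟩, by simp⟩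

theorem perf_conj {Z G : Type} [Quandle Z] [Group G] {e : Z → G} (he : CHom e) (b : Z) :
    (dis e).map (MulAut.conj (e b)).toMonoidHom ≤ dis e := by
  unfold dis
  rw [MonoidHom.map_closure, Subgroup.closure_le]
  rintro _ ⟨_, ⟨a, c, rfl⟩, rfl⟩
  refine Subgroup.subset_closure ⟨b ◃ a, b ◃ c, ?_⟩
  rw [he.conj, he.conj]
  simp only [MulEquiv.coe_toMonoidHom, MulAut.conj_apply]
  group

theorem p_PERF (hDZ : S_DZ) :
    S_PERF := by
  intro Z E _ _ f hZ hf hinj hperf G _ e he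
  apply le_antisymm
  · exact Subgroup.commutator_le.2 fun _ ha _ hb =>
      mul_mem (mul_mem (mul_mem ha hb) (inv_mem ha)) (inv_mem hb)
  · conv_lhs => unfold dis
    rw [Subgroup.closure_le]
    rintro _ ⟨a, b, rfl⟩
    obtain ⟨φ, hφ, hab⟩ := hDZ Z hZ b a
    have h1 : FreeGroup.lift f φ ∈ (⁅dis (FreeGroup.of : Z → FreeGroup Z),
        dis (FreeGroup.of : Z → FreeGroup Z)⁆).map (FreeGroup.lift f) := by
      rw [Subgroup.map_commutator, perf_map, hperf, ← perf_map]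
      exact ⟨φ, hφ, rfl⟩
    obtain ⟨ψ, hψ, hψφ⟩ := h1
    have h2 : hol (id : Z → Z) ψ b = a := by
      apply hinj
      have e1 := hf.lift (id : Z → Z) ψ b
      have e2 := hf.lift (id : Z → Z) φ b
      rw [Function.comp_id] at e1 e2
      rw [← e1, hψφ, e2, hab]
    have h3 := he.lift (id : Z → Z) ψ b
    rw [Function.comp_id, h2] at h3
    have h4 : FreeGroup.lift e ψ ∈ ⁅dis e, dis e⁆ := by
      rw [← perf_map e, ← Subgroup.map_commutator]
      exact ⟨ψ, hψ, rfl⟩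
    have h5 : e b * (FreeGroup.lift e ψ)⁻¹ * (e b)⁻¹ ∈ ⁅dis e, dis e⁆ := by
      have : (⁅dis e, dis e⁆).map (MulAut.conj (e b)).toMonoidHom ≤ ⁅dis e, dis e⁆ := by
        rw [Subgroup.map_commutator]
        exact Subgroup.commutator_mono (perf_conj he b) (perf_conj he b)
      exact this ⟨_, inv_mem h4, rfl⟩
    have h6 : e a * (e b)⁻¹ =
        FreeGroup.lift e ψ * (e b * (FreeGroup.lift e ψ)⁻¹ * (e b)⁻¹) := by
      rw [← h3]; group
    change e a * (e b)⁻¹ ∈ ⁅dis e, dis e⁆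
    rw [h6]
    exact mul_mem h4 h5

end Pool.Agent.P.MP_cc10d1_gt.T
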