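import Pool.Agent.P.MP_cc10d1_gt.T.Iface

/-! Step PROD. -/

set_option autoImplicit false

namespace Pool.Agent.P.MP_cc10d1_gt.T

open Quandles

namespace PRODaux

theorem conj_mem {Q G : Type*} [Quandle Q] [Group G] {R : Q → G} (hR : CHom R) (b0 : Q) {g : G}
    (hg : g ∈ dis R) : (R b0)⁻¹ * g * R b0 ∈ dis R := by
  induction hg using Subgroup.closure_induction with
  | mem g h =>
    obtain ⟨a, b, rfl⟩ := h
    refine Subgroup.subset_closure ⟨b0 ◃⁻¹ a, b0 ◃⁻¹ b, ?_⟩
    rw [hR.inv, hR.inv]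
    group
  | one => simpa using (dis R).one_mem
  | mul g h _ _ h1 h2 =>
    have : (R b0)⁻¹ * (g * h) * R b0 = (R b0)⁻¹ * g * R b0 * ((R b0)⁻¹ * h * R b0) := by group
    rw [this]
    exact (dis R).mul_mem h1 h2
  | inv g _ h1 =>
    have : (R b0)⁻¹ * g⁻¹ * R b0 = ((R b0)⁻¹ * g * R b0)⁻¹ := by group
    rw [this]
    exact (dis R).inv_mem h1

theorem pr_mem {Q G : Type*} [Quandle Q] [Group G] {R : Q → G} (hR : CHom R) (b0 : Q)
    (l : List Q) : ((R b0)⁻¹) ^ l.length * pr R l ∈ dis R := by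
  induction l with
  | nil => simpa [pr_nil] using (dis R).one_mem
  | cons b l ih =>
    have h1 : R b * (R b0)⁻¹ ∈ dis R := Subgroup.subset_closure ⟨b, b0, rfl⟩
    have h2 := conj_mem hR b0 ((dis R).mul_mem ih h1)
    have : ((R b0)⁻¹) ^ (b :: l).length * pr R (b :: l) =
        (R b0)⁻¹ * (((R b0)⁻¹) ^ l.length * pr R l * (R b * (R b0)⁻¹)) * R b0 := by
      rw [List.length_cons, pr_cons, pow_succ']
      group
    rw [this]
    exact h2

end PRODaux

open PRODaux in
theorem p_PROD (hCOMM : S_COMM) :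
    S_PROD := by
  intro Z A G _ _ _ e hZ hA hP he l l' h1 h2
  have hlen : l.length = l'.length := by simpa using h1.length
  rcases l with _ | ⟨⟨a0, b0⟩, t⟩
  · have : l' = [] := List.length_eq_zero_iff.1 hlen.symm
    rw [this]
  obtain ⟨hc, hf⟩ := hCOMM Z A G e hZ hA hP he a0 b0
  have hP1 : CHom (fun a : Z => e (a, b0)) := fun x y => by
    have := he (x, b0) (y, b0)
    have e1 : ((x, b0) ◃ (y, b0) : Z × A) = (x ◃ y, b0) := Prod.ext rfl Quandle.fix
    rwa [e1] at this
  have hR : CHom (fun b : A => e (a0, b)) := fun x y => by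
    have := he (a0, x) (a0, y)
    have e1 : ((a0, x) ◃ (a0, y) : Z × A) = (a0, x ◃ y) := Prod.ext Quandle.fix rfl
    rwa [e1] at this
  have key : ∀ u : List (Z × A), pr e u = pr (fun a : Z => e (a, b0)) (u.map Prod.fst) *
      (((e (a0, b0))⁻¹) ^ u.length * pr (fun b : A => e (a0, b)) (u.map Prod.snd)) := by
    intro u
    induction u with
    | nil => simp [pr_nil]
    | cons x u ih =>
      obtain ⟨a, b⟩ := x
      have hw := pr_mem hR b0 (u.map Prod.snd)
      rw [List.length_map] at hw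
      have hu : e (a, b0) * (e (a0, b0))⁻¹ ∈ dis (fun a : Z => e (a, b0)) :=
        Subgroup.subset_closure ⟨a, a0, rfl⟩
      have hcm := hc _ hu _ hw
      rw [pr_cons, ih, List.map_cons, List.map_cons, pr_cons, pr_cons, List.length_cons,
        pow_succ', hf a b]
      calc _ = pr (fun a : Z => e (a, b0)) (u.map Prod.fst) *
            (((e (a0, b0))⁻¹) ^ u.length * pr (fun b : A => e (a0, b)) (u.map Prod.snd) *
              (e (a, b0) * (e (a0, b0))⁻¹)) * e (a0, b) := by simp only [mul_assoc]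
        _ = _ := by rw [← hcm]; simp only [mul_assoc]
  rw [key, key l', h1.pr hP1, h2.pr hR, hlen]

end Pool.Agent.P.MP_cc10d1_gt.T
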