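import Pool.Agent.P.MP_cc10d1_gt.T.Iface

/-! Step RING. -/

set_option autoImplicit false

namespace Pool.Agent.P.MP_cc10d1_gt.T

open Quandles Polynomial

namespace RINGaux

noncomputable def I (e : ℕ) : Ideal ℤ[X] :=
  Ideal.span {((e : ℕ) : ℤ[X]), X ^ e - 1, (1 - X) ^ e - 1}

theorem m1 (e : ℕ) : ((e : ℕ) : ℤ[X]) ∈ I e := Ideal.subset_span (by simp)
theorem m2 (e : ℕ) : (X ^ e - 1 : ℤ[X]) ∈ I e := Ideal.subset_span (by simp)
theorem m3 (e : ℕ) : ((1 - X) ^ e - 1 : ℤ[X]) ∈ I e := Ideal.subset_span (by simp)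

theorem fin (e : ℕ) (he : 0 < e) : Finite (ℤ[X] ⧸ I e) := by
  have hm : (X ^ e - 1 : ℤ[X]).Monic := by
    simpa using monic_X_pow_sub_C (1 : ℤ) he.ne'
  have h1 : Module.Finite ℤ (ℤ[X] ⧸ Ideal.span {(X ^ e - 1 : ℤ[X])}) := hm.finite_quotient
  have hle : Ideal.span {(X ^ e - 1 : ℤ[X])} ≤ I e := by
    rw [Ideal.span_singleton_le_iff_mem]; exact m2 e
  have h2 : Module.Finite ℤ (ℤ[X] ⧸ I e) :=
    Module.Finite.of_surjective (Ideal.Quotient.factor hle).toAddMonoidHom.toIntLinearMap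
      (Ideal.Quotient.factor_surjective hle)
  refine Module.finite_of_fg_torsion _ fun x => ?_
  refine ⟨⟨(e : ℤ), mem_nonZeroDivisors_of_ne_zero (by exact_mod_cast he.ne')⟩, ?_⟩
  have h0 : ((e : ℕ) : ℤ[X] ⧸ I e) = 0 := by
    rw [← map_natCast (Ideal.Quotient.mk (I e))]
    exact Ideal.Quotient.eq_zero_iff_mem.2 (m1 e)
  change (e : ℤ) • x = 0
  rw [zsmul_eq_mul, Int.cast_natCast, h0, zero_mul]

theorem px (e : ℕ) : (Ideal.Quotient.mk (I e) X) ^ e = 1 := by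
  have := Ideal.Quotient.eq_zero_iff_mem.2 (m2 e)
  rw [map_sub, map_pow, map_one] at this
  exact sub_eq_zero.1 this

theorem py (e : ℕ) : (1 - Ideal.Quotient.mk (I e) X) ^ e = 1 := by
  have := Ideal.Quotient.eq_zero_iff_mem.2 (m3 e)
  rw [map_sub, map_pow, map_sub, map_one] at this
  exact sub_eq_zero.1 this

end RINGaux

open RINGaux in
theorem p_RING :
    S_RING := by
  intro e he
  refine ⟨ℤ[X] ⧸ I e, inferInstance, fin e he,
    (IsUnit.of_pow_eq_one (px e) he.ne').unit, ?_, ?_⟩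
  · rw [IsUnit.unit_spec]
    exact IsUnit.of_pow_eq_one (py e) he.ne'
  · intro D _ θ h1 h2 h3
    have hk : I e ≤ RingHom.ker (aeval θ : ℤ[X] →ₐ[ℤ] AddMonoid.End D).toRingHom := by
      refine Ideal.span_le.2 ?_
      intro p hp
      simp only [Set.mem_insert_iff, Set.mem_singleton_iff] at hp
      rcases hp with rfl | rfl | rfl
      · change (aeval θ : ℤ[X] →ₐ[ℤ] AddMonoid.End D) _ = 0
        rw [map_natCast]
        ext a
        simpa using h1 a
      · change (aeval θ : ℤ[X] →ₐ[ℤ] AddMonoid.End D) _ = 0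
        rw [map_sub, map_pow, aeval_X, map_one, h2, sub_self]
      · change (aeval θ : ℤ[X] →ₐ[ℤ] AddMonoid.End D) _ = 0
        rw [map_sub, map_pow, map_sub, aeval_X, map_one, h3, sub_self]
    refine ⟨Ideal.Quotient.lift (I e) _ (fun a ha => RingHom.mem_ker.1 (hk ha)), ?_⟩
    rw [IsUnit.unit_spec, Ideal.Quotient.lift_mk]
    exact aeval_X θ

end Pool.Agent.P.MP_cc10d1_gt.T
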