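import Pool.Agent.P.MP_cc10d1_gt.T.Iface

/-! Step RT. -/

set_option autoImplicit false

namespace Pool.Agent.P.MP_cc10d1_gt.T

open Quandles

theorem rt_sub (a b : Lab Unit) : a = b := Subsingleton.elim (α := Unit) a b

theorem rt_hol {ι : Type} (w : ι → Lab Unit) (φ : FreeGroup ι) : hol w φ = 1 :=
  Equiv.ext fun _ => rt_sub _ _

theorem rt_proj {E : Type} [Group E] {j : ℕ} (k : Fin j) :
    IsHom (Q := Quandle.Conj (Fin j → E) × Lab Unit) (R := Quandle.Conj E) fun q => q.1 k :=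
  fun _ _ => rfl

theorem p_RT (hRT0 : S_RT0) (hJT : S_JT) (hJCONN : S_JCONN) (hGOUR : S_GOUR) (hSTAB : S_STAB) (hKER : S_KER) :
    S_RT := by
  intro E _ _ R _ _ t ht j
  obtain ⟨n1, h1⟩ := hRT0 E R t ht j
  obtain ⟨n2, h2⟩ := hJT E j (Lab Unit)
  obtain ⟨n3, h3⟩ := hSTAB (Quandle.Conj (Fin j → E) × Lab Unit)
  refine ⟨n1 + n2 + n3 + 1, fun n hn d x y hx hxy kx ky => ?_⟩
  let w : Fin (n + 1) → Lab Unit := fun _ => (() : Unit)
  have hy : ∀ k, Om (y k) := fun k => by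
    obtain ⟨b, hb⟩ := hxy k
    rw [← hb]
    exact (hKER E n b (x k)).2.1 (hx k)
  have tw : TConn w := fun _ _ => ⟨1, rt_sub _ _⟩
  have ix : Ind x w := hGOUR _ _ E (Lab Unit) x w hx kx fun φ _ => rt_hol w φ
  have iy : Ind y w := hGOUR _ _ E (Lab Unit) y w hy ky fun φ _ => rt_hol w φ
  obtain ⟨b, hb, -⟩ := h2 n (by omega) x y w w hx hxy tw (Orb.refl w) ix iy
  have tc := hJCONN _ _ E (Lab Unit) x w (fun k => (hx k).1.1) tw ix
  let i : Fin n := ⟨0, by omega⟩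
  obtain ⟨a, ha⟩ := (h3 n (by omega) _ tc).2 i
  let x' : Fin j → Fin (n + 1) → E := fun k => rho (Quandle.Conj E) n a (x k)
  have hx' : ∀ k, Om (x' k) := fun k => (hKER E n a (x k)).2.1 (hx k)
  have back : ∀ k, rho (Quandle.Conj E) n a⁻¹ (x' k) = x k := fun k =>
    rho_inv_rho (X := Quandle.Conj E) a (x k)
  have kx' : ∀ k l, k ≠ l → kr (x' k) ≠ kr (x' l) := fun k l hkl h => by
    have := (hKER E n a⁻¹ (x' k)).2.2 (x' l) h
    rw [back, back] at this
    exact kx k l hkl this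
  have eq' : ∀ k, x' k i.castSucc = x' k i.succ := fun k => by
    have e := rho_map (rt_proj (E := E) k) a fun q => ((fun l => x l q), w q)
    have e1 := congrFun e i.castSucc
    have e2 := congrFun e i.succ
    simp only [Function.comp] at e1 e2
    exact e1.trans ((congrArg (fun q : Quandle.Conj (Fin j → E) × Lab Unit => q.1 k) ha).trans
      e2.symm)
  obtain ⟨r, -⟩ := h1 n (by omega) d i rfl x' hx' kx' eq'
  obtain ⟨c1, m1, e1⟩ := r (b * a⁻¹)
  obtain ⟨c2, m2, e2⟩ := r a⁻¹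
  refine ⟨c1 * c2⁻¹, Subgroup.mul_mem _ m1 (Subgroup.inv_mem _ m2), fun k => ?_⟩
  have s : rho (Quandle.Conj E) n c2⁻¹ (x k) = x' k := by
    rw [← back k, ← e2 k]
    exact rho_inv_rho (X := Quandle.Conj E) c2 (x' k)
  rw [rho_mul, s, e1 k, rho_mul, back k, hb k]

end Pool.Agent.P.MP_cc10d1_gt.T
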