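import Pool.Agent.P.MP_cc10d1_gt.T.Iface

/-! Step RT0. -/

set_option autoImplicit false

namespace Pool.Agent.P.MP_cc10d1_gt.T

open Quandles

/-- The stabiliser of a tuple. -/
def rt0_stab (X : Type) [Quandle X] {n : ℕ} (x : Fin (n + 1) → X) : Subgroup (Br n) where
  carrier := {b | rho X n b x = x}
  one_mem' := rho_one x
  mul_mem' := fun {a b} ha hb => by
    change rho X n (a * b) x = x
    rw [rho_mul, show rho X n b x = x from hb]; exact ha
  inv_mem' := fun {a} ha => by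
    change rho X n a⁻¹ x = x
    conv_lhs => rw [← show rho X n a x = x from ha, rho_inv_rho]

theorem rt0_mem {X : Type} [Quandle X] {n : ℕ} {x : Fin (n + 1) → X} {b : Br n} :
    b ∈ rt0_stab X x ↔ rho X n b x = x := Iff.rfl

theorem p_RT0 (hABS : S_ABS) (hJT : S_JT) (hJCONN : S_JCONN) (hGOUR : S_GOUR) (hLAT : S_LAT) (hSQ : S_SQ) (hLC : S_LC) :
    S_RT0 := by
  intro E _ _ R _ _ t ht j
  have : Finite (Quandle.Conj (Fin j → E)) := inferInstanceAs (Finite (Fin j → E))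
  obtain ⟨n1, h1⟩ := hJT E j (Aff (mu t) × Aff (mu t⁻¹))
  obtain ⟨n2, h2⟩ := hLC (Quandle.Conj (Fin j → E) × (Aff (mu t) × Aff (mu t⁻¹)))
  refine ⟨max n1 n2, fun n hn d i hi x hx hk hfix => ?_⟩
  have hInd : ∀ w : Fin (n + 1) → Aff (mu t) × Aff (mu t⁻¹), Ind x w := fun w =>
    hGOUR _ _ _ _ x w hx hk (hLAT R t ht _ w).2
  let L : Subgroup (Br n) := ⨅ k, rt0_stab (Quandle.Conj E) (x k)
  have hL : ∀ b, b ∈ L ↔ ∀ k, rho (Quandle.Conj E) n b (x k) = x k := fun b => Subgroup.mem_iInf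
  have hs0 : sg i ∈ L := (hL _).2 fun k => rho_sg_fix (X := Quandle.Conj E) (hfix k)
  have hA := hABS (Br n) (Fin n) sg (sg i) (ex n) (rho (Aff (mu t)) n).ker (CC n d) L
    (L ⊓ rt0_stab _ (pv t n)) (closure_sg n) (sg_isConj i) (ex_sg i) inf_le_left hs0 ?_ ?_ ?_
  · refine ⟨fun b => ?_, hA.2⟩
    obtain ⟨c, hc, l, hl, rfl⟩ := hA.1 b
    exact ⟨c, hc, fun k => by rw [rho_mul, (hL l).1 hl k]⟩
  · intro l hl
    have e := hSQ R t ht n i hi l 1 (by rw [rho_one]; exact hl.2)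
    rw [MonoidHom.mem_ker, map_mul, e]
    simp
  · refine h2 n (le_of_max_le_right hn) _
      (hJCONN _ _ _ _ x (pv t n) (fun k => (hx k).1.1) (hLAT R t ht _ _).1 (hInd _)) d _ ?_
    intro b hb
    have hb' := (rho_prod (X := Quandle.Conj (Fin j → E)) b (fun i k => x k i) (pv t n)).symm.trans hb
    refine ⟨(hL b).2 fun k => ?_, funext fun q => congrArg Prod.snd (congrFun hb' q)⟩
    have e := rho_map (isHom_hom (Pi.evalMonoidHom (fun _ : Fin j => E) k)) b (fun i k => x k i)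
    refine e.trans (funext fun q => ?_)
    exact congrFun (congrArg Prod.fst (congrFun hb' q)) k
  · rw [eq_top_iff, ← closure_sg n, Subgroup.closure_le]
    rintro _ ⟨m, rfl⟩
    obtain ⟨b, hb⟩ := isConj_iff.1 (sg_isConj i m)
    obtain ⟨l, hl, hw⟩ := h1 n (le_of_max_le_left hn) x x (pv t n) (rho _ n b (pv t n)) hx
      (fun k => Orb.refl _) (hLAT R t ht _ _).1 ⟨b, rfl⟩ (hInd _) (hInd _)
    have e := hSQ R t ht n i hi l b hw
    have hlL : l ∈ L := (hL l).2 hl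
    have : sg m = (l * sg i * l⁻¹) * ((l * sg i * l⁻¹)⁻¹ * sg m) := by group
    rw [SetLike.mem_coe, this]
    refine Subgroup.mul_mem_sup (L.mul_mem (L.mul_mem hlL hs0) (L.inv_mem hlL)) ?_
    rw [MonoidHom.mem_ker, map_mul, map_inv, e, hb, inv_mul_cancel]

end Pool.Agent.P.MP_cc10d1_gt.T
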