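import Pool.Agent.P.MP_cc10d1_gt.T.Iface

/-! Step SQ. -/

set_option autoImplicit false

namespace Pool.Agent.P.MP_cc10d1_gt.T

open Quandles

namespace SQaux

variable {R : Type} [CommRing R]

/-- The action on vectors. -/
def ac (t : Rˣ) (n : ℕ) (b : Br n) (x : Fin (n + 1) → R) : Fin (n + 1) → R :=
  rho (Aff (mu t)) n b x

def uu (t : Rˣ) (n : ℕ) : Fin (n + 1) → R := fun q => (pv t n q).1

def yy (t : Rˣ) (n : ℕ) : Fin (n + 1) → R := fun q => (pv t n q).2

theorem ac_mul (t : Rˣ) (n : ℕ) (a b : Br n) (x : Fin (n + 1) → R) :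
    ac t n (a * b) x = ac t n a (ac t n b x) := rho_mul (X := Aff (mu t)) a b x

theorem ac_inv (t : Rˣ) (n : ℕ) (a : Br n) (x : Fin (n + 1) → R) :
    ac t n a (ac t n a⁻¹ x) = x := rho_rho_inv (X := Aff (mu t)) a x

theorem ac_sg (t : Rˣ) (n : ℕ) (i : Fin n) (hi : i.1 = 0) (x : Fin (n + 1) → R) :
    ac t n (sg i) x = fun q => x q + (x i.castSucc - x i.succ) * uu t n q := by
  have hne : i.castSucc ≠ i.succ := (Fin.castSucc_lt_succ (i := i)).ne
  funext q
  have h0 : ac t n (sg i) x q = cross (X := Aff (mu t)) i.castSucc i.succ false x q :=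
    congrFun (rho_sg (X := Aff (mu t)) i x) q
  rw [h0]
  by_cases h1 : q = i.castSucc
  · have e : uu t n q = -(↑t⁻¹ : R) := by
      have : q.1 = 0 := by rw [h1, Fin.val_castSucc, hi]
      simp only [uu, pv, this, if_true]
    rw [e, h1]
    have e2 : cross (X := Aff (mu t)) i.castSucc i.succ false x i.castSucc =
        (x i.castSucc + ↑t⁻¹ * (x i.succ - x i.castSucc) : R) :=
      cross_left (X := Aff (mu t)) _ _ false x
    rw [e2]
    ring
  · by_cases h2 : q = i.succ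
    · have e : uu t n q = 1 := by
        have : q.1 = 1 := by rw [h2, Fin.val_succ, hi]
        simp only [uu, pv, this, if_true, one_ne_zero, if_false]
      rw [e, h2]
      have e2 : cross (X := Aff (mu t)) i.castSucc i.succ false x i.succ = (x i.castSucc : R) :=
        cross_right (X := Aff (mu t)) hne false x
      rw [e2]
      ring
    · have e : uu t n q = 0 := by
        have a0 : q.1 ≠ 0 := fun h => h1 (Fin.ext (by rw [h, Fin.val_castSucc, hi]))
        have a1 : q.1 ≠ 1 := fun h => h2 (Fin.ext (by rw [h, Fin.val_succ, hi]))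
        simp only [uu, pv, a0, a1, if_false]
      rw [e]
      have e2 : cross (X := Aff (mu t)) i.castSucc i.succ false x q = (x q : R) :=
        cross_ne (X := Aff (mu t)) h1 h2 false x
      rw [e2]
      ring

def lin (c : R) (p : R × R) : R := p.1 + c * p.2

theorem lin_hom (t : Rˣ) (c : R) :
    IsHom (Q := Aff (mu t) × Aff (mu t)) (R := Aff (mu t)) (lin (R := R) c) := by
  have key : ∀ x y x' y' : R, (x + t * (x' - x)) + c * (y + t * (y' - y)) =
      (x + c * y) + t * ((x' + c * y') - (x + c * y)) := fun x y x' y' => by ring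
  exact fun a b => key a.1 a.2 b.1 b.2

theorem ac_lin (t : Rˣ) (n : ℕ) (b : Br n) (c : R) (x u : Fin (n + 1) → R) :
    ac t n b (fun q => x q + c * u q) = fun q => ac t n b x q + c * ac t n b u q := by
  have h1 := rho_map (lin_hom t c) b (fun q => ((x q, u q) : Aff (mu t) × Aff (mu t)))
  have h2 := rho_prod (X := Aff (mu t)) (Y := Aff (mu t)) b x u
  rw [h2] at h1
  exact h1

theorem ac_conj (t : Rˣ) (n : ℕ) (i : Fin n) (hi : i.1 = 0) (b : Br n) (x : Fin (n + 1) → R) :
    ac t n (b * sg i * b⁻¹) x = fun q => x q +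
      (ac t n b⁻¹ x i.castSucc - ac t n b⁻¹ x i.succ) * ac t n b (uu t n) q := by
  rw [ac_mul, ac_mul, ac_sg t n i hi, ac_lin, ac_inv]

/-- The matrix of a pair of colours. -/
def gm (t : Rˣ) (p : R × R) : Matrix (Fin 3) (Fin 3) R :=
  !![1, (t - 1) * p.2, (1 - t) * p.1 * p.2; 0, t, (1 - t) * p.1; 0, 0, 1]

theorem gm_mul (t : Rˣ) (p p' : R × R) : gm t p * gm t p' =
    !![1, (t - 1) * p'.2 + (t - 1) * p.2 * t,
        (1 - t) * p'.1 * p'.2 + (t - 1) * p.2 * ((1 - t) * p'.1) + (1 - t) * p.1 * p.2;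
      0, t * t, t * ((1 - t) * p'.1) + (1 - t) * p.1; 0, 0, 1] := by
  simp only [gm, Matrix.mul_fin_three, mul_zero, zero_mul, add_zero, zero_add, mul_one, one_mul]

theorem gm_hom (t : Rˣ) : CHom (Q := Aff (mu t) × Aff (mu t⁻¹)) (gm (R := R) t) := by
  have key : ∀ x y x' y' : R,
      gm t (x + t * (x' - x), y + (↑t⁻¹ : R) * (y' - y)) * gm t (x, y) =
        gm t (x, y) * gm t (x', y') := by
    intro x y x' y'
    have h : (↑t⁻¹ : R) * t = 1 := t.inv_mul
    rw [gm_mul, gm_mul]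
    have e1 : ((t : R) - 1) * y + (t - 1) * (y + (↑t⁻¹ : R) * (y' - y)) * t =
        (t - 1) * y' + (t - 1) * y * t := by
      linear_combination (((t : R) - 1) * (y' - y)) * h
    have e2 : (1 - (t : R)) * x * y + (t - 1) * (y + (↑t⁻¹ : R) * (y' - y)) * ((1 - t) * x) +
        (1 - t) * (x + t * (x' - x)) * (y + (↑t⁻¹ : R) * (y' - y)) =
        (1 - t) * x' * y' + (t - 1) * y * ((1 - t) * x') + (1 - t) * x * y := by
      linear_combination ((1 - (t : R)) * x' * (y' - y)) * h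
    have e3 : (t : R) * ((1 - t) * x) + (1 - t) * (x + t * (x' - x)) =
        t * ((1 - t) * x') + (1 - t) * x := by ring
    simp only [e1, e2, e3]
  exact fun a b => key a.1 a.2 b.1 b.2

theorem row0 (t : Rˣ) (l : List (R × R)) (h : ∀ p ∈ l, p.2 = 0) :
    pr (gm t) l 0 0 = 1 ∧ pr (gm t) l 0 1 = 0 ∧ pr (gm t) l 0 2 = 0 := by
  induction l with
  | nil => simp [pr_nil]
  | cons p l ih =>
    obtain ⟨a0, a1, a2⟩ := ih fun q hq => h q (List.mem_cons_of_mem _ hq)
    have hp := h p List.mem_cons_self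
    rw [pr_cons]
    simp [Matrix.mul_apply, Fin.sum_univ_three, a0, a1, a2, gm, hp]

/-- The invariant pairing. -/
def pa (t : Rˣ) (n : ℕ) (x y : Fin (n + 1) → R) : R :=
  pr (gm t) (List.ofFn fun q => (x q, y q)) 0 2

theorem pa_yy (t : Rˣ) (n : ℕ) (i : Fin n) (hi : i.1 = 0) (x : Fin (n + 1) → R) :
    pa t n x (yy t n) = (1 - t) * (x i.succ - x i.castSucc) := by
  obtain ⟨m, rfl⟩ : ∃ m, n = m + 1 := ⟨n - 1, by have := i.2; omega⟩
  obtain rfl : i = 0 := Fin.ext hi
  unfold pa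
  rw [List.ofFn_succ, List.ofFn_succ, pr_cons, pr_cons, mul_assoc, gm_mul]
  obtain ⟨a0, a1, a2⟩ := row0 t
    (List.ofFn fun k : Fin m => (x k.succ.succ, yy t (m + 1) k.succ.succ)) (by
      intro p hp
      obtain ⟨k, rfl⟩ := List.mem_ofFn.1 hp
      rfl)
  have y0 : yy t (m + 1) 0 = -(t : R) := rfl
  have y1 : yy t (m + 1) (Fin.succ 0) = 1 := rfl
  rw [Matrix.mul_apply, Fin.sum_univ_three, a0, a1, a2, y0, y1]
  simp only [Matrix.of_apply, Matrix.cons_val', Matrix.cons_val_zero, Matrix.cons_val_two,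
    Matrix.cons_val, Fin.castSucc_zero, Matrix.vecHead, Matrix.vecTail, Function.comp,
    Matrix.cons_val_succ]
  ring

theorem pa_inv (hB : S_BRIDGE) (t : Rˣ) (n : ℕ) (b : Br n) (x y : Fin (n + 1) → R) :
    pa t n (ac t n b x) (ac t⁻¹ n b y) = pa t n x y := by
  have h1 : Orb (X := Aff (mu t) × Aff (mu t⁻¹)) (fun q => (x q, y q))
      (fun q => (ac (R := R) t n b x q, ac (R := R) t⁻¹ n b y q)) :=
    ⟨b, rho_prod (X := Aff (mu t)) (Y := Aff (mu t⁻¹)) b x y⟩
  have h2 := ((hB _ n _ _).1 h1).pr (gm_hom t)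
  exact (congrFun (congrFun h2 0) 2).symm

end SQaux

open SQaux in
theorem p_SQ (hBRIDGE : S_BRIDGE) :
    S_SQ := by
  intro R _ t ht n i hi b c h
  have hb := rho_prod (X := Aff (mu t)) (Y := Aff (mu t⁻¹)) b (uu t n) (yy t n)
  have hc := rho_prod (X := Aff (mu t)) (Y := Aff (mu t⁻¹)) c (uu t n) (yy t n)
  have h' := hb.symm.trans (h.trans hc)
  have hu : ac t n b (uu t n) = ac t n c (uu t n) :=
    funext fun q => congrArg Prod.fst (congrFun h' q)
  have hy : ac t⁻¹ n b (yy t n) = ac t⁻¹ n c (yy t n) :=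
    funext fun q => congrArg Prod.snd (congrFun h' q)
  refine Equiv.ext fun x => ?_
  have e : ∀ a : Br n, (1 - (t : R)) * (ac t n a⁻¹ x i.succ - ac t n a⁻¹ x i.castSucc) =
      pa t n x (ac t⁻¹ n a (yy t n)) := fun a => by
    rw [← pa_yy t n i hi, ← pa_inv hBRIDGE t n a, ac_inv]
  have e1 := ht.mul_left_cancel ((e b).trans (hy ▸ (e c).symm))
  have e2 : ac t n b⁻¹ x i.castSucc - ac t n b⁻¹ x i.succ =
      ac t n c⁻¹ x i.castSucc - ac t n c⁻¹ x i.succ := by linear_combination -e1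
  change ac t n (b * sg i * b⁻¹) x = ac t n (c * sg i * c⁻¹) x
  rw [ac_conj t n i hi, ac_conj t n i hi, hu, e2]

end Pool.Agent.P.MP_cc10d1_gt.T
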