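import Pool.Agent.P.MP_cc10d1_gt.T.Iface

/-! Step STAB. -/

set_option autoImplicit false

namespace Pool.Agent.P.MP_cc10d1_gt.T

open Quandles

theorem stab_pair {Q : Type} [Quandle Q] (y : Q) (w : List Q) :
    ∃ w', Eqv (w ++ [y, y]) (y :: y :: w') := by
  induction w with
  | nil => exact ⟨[], Eqv.refl _⟩
  | cons a w ih =>
    obtain ⟨w', h⟩ := ih
    exact ⟨(y ◃ (y ◃ a)) :: w',
      ((h.cons a).trans (Eqv.swap a y _)).trans ((Eqv.swap (y ◃ a) y w').cons y)⟩

theorem stab_ofFn {Q : Type} (L : List Q) (m : ℕ) (h : L.length = m) :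
    ∃ z : Fin m → Q, List.ofFn z = L := by
  subst h
  exact ⟨L.get, List.ofFn_get L⟩

theorem stab_get {Q : Type} {m : ℕ} (z : Fin m → Q) (j : Fin m) :
    (List.ofFn z)[j.1]? = some (z j) := by
  rw [List.getElem?_ofFn, dif_pos j.2]

theorem p_STAB (hBRIDGE : S_BRIDGE) (hLAB : S_LAB) (hPIG : S_PIG) :
    S_STAB := by
  intro Q _ _
  refine ⟨Nat.card Q * Nat.card (Equiv.Perm Q) + Nat.card Q * 2, fun n hn x hx => ⟨?_, ?_⟩⟩
  · intro π
    let lb : Fin (n + 1) → Lab (Fin (n + 1)) := fun i => i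
    let π' : Equiv.Perm (Lab (Fin (n + 1))) := π⁻¹
    have e1 : (List.ofFn fun i => (x i, lb i)).map Prod.fst = List.ofFn x := by
      rw [List.map_ofFn]; rfl
    have e2 : (List.ofFn fun i => (x i, lb i)).map Prod.snd = List.ofFn lb := by
      rw [List.map_ofFn]; rfl
    have h := hLAB Q (Fin (n + 1)) (List.ofFn fun i => (x i, lb i))
      (by rw [e1]; exact (tConn_iff x).1 hx) (by rw [List.length_ofFn]; omega)
      (by rw [e2]; exact List.nodup_ofFn.2 fun _ _ h => h)
      (fun a => by rw [e2]; exact List.mem_ofFn.2 ⟨a, rfl⟩) π'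
    rw [List.map_ofFn] at h
    obtain ⟨b, hb⟩ := (hBRIDGE _ n _ _).2 h
    rw [rho_prod] at hb
    refine ⟨b, funext fun i => congrArg Prod.fst (congrFun hb i), Equiv.ext fun i => ?_⟩
    have h1 : rho (Lab (Fin (n + 1))) n b lb (pm n b i) = π' (lb (pm n b i)) :=
      congrArg Prod.snd (congrFun hb (pm n b i))
    rw [rho_lab] at h1
    have h2 : i = π⁻¹ (pm n b i) := h1
    conv_rhs => rw [h2]
    simp
  · intro i
    obtain ⟨l0, y, -, h, -, -⟩ := hPIG Q 2 (List.ofFn x) (by rw [List.length_ofFn]; omega)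
    have hl := h.length
    rw [List.length_ofFn, List.length_append, List.length_replicate] at hl
    obtain ⟨w', hw⟩ := stab_pair y (l0.drop i.1)
    have h2 : Eqv (List.ofFn x) (l0.take i.1 ++ y :: y :: w') := by
      refine h.trans ((Eqv.of_eq ?_).trans (hw.left (l0.take i.1)))
      rw [← List.append_assoc, List.take_append_drop]
      rfl
    have hl2 := h2.length
    rw [List.length_ofFn] at hl2
    obtain ⟨z, hz⟩ := stab_ofFn _ _ hl2.symm
    rw [← hz] at h2
    obtain ⟨b, hb⟩ := (hBRIDGE Q n x z).2 h2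
    have hi := i.2
    have ht : (l0.take i.1).length = i.1 := by rw [List.length_take]; omega
    have a1 := stab_get z i.castSucc
    have a2 := stab_get z i.succ
    rw [hz, List.getElem?_append_right (by rw [ht]; simp), ht] at a1 a2
    simp only [Fin.val_castSucc, Nat.sub_self, List.getElem?_cons_zero, Option.some.injEq] at a1
    simp only [Fin.val_succ, Nat.add_sub_cancel_left, List.getElem?_cons_succ,
      List.getElem?_cons_zero, Option.some.injEq] at a2
    exact ⟨b, by rw [hb, ← a1, ← a2]⟩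

end Pool.Agent.P.MP_cc10d1_gt.T
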