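import Pool.Agent.P.MP_cc10d1_gt.T.Iface
import Pool.Agent.P.MP_cc10d1_gt.Stab

/-! Step STABK. -/

set_option autoImplicit false

namespace Pool.Agent.P.MP_cc10d1_gt.T

open Quandles

theorem p_STABK :
    S_STABK := by
  intro a b h ha
  induction h with
  | refl => exact ⟨ha, rfl⟩
  | tail _ h2 ih =>
    obtain ⟨hb, e⟩ := ih
    cases h2 with
    | stab n w s => exact ⟨isKnot_stab hb s, (mk_stab hb s).trans e⟩

end Pool.Agent.P.MP_cc10d1_gt.T
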