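import Pool.Agent.P.MP_cc10d1_gt.T.Iface

/-! Step SUB. -/

set_option autoImplicit false

namespace Pool.Agent.P.MP_cc10d1_gt.T

open Quandles

theorem p_SUB :
    S_SUB := by
  intro Q _ n x hx
  have hcl : Cl {a : Q | ∃ φ, hol x φ (x 0) = a} := by
    rintro _ ⟨φ, rfl⟩ _ ⟨ψ, rfl⟩
    have h0 : hol x (FreeGroup.of 0) = sy (x 0) := FreeGroup.lift_apply_of
    constructor
    · refine ⟨φ * FreeGroup.of 0 * φ⁻¹ * ψ, ?_⟩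
      rw [← sy_apply, sy_hol]
      simp only [map_mul, map_inv, h0, Equiv.Perm.mul_apply]
    · refine ⟨(φ * FreeGroup.of 0 * φ⁻¹)⁻¹ * ψ, ?_⟩
      rw [← sy_inv_apply, sy_hol]
      simp only [map_mul, map_inv, h0, Equiv.Perm.mul_apply]
  refine ⟨⟨_, hcl⟩, fun i => ⟨x i, hx 0 i⟩, fun _ => rfl, ?_, fun _ => Iff.rfl⟩
  rintro ⟨_, φ, rfl⟩ ⟨_, ψ, rfl⟩
  refine ⟨ψ * φ⁻¹, Subtype.ext ?_⟩
  refine (hol_map (isHom_val ⟨_, hcl⟩) (fun i => ⟨x i, hx 0 i⟩) (ψ * φ⁻¹)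
    ⟨hol x φ (x 0), φ, rfl⟩).symm.trans ?_
  change hol x (ψ * φ⁻¹) (hol x φ (x 0)) = hol x ψ (x 0)
  rw [← Equiv.Perm.mul_apply, ← map_mul, inv_mul_cancel_right]

end Pool.Agent.P.MP_cc10d1_gt.T
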