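import Pool.Agent.P.MP_cc10d1_gt.T.Iface

/-! Step UNK. -/

set_option autoImplicit false

namespace Pool.Agent.P.MP_cc10d1_gt.T

open Quandles

theorem unk_succ {n : ℕ} (e : Fin (n + 1) → Bool) :
    unk e = (unk (e ∘ Fin.castSucc)).map (fun c => (c.1.castSucc, c.2)) ++
      [(Fin.last n, e (Fin.last n))] := by
  unfold unk
  rw [List.finRange_succ_last, List.map_append, List.map_map, List.map_map]
  rfl

theorem unk_act (X : Type) [Quandle X] (n : ℕ) (e : Fin n → Bool) (x : Fin (n + 1) → X)
    (h : act (unk e) x = x) (i : Fin (n + 1)) : x i = x 0 := by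
  induction n with
  | zero => rw [Fin.fin_one_eq_zero i]
  | succ n ih =>
    rw [unk_succ, fix_stab] at h
    obtain ⟨h1, h2⟩ := h
    induction i using Fin.lastCases with
    | last => rw [h2]; exact ih _ _ h1 (Fin.last n)
    | cast q => exact ih _ _ h1 q

theorem p_UNK :
    S_UNK := by
  intro X _ n e x hx i j
  rw [rho_toBr_fix] at hx
  rw [unk_act X n e x hx i, unk_act X n e x hx j]

end Pool.Agent.P.MP_cc10d1_gt.T
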