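import Pool.Agent.P.MP_cc10d1_gt.T.TBR
import Pool.Agent.P.MP_cc10d1_gt.T.TORD
import Pool.Agent.P.MP_cc10d1_gt.T.TCOX
import Pool.Agent.P.MP_cc10d1_gt.T.TSTABK
import Pool.Agent.P.MP_cc10d1_gt.T.TBRIDGE
import Pool.Agent.P.MP_cc10d1_gt.T.TRING
import Pool.Agent.P.MP_cc10d1_gt.T.TABS
import Pool.Agent.P.MP_cc10d1_gt.T.TSUB
import Pool.Agent.P.MP_cc10d1_gt.T.TBLK
import Pool.Agent.P.MP_cc10d1_gt.T.TEXT
import Pool.Agent.P.MP_cc10d1_gt.T.TPIG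
import Pool.Agent.P.MP_cc10d1_gt.T.TINJ
import Pool.Agent.P.MP_cc10d1_gt.T.TCP
import Pool.Agent.P.MP_cc10d1_gt.T.TDZ
import Pool.Agent.P.MP_cc10d1_gt.T.TCOMM
import Pool.Agent.P.MP_cc10d1_gt.T.TPROD
import Pool.Agent.P.MP_cc10d1_gt.T.TBIN
import Pool.Agent.P.MP_cc10d1_gt.T.TPERF
import Pool.Agent.P.MP_cc10d1_gt.T.THD
import Pool.Agent.P.MP_cc10d1_gt.T.TKER
import Pool.Agent.P.MP_cc10d1_gt.T.TBINA
import Pool.Agent.P.MP_cc10d1_gt.T.TJT
import Pool.Agent.P.MP_cc10d1_gt.T.TJCONN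
import Pool.Agent.P.MP_cc10d1_gt.T.TGOUR
import Pool.Agent.P.MP_cc10d1_gt.T.TLAT
import Pool.Agent.P.MP_cc10d1_gt.T.TSQ
import Pool.Agent.P.MP_cc10d1_gt.T.TLAB
import Pool.Agent.P.MP_cc10d1_gt.T.TSTAB
import Pool.Agent.P.MP_cc10d1_gt.T.TLC
import Pool.Agent.P.MP_cc10d1_gt.T.TRT0
import Pool.Agent.P.MP_cc10d1_gt.T.TRT
import Pool.Agent.P.MP_cc10d1_gt.T.TMOM
import Pool.Agent.P.MP_cc10d1_gt.T.TDER1
import Pool.Agent.P.MP_cc10d1_gt.T.TDER2
import Pool.Agent.P.MP_cc10d1_gt.T.TNUM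
import Pool.Agent.P.MP_cc10d1_gt.T.TNF1
import Pool.Agent.P.MP_cc10d1_gt.T.TNF2
import Pool.Agent.P.MP_cc10d1_gt.T.TCLS
import Pool.Agent.P.MP_cc10d1_gt.T.TNOOM
import Pool.Agent.P.MP_cc10d1_gt.T.TKMOD
import Pool.Agent.P.MP_cc10d1_gt.T.TAFF
import Pool.Agent.P.MP_cc10d1_gt.T.TJNA
import Pool.Agent.P.MP_cc10d1_gt.T.TUNK
import Pool.Agent.P.MP_cc10d1_gt.T.TFIXC
import Pool.Agent.P.MP_cc10d1_gt.T.TGRP
import Pool.Agent.P.MP_cc10d1_gt.T.TSTABW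
import Pool.Agent.P.MP_cc10d1_gt.T.TMB

/-! All steps together. -/

set_option autoImplicit false

namespace Pool.Agent.P.MP_cc10d1_gt.T

theorem all_BR : S_BR := p_BR
theorem all_ORD : S_ORD := p_ORD all_BR
theorem all_COX : S_COX := p_COX
theorem all_STABK : S_STABK := p_STABK
theorem all_BRIDGE : S_BRIDGE := p_BRIDGE
theorem all_RING : S_RING := p_RING
theorem all_ABS : S_ABS := p_ABS
theorem all_SUB : S_SUB := p_SUB
theorem all_BLK : S_BLK := p_BLK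
theorem all_EXT : S_EXT := p_EXT
theorem all_PIG : S_PIG := p_PIG all_EXT
theorem all_INJ : S_INJ := p_INJ all_BLK all_PIG
theorem all_CP : S_CP := p_CP all_BLK all_INJ
theorem all_DZ : S_DZ := p_DZ
theorem all_COMM : S_COMM := p_COMM all_DZ
theorem all_PROD : S_PROD := p_PROD all_COMM
theorem all_BIN : S_BIN := p_BIN all_BRIDGE all_CP all_PROD
theorem all_PERF : S_PERF := p_PERF all_DZ
theorem all_HD : S_HD := p_HD
theorem all_KER : S_KER := p_KER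
theorem all_BINA : S_BINA := p_BINA all_SUB all_BIN all_PERF all_HD all_KER
theorem all_JT : S_JT := p_JT all_BINA all_HD
theorem all_JCONN : S_JCONN := p_JCONN all_HD
theorem all_GOUR : S_GOUR := p_GOUR
theorem all_LAT : S_LAT := p_LAT
theorem all_SQ : S_SQ := p_SQ all_BRIDGE
theorem all_LAB : S_LAB := p_LAB all_BLK all_EXT
theorem all_STAB : S_STAB := p_STAB all_BRIDGE all_LAB all_PIG
theorem all_LC : S_LC := p_LC all_STAB all_COX
theorem all_RT0 : S_RT0 := p_RT0 all_ABS all_JT all_JCONN all_GOUR all_LAT all_SQ all_LC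
theorem all_RT : S_RT := p_RT all_RT0 all_JT all_JCONN all_GOUR all_STAB all_KER
theorem all_MOM : S_MOM := p_MOM
theorem all_DER1 : S_DER1 := p_DER1 all_MOM
theorem all_DER2 : S_DER2 := p_DER2 all_DER1
theorem all_NUM : S_NUM := p_NUM
theorem all_NF1 : S_NF1 := p_NF1 all_BRIDGE all_BLK all_PIG
theorem all_NF2 : S_NF2 := p_NF2 all_BRIDGE all_BLK all_PIG
theorem all_CLS : S_CLS := p_CLS
theorem all_NOOM : S_NOOM := p_NOOM all_RT all_DER2 all_NUM all_NF1 all_NF2 all_CLS all_KER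
theorem all_KMOD : S_KMOD := p_KMOD
theorem all_AFF : S_AFF := p_AFF all_HD all_KMOD
theorem all_JNA : S_JNA := p_JNA
theorem all_UNK : S_UNK := p_UNK
theorem all_FIXC : S_FIXC := p_FIXC
theorem all_GRP : S_GRP := p_GRP all_RING all_RT0 all_NOOM all_AFF all_JNA all_UNK all_FIXC
theorem all_STABW : S_STABW := p_STABW
theorem all_MB : S_MB := p_MB all_GRP all_STABW

end Pool.Agent.P.MP_cc10d1_gt.T
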