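import Pool.Agent.P.MP_cc10d1_gt.T.Basic

/-! Reduction of quandles and value groups to the lowest universe. -/

set_option autoImplicit false

namespace Pool.Agent.P.MP_cc10d1_gt.T

open Quandles

theorem ext_map {A B : Type*} [AddCommGroup A] [AddCommGroup B] (g : A →+ B) {n : ℕ}
    (f : Word n → A) (w : SWord n) : ext (fun u => g (f u)) w = g (ext f w) := by
  induction w generalizing f with
  | nil => rfl
  | cons c w ih =>
    obtain ⟨i, _ | s⟩ := c
    · simp only [ext, map_sub]
      rw [ih fun u => f ((i, true) :: u), ih fun u => f ((i, false) :: u)]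
    · simp only [ext]
      rw [ih fun u => f ((i, s) :: u)]

theorem val_map {A B : Type*} [AddCommGroup A] [AddCommGroup B] (g : A →+ B) (v : Knot → A)
    (n : ℕ) : val (fun K => g (v K)) n = fun u => g (val v n u) := by
  funext u
  by_cases h : IsKnot u
  · rw [val_mk _ h, val_mk _ h]
  · rw [val_not _ h, val_not _ h, map_zero]

theorem small_val {A : Type*} [AddCommGroup A] (v : Knot → A) {d : ℕ} (h : HasOrder v d) :
    ∃ (B : Type) (_ : AddCommGroup B) (v0 : Knot → B), HasOrder v0 d ∧
      ∀ K L, v0 K = v0 L → v K = v L := by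
  let f : FreeAbelianGroup Knot →+ A := FreeAbelianGroup.lift v
  let v0 : Knot → FreeAbelianGroup Knot ⧸ f.ker := fun K =>
    QuotientAddGroup.mk (FreeAbelianGroup.of K)
  have e : (fun K => QuotientAddGroup.kerLift f (v0 K)) = v := by
    funext K
    simp [v0, f]
  refine ⟨_, inferInstance, v0, fun n w hw => QuotientAddGroup.kerLift_injective f ?_,
    fun K L hKL => ?_⟩
  · rw [← ext_map, ← val_map, e, map_zero]
    exact h n w hw
  · rw [← e]
    exact congrArg _ hKL

theorem hcol_equiv {X Y : Type*} [Quandle X] [Quandle Y] (e : X ≃ Y) (he : IsHom e) (K : Knot) :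
    hcol X K = hcol Y K := by
  induction K using Knot.ind with
  | h n w hw =>
  rw [hcol_mk, hcol_mk]
  refine Nat.card_congr (Equiv.subtypeEquiv (Equiv.piCongrRight fun _ => e) fun x => ?_)
  rw [← rho_toBr_fix, ← rho_toBr_fix]
  change _ ↔ rho Y n (toBr w) (e ∘ x) = e ∘ x
  rw [rho_map he]
  exact (e.injective.comp_left.eq_iff).symm

theorem small_quandle (X : Type*) [Quandle X] [Finite X] :
    ∃ (Y : Type) (_ : Quandle Y) (_ : Finite Y), Nat.card Y = Nat.card X ∧
      ∀ K, hcol X K = hcol Y K := by
  let e := Finite.equivFin X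
  letI q : Quandle (Fin (Nat.card X)) :=
    { act := fun a b => e (e.symm a ◃ e.symm b)
      self_distrib := by
        intro a b c
        simp only [Equiv.symm_apply_apply]
        rw [Shelf.self_distrib]
      invAct := fun a b => e (e.symm a ◃⁻¹ e.symm b)
      left_inv := fun a b => by simp
      right_inv := fun a b => by simp
      fix := by simp }
  refine ⟨_, q, inferInstance, by simp, hcol_equiv e fun a b => ?_⟩
  change e (a ◃ b) = e (e.symm (e a) ◃ e.symm (e b))
  simp

end Pool.Agent.P.MP_cc10d1_gt.T
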