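import Pool.Agent.P.MP_cc10d1_gt.T.Defs

/-! Basic facts on the working definitions. -/

set_option autoImplicit false

open Quandles

namespace Pool.Agent.P.MP_cc10d1_gt.T

/-! ### Braid groups -/

section braid
variable {n : ℕ}

theorem mkHom_sg {G : Type*} [Group G] (f : Fin n → G) (h1) (h2) (i : Fin n) :
    mkHom f h1 h2 (sg i) = f i := PresentedGroup.toGroup.of _

theorem closure_sg (n : ℕ) : Subgroup.closure (Set.range (sg : Fin n → Br n)) = ⊤ :=
  PresentedGroup.closure_range_of _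

theorem sg_far {i j : Fin n} (h : i.1 + 1 < j.1) : sg i * sg j = sg j * sg i := by
  have := PresentedGroup.one_of_mem (rels := rels n) ⟨i, j, Or.inl ⟨h, rfl⟩⟩
  simp only [map_mul, map_inv] at this
  exact mul_inv_eq_one.1 this

theorem sg_braid {i j : Fin n} (h : i.1 + 1 = j.1) :
    sg i * sg j * sg i = sg j * sg i * sg j := by
  have := PresentedGroup.one_of_mem (rels := rels n) ⟨i, j, Or.inr ⟨h, rfl⟩⟩
  simp only [map_mul, map_inv] at this
  exact mul_inv_eq_one.1 this

theorem Br.ind {φ : Br n → Prop} (h1 : φ 1) (hs : ∀ i b, φ b → φ (sg i * b))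
    (hi : ∀ i b, φ b → φ ((sg i)⁻¹ * b)) (b : Br n) : φ b := by
  have hb : b ∈ Subgroup.closure (Set.range (sg : Fin n → Br n)) := by
    rw [closure_sg]; trivial
  induction hb using Subgroup.closure_induction_left with
  | one => exact h1
  | mul_left x hx y _ ih => obtain ⟨i, rfl⟩ := hx; exact hs i y ih
  | inv_mul_cancel x hx y _ ih => obtain ⟨i, rfl⟩ := hx; exact hi i y ih

theorem ltr_true (i : Fin n) : ltr (i, true) = sg i := rfl
theorem ltr_false (i : Fin n) : ltr (i, false) = (sg i)⁻¹ := rfl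
theorem toBr_nil : toBr ([] : Word n) = 1 := rfl
theorem toBr_cons (c : Fin n × Bool) (w : Word n) : toBr (c :: w) = ltr c * toBr w := by
  simp [toBr]
theorem toBr_append (u w : Word n) : toBr (u ++ w) = toBr u * toBr w := by
  simp [toBr]

theorem toBr_surj (b : Br n) : ∃ w, toBr w = b := by
  induction b using Br.ind with
  | h1 => exact ⟨[], rfl⟩
  | hs i b ih => obtain ⟨w, rfl⟩ := ih; exact ⟨(i, true) :: w, toBr_cons _ _⟩
  | hi i b ih => obtain ⟨w, rfl⟩ := ih; exact ⟨(i, false) :: w, toBr_cons _ _⟩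

theorem sg_isConj (i j : Fin n) : IsConj (sg i) (sg j) := by
  have key : ∀ k (hk : k < n) (h0 : 0 < n), IsConj (sg (⟨0, h0⟩ : Fin n)) (sg ⟨k, hk⟩) := by
    intro k
    induction k with
    | zero => exact fun _ _ => IsConj.refl _
    | succ k ih =>
      intro hk h0
      refine (ih (by omega) h0).trans (isConj_iff.2 ⟨sg ⟨k, by omega⟩ * sg ⟨k + 1, hk⟩, ?_⟩)
      rw [sg_braid (i := ⟨k, by omega⟩) (j := ⟨k + 1, hk⟩) rfl]
      group
  exact (key i.1 i.2 i.pos).symm.trans (key j.1 j.2 i.pos)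

theorem pm_sg (i : Fin n) : pm n (sg i) = Equiv.swap i.castSucc i.succ := mkHom_sg _ _ _ _

theorem pm_toBr (w : Word n) : pm n (toBr w) = perm w := by
  induction w with
  | nil => exact map_one _
  | cons c w ih =>
    rw [toBr_cons, map_mul, ih, perm_cons]
    obtain ⟨i, s⟩ := c
    cases s
    · rw [ltr_false, map_inv, pm_sg, Equiv.swap_inv]
    · rw [ltr_true, pm_sg]

theorem PN_le_pm : PN (sg : Fin n → Br n) ≤ (pm n).ker := by
  refine Subgroup.normalClosure_le_normal ?_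
  rintro _ ⟨i, rfl⟩
  simp [pm_sg, pow_two]

theorem ex_sg (i : Fin n) : ex n (sg i) = Multiplicative.ofAdd 1 := mkHom_sg _ _ _ _

variable {X Y : Type*} [Quandle X] [Quandle Y]

theorem rho_sg (i : Fin n) (x : Fin (n + 1) → X) :
    rho X n (sg i) x = cross i.castSucc i.succ false x := by
  rw [rho, mkHom_sg]; rfl

theorem rho_sg_inv (i : Fin n) (x : Fin (n + 1) → X) :
    rho X n (sg i)⁻¹ x = cross i.castSucc i.succ true x := by
  rw [map_inv, rho, mkHom_sg]; rfl

theorem rho_mul (a b : Br n) (x : Fin (n + 1) → X) :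
    rho X n (a * b) x = rho X n a (rho X n b x) := by rw [map_mul]; rfl

theorem rho_one (x : Fin (n + 1) → X) : rho X n 1 x = x := by rw [map_one]; rfl

theorem rho_inv_rho (a : Br n) (x : Fin (n + 1) → X) : rho X n a⁻¹ (rho X n a x) = x := by
  rw [← rho_mul, inv_mul_cancel, rho_one]

theorem rho_rho_inv (a : Br n) (x : Fin (n + 1) → X) : rho X n a (rho X n a⁻¹ x) = x := by
  rw [← rho_mul, mul_inv_cancel, rho_one]

theorem rho_toBr_inv (w : Word n) (x : Fin (n + 1) → X) : rho X n (toBr w)⁻¹ x = act w x := by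
  induction w generalizing x with
  | nil => rw [toBr_nil, inv_one, rho_one, act_nil]
  | cons c w ih =>
    rw [toBr_cons, mul_inv_rev, rho_mul, act_cons, ih]
    obtain ⟨i, s⟩ := c
    cases s
    · rw [ltr_false, inv_inv, rho_sg]
    · rw [ltr_true, rho_sg_inv]

theorem rho_toBr_fix (w : Word n) (x : Fin (n + 1) → X) :
    rho X n (toBr w) x = x ↔ act w x = x := by
  rw [← rho_toBr_inv]
  constructor
  · intro h; conv_lhs => rw [← h, rho_inv_rho]
  · intro h; conv_lhs => rw [← h, rho_rho_inv]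

theorem rho_sg_fix {i : Fin n} {x : Fin (n + 1) → X} (h : x i.castSucc = x i.succ) :
    rho X n (sg i) x = x := by rw [rho_sg, cross_fix _ h]

theorem IsHom.inv {f : X → Y} (h : IsHom f) (x y : X) : f (x ◃⁻¹ y) = f x ◃⁻¹ f y := by
  rw [← Rack.left_cancel (f x), ← h, Rack.act_invAct_eq, Rack.act_invAct_eq]

theorem IsHom.comp {Z : Type*} [Quandle Z] {g : Y → Z} {f : X → Y} (hg : IsHom g) (hf : IsHom f) :
    IsHom (g ∘ f) := fun x y => by
  simp only [Function.comp, hf x y, hg (f x) (f y)]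

theorem cross_map {P : Type*} [DecidableEq P] {f : X → Y} (h : IsHom f) (a b : P) (s : Bool)
    (x : P → X) : cross a b s (f ∘ x) = f ∘ cross a b s x := by
  funext q
  simp only [cross, Function.comp]
  split_ifs <;> first | rfl | exact (h.inv _ _).symm | exact (h _ _).symm

/-- Naturality of the action. -/
theorem rho_map {f : X → Y} (h : IsHom f) (b : Br n) (x : Fin (n + 1) → X) :
    rho Y n b (f ∘ x) = f ∘ rho X n b x := by
  induction b using Br.ind with
  | h1 => rw [rho_one, rho_one]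
  | hs i b ih => rw [rho_mul, rho_mul, ih, rho_sg, rho_sg, cross_map h]
  | hi i b ih => rw [rho_mul, rho_mul, ih, rho_sg_inv, rho_sg_inv, cross_map h]

theorem isHom_fst : IsHom (Prod.fst : X × Y → X) := fun _ _ => rfl
theorem isHom_snd : IsHom (Prod.snd : X × Y → Y) := fun _ _ => rfl
theorem prod_act (a b : X × Y) : a ◃ b = (a.1 ◃ b.1, a.2 ◃ b.2) := rfl
theorem prod_invAct (a b : X × Y) : a ◃⁻¹ b = (a.1 ◃⁻¹ b.1, a.2 ◃⁻¹ b.2) := rfl

theorem rho_prod (b : Br n) (x : Fin (n + 1) → X) (y : Fin (n + 1) → Y) :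
    rho (X × Y) n b (fun i => (x i, y i)) = fun i => (rho X n b x i, rho Y n b y i) := by
  funext i
  exact Prod.ext (congrFun (rho_map isHom_fst b fun i => (x i, y i)) i).symm
    (congrFun (rho_map isHom_snd b fun i => (x i, y i)) i).symm

theorem rho_const (b : Br n) (a : X) : rho X n b (fun _ => a) = fun _ => a := by
  induction b using Br.ind with
  | h1 => exact rho_one _
  | hs i b ih => rw [rho_mul, ih, rho_sg]; exact cross_fix _ rfl
  | hi i b ih => rw [rho_mul, ih, rho_sg_inv]; exact cross_fix _ rfl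

theorem lab_act {L : Type*} (a b : Lab L) : a ◃ b = b := rfl
theorem lab_invAct {L : Type*} (a b : Lab L) : a ◃⁻¹ b = b := rfl

/-- On labels the action is the permutation action. -/
theorem rho_lab {L : Type*} (b : Br n) (x : Fin (n + 1) → Lab L) (i : Fin (n + 1)) :
    rho (Lab L) n b x (pm n b i) = x i := by
  have key : ∀ (j : Fin n) (s : Bool) (y : Fin (n + 1) → Lab L) (q : Fin (n + 1)),
      cross j.castSucc j.succ s y (Equiv.swap j.castSucc j.succ q) = y q := by
    intro j s y q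
    have hne : j.castSucc ≠ j.succ := (Fin.castSucc_lt_succ (i := j)).ne
    by_cases h1 : q = j.castSucc
    · rw [h1, Equiv.swap_apply_left, cross_right hne]; cases s <;> rfl
    · by_cases h2 : q = j.succ
      · rw [h2, Equiv.swap_apply_right, cross_left]; cases s <;> rfl
      · rw [Equiv.swap_apply_of_ne_of_ne h1 h2, cross_ne h1 h2]
  induction b using Br.ind with
  | h1 => rw [rho_one, map_one]; rfl
  | hs j b ih => rw [rho_mul, map_mul, rho_sg, pm_sg, Equiv.Perm.mul_apply, key, ih]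
  | hi j b ih =>
    rw [rho_mul, map_mul, rho_sg_inv, map_inv, pm_sg, Equiv.swap_inv, Equiv.Perm.mul_apply, key, ih]

theorem Orb.refl (x : Fin (n + 1) → X) : Orb x x := ⟨1, rho_one x⟩
theorem Orb.symm {x y : Fin (n + 1) → X} (h : Orb x y) : Orb y x := by
  obtain ⟨b, rfl⟩ := h; exact ⟨b⁻¹, rho_inv_rho b x⟩
theorem Orb.trans {x y z : Fin (n + 1) → X} (h : Orb x y) (h' : Orb y z) : Orb x z := by
  obtain ⟨b, rfl⟩ := h; obtain ⟨c, rfl⟩ := h'; exact ⟨c * b, rho_mul c b x⟩

end braid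

/-! ### Conjugation quandles, holonomy -/

section holo
variable {Q R : Type*} [Quandle Q] [Quandle R]

theorem sy_apply (x y : Q) : sy x y = x ◃ y := rfl
theorem sy_inv_apply (x y : Q) : (sy x)⁻¹ y = x ◃⁻¹ y := rfl
theorem sy_act (x y : Q) : sy (x ◃ y) = sy x * sy y * (sy x)⁻¹ := Rack.ad_conj x y
theorem sy_invAct (x y : Q) : sy (x ◃⁻¹ y) = (sy x)⁻¹ * sy y * sy x := by
  conv_rhs => rw [← Rack.act_invAct_eq x y, sy_act]
  group
theorem cHom_sy : CHom (sy : Q → Equiv.Perm Q) := fun x y => by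
  rw [sy_act, inv_mul_cancel_right]

theorem conj_act {G : Type*} [Group G] (x y : Quandle.Conj G) : x ◃ y = (x * y * x⁻¹ : G) := rfl
theorem conj_invAct {G : Type*} [Group G] (x y : Quandle.Conj G) :
    x ◃⁻¹ y = (x⁻¹ * y * x : G) := by
  rw [← Rack.left_cancel x, Rack.act_invAct_eq, conj_act]; group

theorem CHom.conj {G : Type*} [Group G] {e : Q → G} (h : CHom e) (x y : Q) :
    e (x ◃ y) = e x * e y * (e x)⁻¹ := by rw [← h, mul_inv_cancel_right]
theorem CHom.inv {G : Type*} [Group G] {e : Q → G} (h : CHom e) (x y : Q) :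
    e (x ◃⁻¹ y) = (e x)⁻¹ * e y * e x := by
  conv_rhs => rw [← Rack.act_invAct_eq x y, h.conj]
  group
theorem cHom_iff {G : Type*} [Group G] {e : Q → G} :
    CHom e ↔ IsHom (R := Quandle.Conj G) e :=
  ⟨fun h x y => h.conj x y, fun h x y => by rw [h x y, conj_act, inv_mul_cancel_right]⟩
theorem CHom.comp {N : Type*} [Monoid N] {e : R → N} {f : Q → R} (he : CHom e) (hf : IsHom f) :
    CHom (e ∘ f) := fun x y => by
  simp only [Function.comp, hf x y, he (f x) (f y)]
theorem isHom_hom {G H : Type*} [Group G] [Group H] (f : G →* H) :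
    IsHom (Q := Quandle.Conj G) (R := Quandle.Conj H) f := fun x y => by
  simp only [conj_act, map_mul, map_inv]

variable {ι : Type*}

theorem hol_of (x : ι → Q) (i : ι) : hol x (FreeGroup.of i) = sy (x i) :=
  FreeGroup.lift_apply_of

/-- Conjugation by a word is the holonomy. -/
theorem CHom.lift {G : Type*} [Group G] {e : Q → G} (h : CHom e) (x : ι → Q) (φ : FreeGroup ι)
    (a : Q) : FreeGroup.lift (e ∘ x) φ * e a * (FreeGroup.lift (e ∘ x) φ)⁻¹ = e (hol x φ a) := by
  induction φ using FreeGroup.induction_on generalizing a with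
  | C1 => simp
  | of i => rw [hol_of, FreeGroup.lift_apply_of, sy_apply, h.conj]; rfl
  | inv_of i _ =>
    rw [map_inv, map_inv, hol_of, FreeGroup.lift_apply_of, sy_inv_apply, h.inv, inv_inv]; rfl
  | mul φ ψ h1 h2 =>
    rw [map_mul, map_mul, Equiv.Perm.mul_apply, ← h1, ← h2]; group

theorem hol_conj {G : Type*} [Group G] (x : ι → G) (φ : FreeGroup ι) (a : G) :
    hol (Q := Quandle.Conj G) x φ a = FreeGroup.lift x φ * a * (FreeGroup.lift x φ)⁻¹ :=
  (CHom.lift (Q := Quandle.Conj G) (e := id) (cHom_iff.2 fun _ _ => rfl) x φ a).symm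

theorem hol_map {f : Q → R} (h : IsHom f) (x : ι → Q) (φ : FreeGroup ι) (a : Q) :
    hol (f ∘ x) φ (f a) = f (hol x φ a) := by
  induction φ using FreeGroup.induction_on generalizing a with
  | C1 => simp
  | of i => rw [hol_of, hol_of, sy_apply, sy_apply, h]; rfl
  | inv_of i _ => rw [map_inv, map_inv, hol_of, hol_of, sy_inv_apply, sy_inv_apply, h.inv]; rfl
  | mul φ ψ h1 h2 => rw [map_mul, map_mul, Equiv.Perm.mul_apply, Equiv.Perm.mul_apply, h2, h1]

theorem hol_prod (x : ι → Q) (y : ι → R) (φ : FreeGroup ι) (a : Q × R) :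
    hol (fun i => (x i, y i)) φ a = (hol x φ a.1, hol y φ a.2) :=
  Prod.ext (hol_map isHom_fst (fun i => (x i, y i)) φ a).symm
    (hol_map isHom_snd (fun i => (x i, y i)) φ a).symm

theorem sy_hol (x : ι → Q) (φ : FreeGroup ι) (a : Q) :
    sy (hol x φ a) = hol x φ * sy a * (hol x φ)⁻¹ := (cHom_sy.lift x φ a).symm

theorem hol_act (x : ι → Q) (φ : FreeGroup ι) (a b : Q) :
    hol x φ (a ◃ b) = hol x φ a ◃ hol x φ b := by
  rw [← sy_apply (hol x φ a), sy_hol]; simp [sy_apply]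

theorem range_lift {G : Type*} [Group G] (x : ι → G) : (FreeGroup.lift x).range = Hx x :=
  FreeGroup.range_lift_eq_closure

theorem mem_Hx {G : Type*} [Group G] {x : ι → G} {h : G} :
    h ∈ Hx x ↔ ∃ φ, FreeGroup.lift x φ = h := by rw [← range_lift]; rfl

theorem self_mem_Hx {G : Type*} [Group G] (x : ι → G) (i : ι) : x i ∈ Hx x :=
  Subgroup.subset_closure ⟨i, rfl⟩

theorem Dx_le {G : Type*} [Group G] (x : ι → G) : Dx x ≤ Hx x :=
  Subgroup.commutator_le.2 fun _ ha _ hb => (Hx x).mul_mem ((Hx x).mul_mem ((Hx x).mul_mem ha hb)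
    ((Hx x).inv_mem ha)) ((Hx x).inv_mem hb)

theorem Dx_eq_map {G : Type*} [Group G] (x : ι → G) :
    Dx x = Subgroup.map (FreeGroup.lift x)
      ⁅(⊤ : Subgroup (FreeGroup ι)), (⊤ : Subgroup (FreeGroup ι))⁆ := by
  rw [Subgroup.map_commutator, ← MonoidHom.range_eq_map, range_lift, Dx]

theorem gConn_iff {G : Type*} [Group G] (x : ι → G) :
    GConn x ↔ TConn (Q := Quandle.Conj G) x := by
  refine forall_congr' fun i => forall_congr' fun j => ⟨?_, ?_⟩
  · rintro ⟨h, hh, e⟩
    obtain ⟨φ, rfl⟩ := mem_Hx.1 hh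
    exact ⟨φ, (hol_conj x φ _).trans e⟩
  · rintro ⟨φ, e⟩
    exact ⟨_, mem_Hx.2 ⟨φ, rfl⟩, (hol_conj x φ _).symm.trans e⟩

theorem mem_gp_ofFn {m : ℕ} (x : Fin m → Q) (g : Equiv.Perm Q) :
    g ∈ gp (List.ofFn x) ↔ ∃ φ, hol x φ = g := by
  have : {g | ∃ y ∈ List.ofFn x, g = sy y} = Set.range fun i => sy (x i) := by
    ext g
    simp only [List.mem_ofFn, Set.mem_ofPred_eq, Set.mem_range]
    exact ⟨fun ⟨_, ⟨i, rfl⟩, e⟩ => ⟨i, e.symm⟩, fun ⟨i, e⟩ => ⟨_, ⟨i, rfl⟩, e.symm⟩⟩
  rw [gp, this, ← FreeGroup.range_lift_eq_closure]; rfl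

theorem tConn_iff {m : ℕ} (x : Fin m → Q) : TConn x ↔ Conn (List.ofFn x) := by
  simp only [TConn, Conn, List.forall_mem_ofFn_iff, mem_gp_ofFn, exists_exists_eq_and]

theorem tFull_iff {m : ℕ} (x : Fin m → Q) : TFull x ↔ Full (List.ofFn x) := by
  simp only [TFull, Full, mem_gp_ofFn, exists_exists_eq_and]

theorem TFull.cn {x : ι → Q} (h : TFull x) : Cn Q := fun a b => by
  obtain ⟨φ, rfl⟩ := h a b
  refine ⟨FreeGroup.map x φ, ?_⟩
  have : (hol (id : Q → Q)).comp (FreeGroup.map x) = hol x :=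
    FreeGroup.ext_hom _ _ fun i => by simp [hol_of]
  rw [← this]; rfl

theorem aff_act {M : Type*} [AddCommGroup M] (θ : M ≃+ M) (a b : Aff θ) : a ◃ b = afa θ a b := rfl
theorem aff_invAct {M : Type*} [AddCommGroup M] (θ : M ≃+ M) (a b : Aff θ) :
    a ◃⁻¹ b = afa θ.symm a b := rfl
theorem mu_apply {A : Type*} [CommRing A] (t : Aˣ) (a : A) : mu t a = t * a := rfl
theorem mu_symm_apply {A : Type*} [CommRing A] (t : Aˣ) (a : A) : (mu t).symm a = ↑t⁻¹ * a := rfl
theorem isHom_val (O : {O : Set Q // Cl O}) : IsHom (fun a : SubQ O => a.1) := fun _ _ => rfl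

end holo

/-! ### Lists -/

section lists
variable {Q R : Type*} [Quandle Q] [Quandle R]

theorem Eqv.refl (l : List Q) : Eqv l l := Relation.EqvGen.refl l
theorem Eqv.symm {l l' : List Q} (h : Eqv l l') : Eqv l' l := Relation.EqvGen.symm _ _ h
theorem Eqv.trans {l l' l'' : List Q} (h : Eqv l l') (h' : Eqv l' l'') : Eqv l l'' :=
  Relation.EqvGen.trans _ _ _ h h'
theorem Eqv.of_eq {l l' : List Q} (h : l = l') : Eqv l l' := h ▸ Eqv.refl l
theorem Eqv.mv (u w : List Q) (x y : Q) : Eqv (u ++ x :: y :: w) (u ++ y :: (y ◃ x) :: w) :=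
  Relation.EqvGen.rel _ _ (Hur.mv u w x y)
theorem Eqv.swap (x y : Q) (w : List Q) : Eqv (x :: y :: w) (y :: (y ◃ x) :: w) := Eqv.mv [] w x y
theorem Eqv.swap' (x y : Q) (w : List Q) : Eqv (x :: y :: w) ((x ◃⁻¹ y) :: x :: w) := by
  have := Eqv.swap (x ◃⁻¹ y) x w
  rw [Rack.act_invAct_eq] at this
  exact this.symm

instance : Trans (Eqv (Q := Q)) (Eqv (Q := Q)) (Eqv (Q := Q)) := ⟨Eqv.trans⟩

/-- An equivalence relation that contains the moves contains `Eqv`. -/
theorem Eqv.ind {φ : List Q → List Q → Prop}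
    (hm : ∀ u w x y, φ (u ++ x :: y :: w) (u ++ y :: (y ◃ x) :: w)) (hr : ∀ l, φ l l)
    (hs : ∀ l l', φ l l' → φ l' l) (ht : ∀ a b c, φ a b → φ b c → φ a c) {l l' : List Q}
    (h : Eqv l l') : φ l l' := by
  induction h with
  | rel a b h => cases h; exact hm _ _ _ _
  | refl a => exact hr a
  | symm a b _ ih => exact hs _ _ ih
  | trans a b c _ _ h1 h2 => exact ht _ _ _ h1 h2

theorem Eqv.inv {α : Sort*} {f : List Q → α}
    (hm : ∀ u w x y, f (u ++ x :: y :: w) = f (u ++ y :: (y ◃ x) :: w)) {l l' : List Q}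
    (h : Eqv l l') : f l = f l' :=
  Eqv.ind (φ := fun a b => f a = f b) hm (fun _ => rfl) (fun _ _ => Eq.symm)
    (fun _ _ _ => Eq.trans) h

theorem Eqv.left (u : List Q) {l l' : List Q} (h : Eqv l l') : Eqv (u ++ l) (u ++ l') :=
  Eqv.ind (φ := fun a b => Eqv (u ++ a) (u ++ b))
    (fun a w x y => by simpa only [List.append_assoc] using Eqv.mv (u ++ a) w x y)
    (fun _ => Eqv.refl _) (fun _ _ => Eqv.symm) (fun _ _ _ => Eqv.trans) h

theorem Eqv.right {l l' : List Q} (h : Eqv l l') (u : List Q) : Eqv (l ++ u) (l' ++ u) :=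
  Eqv.ind (φ := fun a b => Eqv (a ++ u) (b ++ u))
    (fun a w x y => by simpa only [List.append_assoc, List.cons_append] using Eqv.mv a (w ++ u) x y)
    (fun _ => Eqv.refl _) (fun _ _ => Eqv.symm) (fun _ _ _ => Eqv.trans) h

theorem Eqv.cons (x : Q) {l l' : List Q} (h : Eqv l l') : Eqv (x :: l) (x :: l') := h.left [x]

theorem Eqv.append {a a' b b' : List Q} (h : Eqv a a') (h' : Eqv b b') : Eqv (a ++ b) (a' ++ b') :=
  (h.right b).trans (h'.left a')

theorem Eqv.map {f : Q → R} (hf : IsHom f) {l l' : List Q} (h : Eqv l l') :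
    Eqv (l.map f) (l'.map f) :=
  Eqv.ind (φ := fun a b => Eqv (a.map f) (b.map f))
    (fun a w x y => by
      simpa only [List.map_append, List.map_cons, hf y x] using Eqv.mv (a.map f) (w.map f) (f x) (f y))
    (fun _ => Eqv.refl _) (fun _ _ => Eqv.symm) (fun _ _ _ => Eqv.trans) h

theorem Eqv.length {l l' : List Q} (h : Eqv l l') : l.length = l'.length :=
  h.inv (f := List.length) fun _ _ _ _ => by simp

theorem pr_nil {α N : Type*} [Monoid N] (e : α → N) : pr e [] = 1 := rfl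
theorem pr_cons {α N : Type*} [Monoid N] (e : α → N) (x : α) (l : List α) :
    pr e (x :: l) = pr e l * e x := by simp [pr]
theorem pr_append {α N : Type*} [Monoid N] (e : α → N) (u w : List α) :
    pr e (u ++ w) = pr e w * pr e u := by simp [pr]
theorem pr_map {α β N : Type*} [Monoid N] (e : β → N) (f : α → β) (l : List α) :
    pr e (l.map f) = pr (e ∘ f) l := by simp [pr, ← List.map_reverse]
theorem pr_replicate {α N : Type*} [Monoid N] (e : α → N) (k : ℕ) (y : α) :
    pr e (List.replicate k y) = e y ^ k := by simp [pr]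

theorem Eqv.pr {N : Type*} [Monoid N] {e : Q → N} (he : CHom e) {l l' : List Q} (h : Eqv l l') :
    pr e l = pr e l' :=
  h.inv (f := T.pr e) fun _ _ x y => by
    simp only [pr_append, pr_cons, mul_assoc, ← mul_assoc (e (y ◃ x)), he y x]

theorem sy_mem_gp {l : List Q} {y : Q} (h : y ∈ l) : sy y ∈ gp l :=
  Subgroup.subset_closure ⟨y, h, rfl⟩

theorem gp_le {l : List Q} {H : Subgroup (Equiv.Perm Q)} : gp l ≤ H ↔ ∀ y ∈ l, sy y ∈ H := by
  rw [gp, Subgroup.closure_le]
  exact ⟨fun h y hy => h ⟨y, hy, rfl⟩, by rintro h _ ⟨y, hy, rfl⟩; exact h y hy⟩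

theorem gp_mono {l l' : List Q} (h : ∀ y ∈ l, y ∈ l') : gp l ≤ gp l' :=
  gp_le.2 fun y hy => sy_mem_gp (h y hy)

theorem gp_act {l : List Q} {g : Equiv.Perm Q} (hg : g ∈ gp l) (a b : Q) :
    g (a ◃ b) = g a ◃ g b := by
  induction hg using Subgroup.closure_induction generalizing a b with
  | mem g h => obtain ⟨y, _, rfl⟩ := h; exact Shelf.self_distrib
  | one => rfl
  | mul g h _ _ h1 h2 => simp only [Equiv.Perm.mul_apply, h1, h2]
  | inv g _ h1 =>
    apply g.injective
    rw [h1]; simp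

theorem gp_sy {l : List Q} {g : Equiv.Perm Q} (hg : g ∈ gp l) (a : Q) :
    sy (g a) = g * sy a * g⁻¹ := by
  ext b
  simp only [Equiv.Perm.mul_apply, sy_apply, gp_act hg]
  simp

theorem Eqv.gp {l l' : List Q} (h : Eqv l l') : gp l = gp l' := by
  refine h.inv (f := T.gp) fun u w x y => le_antisymm (gp_le.2 fun z hz => ?_) (gp_le.2 fun z hz => ?_)
  · simp only [List.mem_append, List.mem_cons] at hz
    rcases hz with hz | rfl | rfl | hz
    · exact sy_mem_gp (by simp [hz])
    · have : sy z = (sy y)⁻¹ * sy (y ◃ z) * sy y := by rw [sy_act]; group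
      rw [this]
      exact Subgroup.mul_mem _ (Subgroup.mul_mem _ (Subgroup.inv_mem _ (sy_mem_gp (by simp)))
        (sy_mem_gp (by simp))) (sy_mem_gp (by simp))
    · exact sy_mem_gp (by simp)
    · exact sy_mem_gp (by simp [hz])
  · simp only [List.mem_append, List.mem_cons] at hz
    rcases hz with hz | rfl | rfl | hz
    · exact sy_mem_gp (by simp [hz])
    · exact sy_mem_gp (by simp)
    · rw [sy_act]
      exact Subgroup.mul_mem _ (Subgroup.mul_mem _ (sy_mem_gp (by simp)) (sy_mem_gp (by simp)))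
        (Subgroup.inv_mem _ (sy_mem_gp (by simp)))
    · exact sy_mem_gp (by simp [hz])

theorem Eqv.full {l l' : List Q} (h : Eqv l l') (hl : Full l) : Full l' := by
  unfold Full at *
  rwa [← h.gp]

theorem Full.mono {l l' : List Q} (hl : Full l) (h : gp l ≤ gp l') : Full l' := fun a b =>
  (hl a b).imp fun _ hg => ⟨h hg.1, hg.2⟩

/-- Each entry after the moves comes from an entry before the moves. -/
theorem Eqv.mem {l l' : List Q} (h : Eqv l l') :
    (∀ a ∈ l', ∃ b ∈ l, ∃ g ∈ T.gp l, g b = a) ∧ ∀ a ∈ l, ∃ b ∈ l', ∃ g ∈ T.gp l', g b = a := by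
  induction h with
  | rel a b h =>
    cases h with
    | mv u w x y =>
      constructor
      · intro a ha
        simp only [List.mem_append, List.mem_cons] at ha
        rcases ha with ha | rfl | rfl | ha
        · exact ⟨a, by simp [ha], 1, one_mem _, rfl⟩
        · exact ⟨a, by simp, 1, one_mem _, rfl⟩
        · exact ⟨x, by simp, sy y, sy_mem_gp (by simp), rfl⟩
        · exact ⟨a, by simp [ha], 1, one_mem _, rfl⟩
      · intro a ha
        simp only [List.mem_append, List.mem_cons] at ha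
        rcases ha with ha | rfl | rfl | ha
        · exact ⟨a, by simp [ha], 1, one_mem _, rfl⟩
        · exact ⟨y ◃ a, by simp, (sy y)⁻¹, inv_mem (sy_mem_gp (by simp)), Rack.invAct_act_eq y a⟩
        · exact ⟨a, by simp, 1, one_mem _, rfl⟩
        · exact ⟨a, by simp [ha], 1, one_mem _, rfl⟩
  | refl a => exact ⟨fun x hx => ⟨x, hx, 1, one_mem _, rfl⟩, fun x hx => ⟨x, hx, 1, one_mem _, rfl⟩⟩
  | symm a b _ ih => exact ih.symm
  | trans a b c h1 h2 i1 i2 =>
    have e1 := Eqv.gp (l := a) h1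
    have e2 := Eqv.gp (l := b) h2
    constructor
    · intro x hx
      obtain ⟨y, hy, g, hg, rfl⟩ := i2.1 x hx
      obtain ⟨z, hz, k, hk, rfl⟩ := i1.1 y hy
      exact ⟨z, hz, g * k, mul_mem (e1 ▸ hg) hk, rfl⟩
    · intro x hx
      obtain ⟨y, hy, g, hg, rfl⟩ := i1.2 x hx
      obtain ⟨z, hz, k, hk, rfl⟩ := i2.2 y hy
      exact ⟨z, hz, g * k, mul_mem (e2 ▸ hg) hk, rfl⟩

theorem Eqv.conn {l l' : List Q} (h : Eqv l l') (hl : Conn l) : Conn l' := by
  intro a ha b hb
  obtain ⟨a', ha', g, hg, rfl⟩ := h.mem.1 a ha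
  obtain ⟨b', hb', k, hk, rfl⟩ := h.mem.1 b hb
  obtain ⟨c, hc, rfl⟩ := hl a' ha' b' hb'
  exact ⟨k * c * g⁻¹, h.gp ▸ mul_mem (mul_mem hk hc) (inv_mem hg), by simp⟩

theorem sy_pow_card [Finite Q] (y : Q) : sy y ^ Nat.card (Equiv.Perm Q) = 1 := pow_card_eq_one'

end lists

end Pool.Agent.P.MP_cc10d1_gt.T
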