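import Pool.Agent.P.MP_cc10d1_gt.Free

/-! Working definitions: braid groups, Hurwitz moves on lists, auxiliary quandles. -/

set_option autoImplicit false

open Quandles

namespace Pool.Agent.P.MP_cc10d1_gt.T

/-! ### Braid groups -/

def rels (n : ℕ) : Set (FreeGroup (Fin n)) :=
  {r | ∃ i j : Fin n, (i.1 + 1 < j.1 ∧ r = .of i * .of j * (.of j * .of i)⁻¹) ∨
    (i.1 + 1 = j.1 ∧ r = .of i * .of j * .of i * (.of j * .of i * .of j)⁻¹)}

/-- The braid group on `n + 1` strands. -/
abbrev Br (n : ℕ) : Type := PresentedGroup (rels n)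

def sg {n : ℕ} (i : Fin n) : Br n := PresentedGroup.of i

def ltr {n : ℕ} (c : Fin n × Bool) : Br n := if c.2 = true then sg c.1 else (sg c.1)⁻¹

def toBr {n : ℕ} (w : Word n) : Br n := (w.map ltr).prod

def mkHom {G : Type*} [Group G] {n : ℕ} (f : Fin n → G)
    (h1 : ∀ i j : Fin n, i.1 + 1 < j.1 → f i * f j = f j * f i)
    (h2 : ∀ i j : Fin n, i.1 + 1 = j.1 → f i * f j * f i = f j * f i * f j) : Br n →* G :=
  PresentedGroup.toGroup (f := f) (by
    rintro r ⟨i, j, ⟨h, rfl⟩ | ⟨h, rfl⟩⟩
    · simp only [map_mul, map_inv, FreeGroup.lift_apply_of, h1 i j h, mul_inv_cancel]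
    · simp only [map_mul, map_inv, FreeGroup.lift_apply_of, h2 i j h, mul_inv_cancel])

/-- A positive crossing as a permutation of the tuples. -/
def cr (X : Type*) [Quandle X] {n : ℕ} (i : Fin n) : Equiv.Perm (Fin (n + 1) → X) where
  toFun := cross i.castSucc i.succ true
  invFun := cross i.castSucc i.succ false
  left_inv x := cross_cancel (Fin.castSucc_lt_succ (i := i)).ne true x
  right_inv x := cross_cancel (Fin.castSucc_lt_succ (i := i)).ne false x

/-- The left action of the braid group on tuples; the generator acts as a negative crossing,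
so that `rho (toBr w)` is the inverse of `act w`. -/
def rho (X : Type*) [Quandle X] (n : ℕ) : Br n →* Equiv.Perm (Fin (n + 1) → X) :=
  mkHom (fun i => (cr X i)⁻¹)
    (by
      intro i j h
      rw [← mul_inv_rev, ← mul_inv_rev]
      refine congrArg _ (Equiv.ext fun x => ?_)
      change cross _ _ true (cross _ _ true x) = cross _ _ true (cross _ _ true x)
      rw [cross_far] <;> simp only [ne_eq, Fin.ext_iff, Fin.val_castSucc, Fin.val_succ] <;> omega)
    (by
      intro i j h
      rw [← mul_inv_rev, ← mul_inv_rev, ← mul_inv_rev, ← mul_inv_rev]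
      refine congrArg _ (Equiv.ext fun x => ?_)
      have e : j.castSucc = i.succ := Fin.ext h.symm
      change cross _ _ true (cross _ _ true (cross _ _ true x)) =
        cross _ _ true (cross _ _ true (cross _ _ true x))
      rw [e, cross_braid] <;>
        simp only [ne_eq, Fin.ext_iff, Fin.val_castSucc, Fin.val_succ] <;> omega)

/-- The permutation of a braid. -/
def pm (n : ℕ) : Br n →* Equiv.Perm (Fin (n + 1)) :=
  mkHom (fun i => Equiv.swap i.castSucc i.succ)
    (by
      intro i j h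
      refine Equiv.Perm.Disjoint.commute ?_
      refine Equiv.Perm.disjoint_swap_swap ?_
      simp only [List.nodup_cons, List.mem_cons, List.not_mem_nil, or_false, not_or,
        List.nodup_nil, and_true, not_false_eq_true, Fin.ext_iff, Fin.val_castSucc, Fin.val_succ]
      omega)
    (by
      intro i j h
      have e : j.castSucc = i.succ := Fin.ext h.symm
      have h1 : i.castSucc ≠ i.succ := (Fin.castSucc_lt_succ (i := i)).ne
      have h2 : i.succ ≠ j.succ := by
        simp only [ne_eq, Fin.ext_iff, Fin.val_succ]; omega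
      have h3 : i.castSucc ≠ j.succ := by
        simp only [ne_eq, Fin.ext_iff, Fin.val_castSucc, Fin.val_succ]; omega
      rw [e]
      refine Equiv.ext fun q => ?_
      simp only [Equiv.Perm.mul_apply, Equiv.swap_apply_def]
      split_ifs <;> simp_all)

/-- The exponent sum. -/
def ex (n : ℕ) : Br n →* Multiplicative ℤ :=
  mkHom (fun _ => Multiplicative.ofAdd 1) (fun _ _ _ => rfl) (fun _ _ _ => rfl)

/-- The term `d` of the lower central series of the normal closure of the squares. -/
abbrev CC (n d : ℕ) : Subgroup (Br n) := gam (sg : Fin n → Br n) d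

/-- The word `σ_0^± σ_1^± ⋯`. -/
def unk {n : ℕ} (e : Fin n → Bool) : Word n := (List.finRange n).map fun i => (i, e i)

/-- One stabilisation. -/
inductive Stab : (Σ n, Word n) → (Σ n, Word n) → Prop
  | stab (n : ℕ) (w : Word n) (s : Bool) :
      Stab ⟨n, w⟩ ⟨n + 1, w.map (fun c => (c.1.castSucc, c.2)) ++ [(Fin.last n, s)]⟩

/-- All fixed tuples are constant. -/
def Triv (X : Type*) [Quandle X] {n : ℕ} (b : Br n) : Prop :=
  ∀ x : Fin (n + 1) → X, rho X n b x = x → ∀ i j, x i = x j

/-- Two tuples in one orbit. -/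
def Orb {X : Type*} [Quandle X] {n : ℕ} (x y : Fin (n + 1) → X) : Prop := ∃ b, rho X n b x = y

/-! ### Hurwitz moves on lists -/

inductive Hur {Q : Type*} [Quandle Q] : List Q → List Q → Prop
  | mv (u w : List Q) (x y : Q) : Hur (u ++ x :: y :: w) (u ++ y :: (y ◃ x) :: w)

def Eqv {Q : Type*} [Quandle Q] : List Q → List Q → Prop := Relation.EqvGen Hur

/-- The product in reversed order. -/
def pr {Q N : Type*} [Monoid N] (e : Q → N) (l : List Q) : N := (l.reverse.map e).prod

def IsHom {Q R : Type*} [Quandle Q] [Quandle R] (f : Q → R) : Prop := ∀ x y, f (x ◃ y) = f x ◃ f y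

/-- A map to a monoid that turns the action into conjugation. -/
def CHom {Q N : Type*} [Quandle Q] [Monoid N] (e : Q → N) : Prop :=
  ∀ x y, e (x ◃ y) * e x = e x * e y

def sy {Q : Type*} [Quandle Q] (y : Q) : Equiv.Perm Q := Rack.act' y

def gp {Q : Type*} [Quandle Q] (l : List Q) : Subgroup (Equiv.Perm Q) :=
  Subgroup.closure {g | ∃ y ∈ l, g = sy y}

def Full {Q : Type*} [Quandle Q] (l : List Q) : Prop := ∀ a b : Q, ∃ g ∈ gp l, g a = b

def Conn {Q : Type*} [Quandle Q] (l : List Q) : Prop := ∀ a ∈ l, ∀ b ∈ l, ∃ g ∈ gp l, g a = b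

/-- The holonomy of a family of colours. -/
def hol {ι Q : Type*} [Quandle Q] (x : ι → Q) : FreeGroup ι →* Equiv.Perm Q :=
  FreeGroup.lift fun i => sy (x i)

def TConn {ι Q : Type*} [Quandle Q] (x : ι → Q) : Prop := ∀ i j, ∃ φ, hol x φ (x i) = x j

def TFull {ι Q : Type*} [Quandle Q] (x : ι → Q) : Prop := ∀ a b, ∃ φ, hol x φ a = b

/-- Connected quandles. -/
def Cn (Q : Type*) [Quandle Q] : Prop := TFull (id : Q → Q)

def dis {Q G : Type*} [Group G] (e : Q → G) : Subgroup G :=
  Subgroup.closure {g | ∃ a b, g = e a * (e b)⁻¹}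

/-- The degree zero part of every group generated by an image of `Z` is perfect. -/
def Perf (Z : Type) [Quandle Z] : Prop :=
  ∀ (G : Type) [Group G] (e : Z → G), CHom e → ⁅dis e, dis e⁆ = dis e

/-! ### Auxiliary quandles -/

scoped instance prodQ {Q R : Type*} [Quandle Q] [Quandle R] : Quandle (Q × R) where
  act a b := (a.1 ◃ b.1, a.2 ◃ b.2)
  self_distrib := Prod.ext Shelf.self_distrib Shelf.self_distrib
  invAct a b := (a.1 ◃⁻¹ b.1, a.2 ◃⁻¹ b.2)
  left_inv a b := Prod.ext (Rack.left_inv a.1 b.1) (Rack.left_inv a.2 b.2)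
  right_inv a b := Prod.ext (Rack.right_inv a.1 b.1) (Rack.right_inv a.2 b.2)
  fix := Prod.ext Quandle.fix Quandle.fix

/-- Labels: the trivial quandle. -/
def Lab (L : Type*) : Type _ := L

instance (L : Type*) : Quandle (Lab L) where
  act _ b := b
  self_distrib := rfl
  invAct _ b := b
  left_inv _ _ := rfl
  right_inv _ _ := rfl
  fix := rfl

instance (L : Type*) [h : Finite L] : Finite (Lab L) := h

/-- The affine quandle of an additive automorphism. -/
def Aff {M : Type*} [AddCommGroup M] (_θ : M ≃+ M) : Type _ := M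

instance {M : Type*} [AddCommGroup M] [h : Finite M] (θ : M ≃+ M) : Finite (Aff θ) := h

def afa {M : Type*} [AddCommGroup M] (θ : M ≃+ M) (a b : M) : M := a + θ (b - a)

theorem afa_symm {M : Type*} [AddCommGroup M] (θ : M ≃+ M) (a b : M) :
    afa θ.symm a (afa θ a b) = b := by
  unfold afa
  rw [add_sub_cancel_left, AddEquiv.symm_apply_apply, add_sub_cancel]

theorem afa_distrib {M : Type*} [AddCommGroup M] (θ : M ≃+ M) (x y z : M) :
    afa θ x (afa θ y z) = afa θ (afa θ x y) (afa θ x z) := by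
  simp only [afa, map_add, map_sub]
  abel

theorem afa_self {M : Type*} [AddCommGroup M] (θ : M ≃+ M) (a : M) : afa θ a a = a := by
  unfold afa
  rw [sub_self, map_zero, add_zero]

instance {M : Type*} [AddCommGroup M] (θ : M ≃+ M) : Quandle (Aff θ) where
  act a b := afa (M := M) θ a b
  self_distrib := afa_distrib (M := M) θ _ _ _
  invAct a b := afa (M := M) θ.symm a b
  left_inv a b := afa_symm (M := M) θ a b
  right_inv a b := afa_symm (M := M) θ.symm a b
  fix := fun {a} => afa_self (M := M) θ a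

/-- Multiplication by a unit. -/
def mu {R : Type*} [CommRing R] (t : Rˣ) : R ≃+ R where
  toFun a := t * a
  invFun a := ↑t⁻¹ * a
  left_inv a := Units.inv_mul_cancel_left t a
  right_inv a := Units.mul_inv_cancel_left t a
  map_add' := mul_add _

/-- The pair of vectors that describes the first half twist. -/
def pv {R : Type*} [CommRing R] (t : Rˣ) (n : ℕ) : Fin (n + 1) → Aff (mu t) × Aff (mu t⁻¹) :=
  fun i => if i.1 = 0 then ((-(↑t⁻¹ : R) : R), (-(↑t : R) : R))
    else if i.1 = 1 then ((1 : R), (1 : R)) else ((0 : R), (0 : R))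

def Cl {Q : Type*} [Quandle Q] (O : Set Q) : Prop := ∀ a ∈ O, ∀ b ∈ O, a ◃ b ∈ O ∧ a ◃⁻¹ b ∈ O

/-- A subquandle as a type. -/
def SubQ {Q : Type*} [Quandle Q] (O : {O : Set Q // Cl O}) : Type _ := {a : Q // a ∈ O.1}

instance {Q : Type*} [Quandle Q] [Finite Q] (O : {O : Set Q // Cl O}) : Finite (SubQ O) :=
  inferInstanceAs (Finite {a : Q // a ∈ O.1})

instance {Q : Type*} [Quandle Q] (O : {O : Set Q // Cl O}) : Quandle (SubQ O) where
  act a b := ⟨a.1 ◃ b.1, (O.2 _ a.2 _ b.2).1⟩
  self_distrib := Subtype.ext Shelf.self_distrib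
  invAct a b := ⟨a.1 ◃⁻¹ b.1, (O.2 _ a.2 _ b.2).2⟩
  left_inv a b := Subtype.ext (Rack.left_inv a.1 b.1)
  right_inv a b := Subtype.ext (Rack.right_inv a.1 b.1)
  fix := Subtype.ext Quandle.fix

/-! ### Tuples in groups -/

def Hx {ι E : Type*} [Group E] (x : ι → E) : Subgroup E := Subgroup.closure (Set.range x)

def Dx {ι E : Type*} [Group E] (x : ι → E) : Subgroup E := ⁅Hx x, Hx x⁆

def GConn {ι E : Type*} [Group E] (x : ι → E) : Prop := ∀ i j, ∃ h ∈ Hx x, h * x i * h⁻¹ = x j

/-- The entries are conjugate and generate a non-abelian group all of whose proper quotients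
are abelian. -/
def Jna {ι E : Type*} [Group E] (x : ι → E) : Prop :=
  GConn x ∧ Dx x ≠ ⊥ ∧ ∀ N : Subgroup E, N ≤ Hx x → (∀ h ∈ Hx x, ∀ a ∈ N, h * a * h⁻¹ ∈ N) →
    N ≠ ⊥ → Dx x ≤ N

def Om {ι E : Type*} [Group E] (x : ι → E) : Prop := Jna x ∧ ⁅Dx x, Dx x⁆ = Dx x

def Oa {ι E : Type*} [Group E] (x : ι → E) : Prop := Jna x ∧ ⁅Dx x, Dx x⁆ = ⊥

def kr {ι E : Type*} [Group E] (x : ι → E) : Subgroup (FreeGroup ι) := (FreeGroup.lift x).ker

/-- Each commutator subgroup can be reached without moving the other components. -/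
def Ind {ι κ E A : Type*} [Group E] [Quandle A] (x : κ → ι → E) (w : ι → A) : Prop :=
  ∀ k, ∀ d ∈ Dx (x k), ∃ φ, FreeGroup.lift (x k) φ = d ∧
    (∀ l, l ≠ k → FreeGroup.lift (x l) φ = 1) ∧ hol w φ = 1

/-- The universal property of the coefficient ring. -/
def Univ {R : Type} [CommRing R] (t : Rˣ) (e : ℕ) : Prop :=
  ∀ (D : Type) [AddCommGroup D] (θ : AddMonoid.End D), (∀ a : D, e • a = 0) → θ ^ e = 1 →
    (1 - θ) ^ e = 1 → ∃ f : R →+* AddMonoid.End D, f t = θ

end Pool.Agent.P.MP_cc10d1_gt.T
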