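import Pool.Agent.P.MP_cc10d1_gt.T.Iface

/-! Changed dependency lists. -/

-- redeps: Main MB XG
-- reimports: Main Pool.Agent.P.MP_cc10d1_gt.T.SWord
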