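import Pool.Agent.P.MP_cc10d1_gt.T.Iface
import Pool.Agent.P.MP_cc10d1_gt.T.TMain

/-! Step BR. -/

set_option autoImplicit false

namespace Pool.Agent.P.MP_cc10d1_gt.T

open Quandles

/-- The elements that can be cancelled inside the argument of `f`. -/
def br_ker {G α : Type*} [Group G] (f : G → α) : Subgroup G where
  carrier := {g | ∀ a b, f (a * g * b) = f (a * b)}
  one_mem' := fun a b => by rw [mul_one]
  mul_mem' := fun {g h} hg hh a b => by
    rw [← mul_assoc a g h, hh (a * g) b, hg a b]
  inv_mem' := fun {g} hg a b => by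
    rw [← hg (a * g⁻¹) b, inv_mul_cancel_right]

instance br_normal {G α : Type*} [Group G] (f : G → α) : (br_ker f).Normal :=
  ⟨fun g hg c a b => by
    have := hg (a * c) (c⁻¹ * b)
    simp only [mul_assoc, mul_inv_cancel_left] at this ⊢
    exact this⟩

theorem br_mem {G α : Type*} [Group G] {f : G → α} {x y : G}
    (h : ∀ a b, f (a * x * b) = f (a * y * b)) : x * y⁻¹ ∈ br_ker f := fun a b => by
  have := h a (y⁻¹ * b)
  simp only [mul_assoc, mul_inv_cancel_left] at this ⊢
  exact this

theorem val_toBr {A : Type*} [AddCommGroup A] (v : Knot → A) {n : ℕ} {u w : Word n}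
    (h : toBr u = toBr w) : val v n u = val v n w := by
  have e : ∀ z : Word n, fv v [] id (FreeGroup.mk z) = val v n z := fun z => by
    rw [fv_mk, wd_id, List.nil_append]
  have hk : ∀ {x y : Word n}, toBr x = toBr y → (IsKnot x ↔ IsKnot y) := fun {x y} hxy =>
    isKnot_congr (by rw [← pm_toBr, hxy, pm_toBr])
  have hN : Subgroup.normalClosure (rels n) ≤ br_ker (fv v [] id) := by
    refine Subgroup.normalClosure_le_normal ?_
    rintro r ⟨i, j, ⟨hij, rfl⟩ | ⟨hij, rfl⟩⟩ <;> refine br_mem fun a b => ?_ <;>
      obtain ⟨a, rfl⟩ := exists_mk a <;> obtain ⟨b, rfl⟩ := exists_mk b <;>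
      simp only [of_eq, FreeGroup.mul_mk, e, List.append_assoc, List.cons_append, List.nil_append]
    · refine val_move v (hk ?_) (Move.far n a b i j true true hij)
      simp only [toBr_append, toBr_cons, ltr_true, ← mul_assoc]
      rw [mul_assoc _ (sg i), sg_far hij, ← mul_assoc]
    · refine val_move v (hk ?_) (Move.braid n a b i j hij)
      have := sg_braid hij
      simp only [toBr_append, toBr_cons, ltr_true, ← mul_assoc (sg i), ← mul_assoc (sg j),
        ← mul_assoc (sg i * sg j), ← mul_assoc (sg j * sg i), this]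
  have hm : (FreeGroup.mk u)⁻¹ * FreeGroup.mk w ∈ Subgroup.normalClosure (rels n) := by
    rw [← PresentedGroup.mk_eq_one_iff, map_mul, map_inv, mk_toBr, mk_toBr, h, inv_mul_cancel]
  have := hN hm (FreeGroup.mk u) 1
  rw [mul_inv_cancel_left, mul_one, mul_one, e, e] at this
  exact this.symm

theorem p_BR :
    S_BR := by
  intro n u w h hu hw
  have := val_toBr FreeAbelianGroup.of h
  rw [val_mk _ hu, val_mk _ hw] at this
  exact FreeAbelianGroup.of_injective this

end Pool.Agent.P.MP_cc10d1_gt.T
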