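import Pool.Agent.P.MP_cc10d1_gt.T.Iface

/-! Step JCONN. -/

set_option autoImplicit false

namespace Pool.Agent.P.MP_cc10d1_gt.T

open Quandles

theorem jconn_word {ι κ E A : Type} [Finite κ] [Group E] [Quandle A] {x : κ → ι → E} {w : ι → A}
    (hI : Ind x w) (d : κ → E) (hd : ∀ k, d k ∈ Dx (x k)) :
    ∃ ψ, (∀ k, FreeGroup.lift (x k) ψ = d k) ∧ hol w ψ = 1 := by
  classical
  have key : ∀ s : Finset κ, ∃ ψ, (∀ k, FreeGroup.lift (x k) ψ = if k ∈ s then d k else 1) ∧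
      hol w ψ = 1 := by
    intro s
    induction s using Finset.induction_on with
    | empty => exact ⟨1, fun k => by simp, map_one _⟩
    | insert a s ha ih =>
      obtain ⟨ψ, h1, h2⟩ := ih
      obtain ⟨φ, h3, h4, h5⟩ := hI a (d a) (hd a)
      refine ⟨φ * ψ, fun k => ?_, by rw [map_mul, h5, h2, one_mul]⟩
      rw [map_mul, h1]
      by_cases hk : k = a
      · subst hk
        simp [h3, ha]
      · simp [h4 k hk, hk]
  haveI := Fintype.ofFinite κ
  obtain ⟨ψ, h1, h2⟩ := key Finset.univ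
  exact ⟨ψ, fun k => by simpa using h1 k, h2⟩

theorem jconn_lift {ι κ E : Type} [Group E] (x : κ → ι → E) (φ : FreeGroup ι) (k : κ) :
    (FreeGroup.lift (fun i => fun k => x k i) φ : κ → E) k = FreeGroup.lift (x k) φ := by
  have : (Pi.evalMonoidHom (fun _ : κ => E) k).comp (FreeGroup.lift fun i => fun k => x k i) =
      FreeGroup.lift (x k) := FreeGroup.ext_hom _ _ fun i => by simp
  exact DFunLike.congr_fun this φ

theorem p_JCONN (hHD : S_HD) :
    S_JCONN := by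
  intro ι κ E A _ _ _ x w hG hT hI i j
  obtain ⟨φ0, h0⟩ := hT i j
  have h1 : ∀ k, ∃ d ∈ Dx (x k), x k j =
      d * (FreeGroup.lift (x k) φ0 * x k i * (FreeGroup.lift (x k) φ0)⁻¹) * d⁻¹ := by
    intro k
    obtain ⟨g, hg, e⟩ := hG k i j
    obtain ⟨d, hd, e'⟩ := (hHD ι E (x k) (hG k) i g hg).2 _ (mem_Hx.2 ⟨φ0, rfl⟩)
    exact ⟨d, hd, e.symm.trans e'⟩
  choose d hd e using h1
  obtain ⟨ψ, h2, h3⟩ := jconn_word hI d hd
  refine ⟨ψ * φ0, ?_⟩
  refine (hol_prod (Q := Quandle.Conj (κ → E)) (fun i => fun k => x k i) w (ψ * φ0) _).trans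
    (Prod.ext ?_ ?_)
  · refine (hol_conj (G := κ → E) (fun i => fun k => x k i) (ψ * φ0) _).trans (funext fun k => ?_)
    change FreeGroup.lift (fun i => fun k => x k i) (ψ * φ0) k * x k i *
      (FreeGroup.lift (fun i => fun k => x k i) (ψ * φ0) k)⁻¹ = x k j
    rw [jconn_lift, map_mul, h2, e k]
    group
  · change hol w (ψ * φ0) (w i) = w j
    rw [map_mul, h3, one_mul, h0]

end Pool.Agent.P.MP_cc10d1_gt.T
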