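import Pool.Agent.P.MP_cc10d1_gt.T.Iface

/-! Step NUM. -/

set_option autoImplicit false

namespace Pool.Agent.P.MP_cc10d1_gt.T

open Quandles

theorem p_NUM :
    S_NUM := by
  intro S
  have h1 : ∀ s : ℕ, ∀ᶠ n : ℕ in Filter.atTop,
      0 < ∑ j ∈ Finset.range n, (-(s : ℝ)) ^ j / (j.factorial : ℝ) := by
    intro s
    have hs : HasSum (fun j : ℕ => (-(s : ℝ)) ^ j / (j.factorial : ℝ)) (Real.exp (-(s : ℝ))) := by
      rw [Real.exp_eq_exp_ℝ]
      exact NormedSpace.expSeries_div_hasSum_exp (-(s : ℝ))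
    exact hs.tendsto_sum_nat.eventually (lt_mem_nhds (Real.exp_pos _))
  have h2 : ∀ᶠ n : ℕ in Filter.atTop, ∀ s ∈ Finset.range (S + 1),
      0 < ∑ j ∈ Finset.range n, (-(s : ℝ)) ^ j / (j.factorial : ℝ) :=
    (Filter.eventually_all_finset _).2 fun s _ => h1 s
  obtain ⟨N, hN⟩ := Filter.eventually_atTop.1 h2
  refine ⟨2 * N + 1, ⟨N, rfl⟩, fun s hs => hN _ (by omega) s ?_⟩
  exact Finset.mem_range.2 (by omega)

end Pool.Agent.P.MP_cc10d1_gt.T
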