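import Pool.Agent.P.MP_cc10d1_gt.T.Iface

/-! Step PIG. -/

set_option autoImplicit false

namespace Pool.Agent.P.MP_cc10d1_gt.T

open Quandles

theorem pig_count {Q : Type} [Finite Q] [DecidableEq Q] (k : ℕ) (l : List Q)
    (h : Nat.card Q * k < l.length) : ∃ y, k < l.count y := by
  by_contra hn
  push Not at hn
  have _ := Fintype.ofFinite Q
  have h1 : ∑ y ∈ l.toFinset, l.count y ≤ ∑ _y ∈ l.toFinset, k :=
    Finset.sum_le_sum fun y _ => hn y
  rw [List.sum_toFinset_count_eq_length, Finset.sum_const, smul_eq_mul] at h1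
  have h2 : l.toFinset.card ≤ Nat.card Q := by
    rw [Nat.card_eq_fintype_card]
    exact Finset.card_le_univ _
  exact absurd (h1.trans (Nat.mul_le_mul_right k h2)) (not_le.2 h)

theorem p_PIG (hEXT : S_EXT) :
    S_PIG := by
  intro Q _ _ k l h
  classical
  obtain ⟨y, hy⟩ := pig_count k l h
  obtain ⟨l1, h1⟩ := hEXT Q (fun a => a == y) l
  rw [List.filter_beq] at h1
  have e : List.replicate (l.count y) y =
      List.replicate (l.count y - k) y ++ List.replicate k y := by
    rw [List.replicate_append_replicate, Nat.sub_add_cancel hy.le]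
  rw [e, ← List.append_assoc] at h1
  have hm : y ∈ l1 ++ List.replicate (l.count y - k) y :=
    List.mem_append_right _ (List.mem_replicate.2 ⟨by omega, rfl⟩)
  generalize l1 ++ List.replicate (l.count y - k) y = l0 at h1 hm
  have hs : ∀ a, a ∈ l0 ++ List.replicate k y ↔ a ∈ l0 := fun a =>
    ⟨fun ha => (List.mem_append.1 ha).elim id fun h => (List.eq_of_mem_replicate h).symm ▸ hm,
      List.mem_append_left _⟩
  have hg : gp l0 = gp (l0 ++ List.replicate k y) := by
    simp only [gp, hs]
  refine ⟨l0, y, hm, h1, hg.trans h1.gp.symm, fun hc a ha b hb => ?_⟩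
  rw [hg]
  exact h1.conn hc a ((hs a).2 ha) b ((hs b).2 hb)

end Pool.Agent.P.MP_cc10d1_gt.T
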