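import Pool.Agent.P.MP_cc10d1_gt.T.Iface
import Pool.Agent.P.MP_cc10d1_gt.Stab

/-! Step STABW. -/

set_option autoImplicit false

namespace Pool.Agent.P.MP_cc10d1_gt.T

open Quandles

namespace STABWaux

def sgn (b : Bool) : ℤ := if b = true then 1 else -1

def es {n : ℕ} (w : Word n) : ℤ := (w.map fun c => sgn c.2).sum

theorem es_cons {n : ℕ} (c : Fin n × Bool) (w : Word n) : es (c :: w) = sgn c.2 + es w := by
  simp [es]

theorem ex_es {n : ℕ} (w : Word n) : ex n (toBr w) = Multiplicative.ofAdd (es w) := by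
  induction w with
  | nil => exact map_one _
  | cons c w ih =>
    rw [toBr_cons, map_mul, ih, es_cons, ofAdd_add]
    obtain ⟨i, s⟩ := c
    cases s
    · rw [ltr_false, map_inv, ex_sg]; rfl
    · rw [ltr_true, ex_sg]; rfl

theorem es_par {n : ℕ} (w : Word n) : es w % 2 = (w.length : ℤ) % 2 := by
  induction w with
  | nil => rfl
  | cons c w ih =>
    rw [es_cons, List.length_cons]
    unfold sgn
    split_ifs <;> push_cast <;> omega

theorem sign_perm {n : ℕ} (w : Word n) : Equiv.Perm.sign (perm w) = (-1) ^ w.length := by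
  induction w with
  | nil => simp [perm]
  | cons c w ih =>
    have : perm (c :: w) = Equiv.swap c.1.castSucc c.1.succ * perm w := by simp [perm]
    rw [this, map_mul, ih, Equiv.Perm.sign_swap (Fin.castSucc_lt_succ (i := c.1)).ne,
      List.length_cons, pow_succ']

theorem len_par {n : ℕ} {w : Word n} (h : IsKnot w) : w.length % 2 = n % 2 := by
  rcases Nat.eq_zero_or_pos n with rfl | hn
  · cases w with
    | nil => rfl
    | cons c w => exact c.1.elim0
  · have nf : ∀ x, perm w x ≠ x := by
      intro x hx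
      haveI : Nontrivial (Fin (n + 1)) := Fin.nontrivial_iff_two_le.2 (by omega)
      obtain ⟨y, hy⟩ := exists_ne x
      exact hy ((h x y).eq_of_left hx).symm
    have hc : (perm w).IsCycle := ⟨0, nf 0, fun y _ => h 0 y⟩
    have hs : (perm w).support = Finset.univ :=
      Finset.eq_univ_of_forall fun x => Equiv.Perm.mem_support.2 (nf x)
    have := hc.sign
    rw [hs, sign_perm, Finset.card_univ, Fintype.card_fin, pow_succ, mul_neg, mul_one,
      neg_neg] at this
    rcases Nat.even_or_odd w.length with h1 | h1 <;> rcases Nat.even_or_odd n with h2 | h2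
    · rw [Nat.even_iff.1 h1, Nat.even_iff.1 h2]
    · rw [h1.neg_one_pow, h2.neg_one_pow] at this; exact absurd this (by decide)
    · rw [h1.neg_one_pow, h2.neg_one_pow] at this; exact absurd this (by decide)
    · rw [Nat.odd_iff.1 h1, Nat.odd_iff.1 h2]

theorem stab_many {n : ℕ} {w : Word n} (h : IsKnot w) (s : Bool) (k : ℕ) :
    ∃ w1 : Word (n + k), Relation.ReflTransGen Stab ⟨n, w⟩ ⟨n + k, w1⟩ ∧ IsKnot w1 ∧
      es w1 = es w + k * sgn s := by
  induction k with
  | zero => exact ⟨w, Relation.ReflTransGen.refl, h, by simp⟩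
  | succ k ih =>
    obtain ⟨w1, h1, h2, h3⟩ := ih
    refine ⟨w1.map (fun c => (c.1.castSucc, c.2)) ++ [(Fin.last (n + k), s)],
      h1.tail (Stab.stab _ _ _), isKnot_stab h2 s, ?_⟩
    have : es (w1.map (fun c => (c.1.castSucc, c.2)) ++ [(Fin.last (n + k), s)]) =
        es w1 + sgn s := by
      simp [es, Function.comp_def]
    rw [this, h3]; push_cast; ring

theorem ex_signs (m : ℕ) (a : ℤ) (h1 : -(m : ℤ) ≤ a) (h2 : a ≤ m) (h3 : a % 2 = (m : ℤ) % 2) :
    ∃ e : Fin m → Bool, ∑ i, sgn (e i) = a := by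
  induction m generalizing a with
  | zero => exact ⟨fun i => i.elim0, by simp at h1 h2 ⊢; omega⟩
  | succ m ih =>
    push_cast at h1 h2 h3
    by_cases ha : 1 ≤ a
    · obtain ⟨e, he⟩ := ih (a - 1) (by omega) (by omega) (by omega)
      refine ⟨Fin.cons true e, ?_⟩
      rw [Fin.sum_univ_succ]
      simp only [Fin.cons_zero, Fin.cons_succ, he, sgn, if_true]
      simp only [sgn] at he
      omega
    · obtain ⟨e, he⟩ := ih (a + 1) (by omega) (by omega) (by omega)
      refine ⟨Fin.cons false e, ?_⟩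
      rw [Fin.sum_univ_succ]
      simp only [Fin.cons_zero, Fin.cons_succ, he]
      have : sgn false = -1 := rfl
      omega

theorem es_unk {m : ℕ} (e : Fin m → Bool) : es (unk e) = ∑ i, sgn (e i) := by
  rw [Fin.sum_univ_def]
  simp [es, unk, Function.comp_def]

end STABWaux

open STABWaux in
theorem p_STABW :
    S_STABW := by
  intro n w h n0
  have hp := es_par w
  have hl := len_par h
  by_cases ha : 0 ≤ es w
  · obtain ⟨w1, h1, h2, h3⟩ := stab_many h false (n0 + (es w).natAbs)
    have hs : sgn false = -1 := rfl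
    rw [hs] at h3
    obtain ⟨e, he⟩ := ex_signs (n + (n0 + (es w).natAbs)) (es w1) (by omega) (by omega) (by omega)
    exact ⟨_, w1, e, by omega, h1, h2, by rw [ex_es, ex_es, es_unk, he]⟩
  · obtain ⟨w1, h1, h2, h3⟩ := stab_many h true (n0 + (es w).natAbs)
    have hs : sgn true = 1 := rfl
    rw [hs] at h3
    obtain ⟨e, he⟩ := ex_signs (n + (n0 + (es w).natAbs)) (es w1) (by omega) (by omega) (by omega)
    exact ⟨_, w1, e, by omega, h1, h2, by rw [ex_es, ex_es, es_unk, he]⟩

end Pool.Agent.P.MP_cc10d1_gt.T
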