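import Pool.Agent.P.MP_cc10d1_gt.T.Iface

/-! Step XG. -/

set_option autoImplicit false

namespace Pool.Agent.P.MP_cc10d1_gt.T

open Quandles

theorem p_XG (hFIXC : S_FIXC) :
    S_XG := by
  intro N n b hb hT X _ _ hX x hx
  obtain ⟨ι⟩ : Nonempty (X ↪ Fin N) := by
    have := Fintype.ofFinite X
    refine Function.Embedding.nonempty_of_card_le ?_
    rw [Fintype.card_fin, ← Nat.card_eq_fintype_card]
    exact hX
  have h1 : IsHom (R := Quandle.Conj (Equiv.Perm X)) (sy : X → Equiv.Perm X) := cHom_iff.1 cHom_sy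
  have h2 := isHom_hom (Equiv.Perm.viaEmbeddingHom ι)
  have h3 := rho_map (h2.comp h1) b x
  rw [hx] at h3
  refine (hFIXC X n b x hb hx).2 fun i j => ?_
  exact Equiv.Perm.viaEmbeddingHom_injective ι (hT _ h3 i j)

end Pool.Agent.P.MP_cc10d1_gt.T
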